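import Mathlib

/-!
# The density of primes at all scales (MP_31d0eb_nt, helper67): definitions for the dyadic analysis on `ℤ`

THEOREM (Results/MP_31d0eb_nt/PrimesAtAllScales). Near almost all integers and almost all primes the density of primes is the same, up to
`η`, in all nearby intervals at all scales between two consecutive of boundedly many cuts, down to `K log n`.

PLAN. `f` = prime density in blocks of length `h` (about `κ log X`), a function on `ℤ` supported in the root `[0, 2^m)` with
`∑ f² ≤ C X/h`. `Ek f k` = average over the dyadic interval of level `k`, `Dj` its differences. `Jump`: the greedy jumps of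
`k ↦ Ek f k i` (potential argument). `Fine`, `Coarse`, `Sqf`: `∑_k ∑_i sup_J |Av f J - Ek f k i|² ≤ C ∑ f²`, `J` near `i` of length about `2^k`.
`Reg`: both together. Then number theory: `Blk`, `Conv`, `RegN`, `UpN`, `RS`, `LowB`, `Pnt`, `PairE`, `Fin`.
-/

set_option autoImplicit false

namespace Pool.Agent.H67.RG

open Finset

/-- the dyadic interval of level `k` containing `i` -/
noncomputable def Iv (k : ℕ) (i : ℤ) : Finset ℤ := Ico (2 ^ k * (i / 2 ^ k)) (2 ^ k * (i / 2 ^ k) + 2 ^ k)

/-- dyadic average -/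
noncomputable def Ek (f : ℤ → ℝ) (k : ℕ) (i : ℤ) : ℝ := (∑ y ∈ Iv k i, f y) / 2 ^ k

/-- average over `[u, w)` -/
noncomputable def Av (f : ℤ → ℝ) (u w : ℤ) : ℝ := (∑ y ∈ Ico u w, f y) / ((w : ℝ) - u)

/-- the root interval -/
noncomputable def Rt (m : ℕ) : Finset ℤ := Ico 0 (2 ^ m)

/-- the differences of the averages; the last one is the average over the root -/
noncomputable def Dj (f : ℤ → ℝ) (m j : ℕ) (i : ℤ) : ℝ :=
  if j < m then Ek f j i - Ek f (j + 1) i else Ek f j i

/-- `f` vanishes outside the root -/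
def Supp (f : ℤ → ℝ) (m : ℕ) : Prop := ∀ i, i ∉ Rt m → f i = 0

/-- `[u, w)` is near `i` at level `k` -/
def Nr (D k : ℕ) (i u w : ℤ) : Prop :=
  2 ^ k ≤ w - u ∧ |u - i| ≤ D * 2 ^ k ∧ |w - i| ≤ D * 2 ^ k

end Pool.Agent.H67.RG
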