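import Pool.Agent.H24.AB.Final
import Pool.Agent.H67.RG.Def

/-!
# Definitions for the arithmetic part
-/

set_option autoImplicit false

namespace Pool.Agent.H67.RG

open Finset Pool.Agent.H5.Short

/-- the number of primes in `(a, b]` -/
noncomputable def pr (a b : ℝ) : ℝ := (((Ioc ⌊a⌋₊ ⌊b⌋₊).filter Nat.Prime).card : ℝ)

/-- `(a, b]` is near `n` -/
def Near (M K : ℝ) (n : ℕ) (a b : ℝ) : Prop :=
  K * Real.log n ≤ b - a ∧ b - a ≤ n / K ∧ |a - n| ≤ M * (b - a)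

/-- upper bound of the right order in all near intervals -/
def RegA (M K : ℝ) (n : ℕ) : Prop :=
  ∀ a b : ℝ, Near M K n a b → pr a b ≤ K * ((b - a) / Real.log n)

/-- upper bound with the factor `4 + δ` in all near intervals of length at least `(log n)^K` -/
def RegB (M K δ : ℝ) (n : ℕ) : Prop :=
  ∀ a b : ℝ, Near M K n a b → (Real.log n) ^ K ≤ b - a →
    pr a b ≤ (4 + δ) * ((b - a) / Real.log (n * (b - a)))

/-- common density between the cuts `t ∈ T` -/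
def RegC (M K η : ℝ) (n : ℕ) : Prop :=
  ∃ T : Finset ℝ, (T.card : ℝ) ≤ K ∧ ∀ a b a' b' : ℝ, Near M K n a b → Near M K n a' b' →
    b - a ≤ b' - a' → (∀ t ∈ T, ¬ ((b - a) / 2 ≤ t ∧ t ≤ 2 * (b' - a'))) →
    |pr a b / (b - a) - pr a' b' / (b' - a')| ≤ η / Real.log n

/-- lower bounds to the right and to the left at all scales `H ≥ H0` -/
def RichH (H0 c c' : ℝ) (n : ℕ) : Prop :=
  ∀ H : ℝ, H0 ≤ H → H ≤ n →
    c * (H / Real.log n) ≤ pr n (n + H) ∧ c' * (H / Real.log n) ≤ pr (n - H) n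

/-- lower bounds to the right and to the left at all scales from `K log n` on -/
def Rich (K c c' : ℝ) (n : ℕ) : Prop := RichH (K * Real.log n) c c' n

/-- the density of primes in the block `(s + i h, s + (i+1) h]` -/
noncomputable def fb (X h s : ℕ) (i : ℤ) : ℝ :=
  if 1 ≤ i ∧ s + (i.toNat + 1) * h ≤ 3 * X then Real.log X / h * (pc (s + i.toNat * h) h : ℝ) else 0

/-- the index of the block containing `n` -/
def idx (h s n : ℕ) : ℤ := (((n - 1 - s) / h : ℕ) : ℤ)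

/-- the blocks inside `(X, 2 X]` -/
noncomputable def Gs (X h s : ℕ) : Finset ℤ :=
  (Ico (0 : ℤ) (3 * X)).filter (fun i => X ≤ s + i.toNat * h ∧ s + (i.toNat + 1) * h ≤ 2 * X)

/-- second moment of the primes in intervals of length `h`, `κ log X ≤ h ≤ κ log X + 1`, with the constant `K2` -/
def PS (K2 : ℝ) : Prop := ∀ ε : ℝ, 0 < ε → ∃ κ0 : ℝ, ∀ κ : ℝ, κ0 ≤ κ → ∃ X0 : ℕ, ∀ X : ℕ, X0 ≤ X →
  ∀ h : ℕ, κ * Real.log X ≤ h → (h : ℝ) ≤ κ * Real.log X + 1 →
    ∑ n ∈ Icc X (2 * X), (pc n h : ℝ) ^ 2 ≤ (K2 + ε) * ((h : ℝ) ^ 2 * X / (Real.log X) ^ 2)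

end Pool.Agent.H67.RG
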