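import Pool.Agent.H67.RG.SndR
import Pool.Agent.H81.RG.Num

/-!
# The counting principle for blocks of size `r` with few MOD gates: the theorem
-/

set_option autoImplicit false

namespace Pool.Agent.H67.RG

open Pool.Agent.H93.RG
open Pool.Agent.H67.FG (Fo IsRef Few)

/-- Few MOD gates: let `m = p ^ e` be a power of a prime which does not divide `r ≥ 2`, and
`((k + 3) (r m t) ^ (l + 11)) ^ (2 r ^ (2 d)) ≤ N`. Then every refutation of the counting principle (the `N` points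
have a partition into blocks of size `r`) with rules of at most `k` symbols, lines of left depth at most `d` between
MOD gates and few MOD gates (`Few t l`) has at least `2 ^ t` different subformulas. -/
theorem count_gates {r d k l p e t N : ℕ} (hr : 2 ≤ r) (hd : 1 ≤ d) (hk : 1 ≤ k) (hp : p.Prime) (hpr : ¬ p ∣ r)
    (he : 1 ≤ e) (ht : 1 ≤ t) (hN : ((k + 3) * (r * p ^ e * t) ^ (l + 11)) ^ (2 * r ^ (2 * d)) ≤ N)
    (π : List (Fo (Finset (Fin N)))) (hπ : IsRef (p ^ e) k (Count r N) π)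
    (hline : ∀ A ∈ π, (∀ B ∈ A.subs, B.dep ≤ d) ∧ Few t l A) : 2 ^ t ≤ {B | ∃ A ∈ π, B ∈ A.subs}.ncard := by
  have : Fact p.Prime := ⟨hp⟩
  have hpe : 2 ≤ p ^ e := by
    calc 2 ≤ p := hp.two_le
      _ = p ^ 1 := (pow_one p).symm
      _ ≤ p ^ e := Nat.pow_le_pow_right hp.pos he
  set Q := 1000 * r * (k + 3) * ((t * p ^ e) ^ l * (2 * t + 2) ^ 2) with hQ
  have hlev := H81.RG.num_explicit (d := d) (k := k) (l := l) (c := N % r) (q := r * Q + 1) hr hpe ht (Nat.mod_lt _ (by omega))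
    (by rw [hQ])
  have h := lower p hr hpr (m := p ^ e) (T := (t * p ^ e) ^ l) (d := d) (k := k) (t := t) (w := 2 * t + 1)
    (q := r * Q + 1) (Nat.one_le_iff_ne_zero.2 (pow_ne_zero _ (by positivity))) hd hk (by omega)
    (by
      have : Q ≤ r * Q := Nat.le_mul_of_pos_left _ (by omega)
      have h2 : 1000 * r * (k + 3) * ((t * p ^ e) ^ l * (2 * t + 1 + 1) ^ 2) = Q := by rw [hQ]
      omega)
    (by rw [Nat.mul_add_mod]; exact Nat.mod_eq_of_lt (by omega))
    (hlev.trans hN) π hπ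
    (fun A hA B hB => ⟨(hline A hA).1 B hB, H93.FG2.few_outer (hline A hA).2 B hB⟩)
    (fun A hA => H93.FG2.few_deg ht hpe (hline A hA).2)
  by_contra hcon
  push Not at hcon
  have h1 : 2 ^ (2 * t + 1) = 2 ^ t * 2 ^ t * 2 := by
    rw [pow_succ, two_mul, pow_add]
  have h2 : 2 ≤ 2 ^ t := by
    calc 2 = 2 ^ 1 := rfl
      _ ≤ 2 ^ t := Nat.pow_le_pow_right (by norm_num) ht
  have h3 : 2 ^ t * {B | ∃ A ∈ π, B ∈ A.subs}.ncard + 2 ^ t ≤ 2 ^ t * 2 ^ t := by
    calc 2 ^ t * {B | ∃ A ∈ π, B ∈ A.subs}.ncard + 2 ^ t = 2 ^ t * ({B | ∃ A ∈ π, B ∈ A.subs}.ncard + 1) := by ring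
      _ ≤ 2 ^ t * 2 ^ t := Nat.mul_le_mul_left _ hcon
  omega

end Pool.Agent.H67.RG
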