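import Mathlib

/-!
# Module RS: rising sun for a sequence, both sides

PROOF of `rs_right`. Call `i ∈ [A, B)` bad if some `m` with `m0 ≤ m ≤ m1` has `∑_{y ∈ Ioc i (i+m)} f y ≤ c m`.
CLAIM (strong induction on `(B - A).toNat`): there is `S ⊆ Ico A B` with `|S| ≤ (B - A)/m0 + 1` and
`∑_{bad} f ≤ c (B - A + m1) + ∑_{i ∈ S} f i`. No bad element: `S = ∅`. Otherwise let `i` be the smallest bad element, `m` for it. The bad elements in
`[i, i+m)` contribute at most `f i + ∑_{Ioc i (i+m)} f ≤ f i + c m`. If `i + m ≥ B`: `S = {i}`, and `c m ≤ c m1 ≤ c (B - A + m1)`. If `i + m < B` use the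
claim for `[i+m, B)`: `∑_{bad} f ≤ f i + c m + c (B - i - m + m1) + ∑_{S'} f`, `S = S' ∪ {i}` and
`|S| ≤ 1 + (B - i - m)/m0 + 1 ≤ (B - A)/m0 + 1` (`m ≥ m0`, real division; `i ≥ A`). (Badness of an element does not depend on `B`.)
Then `∑_S f ≤ √(|S| ∑_S f²)`.
`rs_left`: apply `rs_right` to `f' y = f (-y)` and the interval `[1 - B, 1 - A)` (`i ↦ -i`), `Ioc (-i) (-i+m)` corresponds to `Ico (i-m) i`.
-/

set_option autoImplicit false

namespace Pool.Agent.H67.RG

open Finset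

private theorem rs_claim (f : ℤ → ℝ) (hf : ∀ i, 0 ≤ f i) (c : ℝ) (hc : 0 ≤ c) (m0 m1 : ℕ) (hm0 : 1 ≤ m0)
    (B : ℤ) (P : ℤ → Prop) [DecidablePred P]
    (hP : ∀ i, P i → ∃ m : ℕ, m0 ≤ m ∧ m ≤ m1 ∧ ∑ y ∈ Ioc i (i + (m : ℤ)), f y ≤ c * m) (n : ℕ) :
    ∀ A : ℤ, A ≤ B → (B - A).toNat ≤ n → ∃ S ⊆ Ico A B, (S.card : ℝ) ≤ ((B : ℝ) - A) / m0 + 1 ∧
      ∑ i ∈ (Ico A B).filter P, f i ≤ c * ((B : ℝ) - A + m1) + ∑ i ∈ S, f i := by
  have hm0r : (1 : ℝ) ≤ m0 := by exact_mod_cast hm0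
  have hm00 : (0 : ℝ) < m0 := by linarith
  have hm1r : (0 : ℝ) ≤ m1 := Nat.cast_nonneg _
  induction n with
  | zero =>
    intro A hAB hn
    have h1 : A = B := by omega
    refine ⟨∅, empty_subset _, ?_, ?_⟩
    · rw [h1]
      simp
    · rw [h1]
      simp only [Ico_self, filter_empty, sum_empty, sub_self, zero_add, add_zero]
      exact mul_nonneg hc hm1r
  | succ n ih =>
    intro A hAB hn
    have hABr : (0 : ℝ) ≤ (B : ℝ) - A := by
      have : (A : ℝ) ≤ B := by exact_mod_cast hAB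
      linarith
    by_cases hE : (Ico A B).filter P = ∅
    · refine ⟨∅, empty_subset _, ?_, ?_⟩
      · rw [card_empty, Nat.cast_zero]
        positivity
      · simp only [hE, sum_empty, add_zero]
        exact mul_nonneg hc (by linarith)
    · obtain ⟨i, hi, hmin⟩ := exists_min_image ((Ico A B).filter P) (fun i => i) (nonempty_iff_ne_empty.2 hE)
      rw [mem_filter, mem_Ico] at hi
      obtain ⟨⟨hiA, hiB⟩, hiP⟩ := hi
      obtain ⟨m, hmm, hmm1, hs⟩ := hP i hiP
      have hmr : (m : ℝ) ≤ m1 := by exact_mod_cast hmm1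
      have hmr0 : (m0 : ℝ) ≤ m := by exact_mod_cast hmm
      have hiAr : (A : ℝ) ≤ i := by exact_mod_cast hiA
      have hnot : i ∉ Ioc i (i + (m : ℤ)) := by
        rw [mem_Ioc]
        intro h
        exact lt_irrefl _ h.1
      by_cases hB : B ≤ i + m
      · refine ⟨{i}, ?_, ?_, ?_⟩
        · rw [singleton_subset_iff, mem_Ico]
          exact ⟨hiA, hiB⟩
        · rw [card_singleton, Nat.cast_one]
          have : 0 ≤ ((B : ℝ) - A) / m0 := by positivity
          linarith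
        · have h1 : (Ico A B).filter P ⊆ insert i (Ioc i (i + (m : ℤ))) := by
            intro j hj
            have h2 : i ≤ j := hmin j hj
            rw [mem_filter, mem_Ico] at hj
            rw [mem_insert, mem_Ioc]
            rcases h2.eq_or_lt with h3 | h3
            · exact Or.inl h3.symm
            · exact Or.inr ⟨h3, by omega⟩
          have h2 := sum_le_sum_of_subset_of_nonneg h1 (fun j _ _ => hf j)
          rw [sum_insert hnot] at h2
          rw [sum_singleton]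
          have h3 : c * m ≤ c * ((B : ℝ) - A + m1) := mul_le_mul_of_nonneg_left (by linarith) hc
          linarith
      · have hB' : i + (m : ℤ) < B := not_le.1 hB
        obtain ⟨S', hS', hcard, hsum⟩ := ih (i + (m : ℤ)) hB'.le (by omega)
        have hiS : i ∉ S' := by
          intro h
          have := hS' h
          rw [mem_Ico] at this
          omega
        refine ⟨insert i S', ?_, ?_, ?_⟩
        · intro j hj
          rw [mem_insert] at hj
          rw [mem_Ico]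
          rcases hj with h | h
          · rw [h]
            exact ⟨hiA, hiB⟩
          · have := hS' h
            rw [mem_Ico] at this
            exact ⟨by omega, this.2⟩
        · rw [card_insert_of_notMem hiS]
          push_cast at hcard ⊢
          have h1 : ((B : ℝ) - (i + m)) / m0 + 1 ≤ ((B : ℝ) - A) / m0 := by
            rw [div_add_one hm00.ne']
            exact div_le_div_of_nonneg_right (by linarith) hm00.le
          linarith
        · have h1 : (Ico A B).filter P ⊆ insert i (Ioc i (i + (m : ℤ))) ∪ (Ico (i + (m : ℤ)) B).filter P := by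
            intro j hj
            have h2 : i ≤ j := hmin j hj
            rw [mem_filter, mem_Ico] at hj
            rw [mem_union, mem_insert, mem_Ioc, mem_filter, mem_Ico]
            by_cases h3 : i + (m : ℤ) ≤ j
            · exact Or.inr ⟨⟨h3, hj.1.2⟩, hj.2⟩
            · left
              rcases h2.eq_or_lt with h4 | h4
              · exact Or.inl h4.symm
              · exact Or.inr ⟨h4, by omega⟩
          have h2 := sum_le_sum_of_subset_of_nonneg h1 (fun j _ _ => hf j)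
          have h3 := sum_union_inter (s₁ := insert i (Ioc i (i + (m : ℤ)))) (s₂ := (Ico (i + (m : ℤ)) B).filter P)
            (f := f)
          have h4 : 0 ≤ ∑ j ∈ insert i (Ioc i (i + (m : ℤ))) ∩ (Ico (i + (m : ℤ)) B).filter P, f j :=
            sum_nonneg fun j _ => hf j
          rw [sum_insert hnot] at h3
          rw [sum_insert hiS]
          push_cast at hsum
          have h5 : c * (m + ((B : ℝ) - (i + m) + m1)) ≤ c * ((B : ℝ) - A + m1) :=
            mul_le_mul_of_nonneg_left (by linarith) hc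
          rw [mul_add] at h5
          linarith

open Classical in
theorem rs_right (f : ℤ → ℝ) (hf : ∀ i, 0 ≤ f i) (c : ℝ) (hc : 0 ≤ c) (A B : ℤ) (hAB : A ≤ B) (m0 m1 : ℕ)
    (hm0 : 1 ≤ m0) :
    ∑ i ∈ (Ico A B).filter (fun i : ℤ => ∃ m : ℕ, m0 ≤ m ∧ m ≤ m1 ∧
      ∑ y ∈ Ioc i (i + (m : ℤ)), f y ≤ c * m), f i ≤
      c * ((B : ℝ) - A + m1) + √((((B : ℝ) - A) / m0 + 1) * ∑ i ∈ Ico A B, (f i) ^ 2) := by
  obtain ⟨S, hS, hcard, hsum⟩ := rs_claim f hf c hc m0 m1 hm0 B
    (fun i : ℤ => ∃ m : ℕ, m0 ≤ m ∧ m ≤ m1 ∧ ∑ y ∈ Ioc i (i + (m : ℤ)), f y ≤ c * m)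
    (fun i h => h) (B - A).toNat A hAB le_rfl
  have h1 : (∑ i ∈ S, f i) ^ 2 ≤ (((B : ℝ) - A) / m0 + 1) * ∑ i ∈ Ico A B, (f i) ^ 2 := by
    have h2 : (∑ i ∈ S, f i) ^ 2 ≤ (S.card : ℝ) * ∑ i ∈ S, (f i) ^ 2 := sq_sum_le_card_mul_sum_sq
    refine h2.trans ?_
    have h3 : ∑ i ∈ S, (f i) ^ 2 ≤ ∑ i ∈ Ico A B, (f i) ^ 2 :=
      sum_le_sum_of_subset_of_nonneg hS (fun j _ _ => sq_nonneg _)
    exact mul_le_mul hcard h3 (sum_nonneg fun _ _ => sq_nonneg _) ((Nat.cast_nonneg _).trans hcard)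
  have h2 := (le_abs_self _).trans (Real.abs_le_sqrt h1)
  linarith

open Classical in
theorem rs_left (f : ℤ → ℝ) (hf : ∀ i, 0 ≤ f i) (c : ℝ) (hc : 0 ≤ c) (A B : ℤ) (hAB : A ≤ B) (m0 m1 : ℕ)
    (hm0 : 1 ≤ m0) :
    ∑ i ∈ (Ico A B).filter (fun i : ℤ => ∃ m : ℕ, m0 ≤ m ∧ m ≤ m1 ∧
      ∑ y ∈ Ico (i - (m : ℤ)) i, f y ≤ c * m), f i ≤
      c * ((B : ℝ) - A + m1) + √((((B : ℝ) - A) / m0 + 1) * ∑ i ∈ Ico A B, (f i) ^ 2) := by
  have h := rs_right (fun y => f (-y)) (fun i => hf _) c hc (1 - B) (1 - A) (by omega) m0 m1 hm0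
  have hneg : ∀ (i : ℤ) (m : ℕ), ∑ y ∈ Ioc (-i) (-i + (m : ℤ)), f (-y) = ∑ y ∈ Ico (i - (m : ℤ)) i, f y := by
    intro i m
    refine sum_nbij' (fun y => -y) (fun y => -y) ?_ ?_ ?_ ?_ ?_
    · intro y hy
      rw [mem_Ioc] at hy
      rw [mem_Ico]
      omega
    · intro y hy
      rw [mem_Ico] at hy
      rw [mem_Ioc]
      omega
    · intro y _
      exact neg_neg y
    · intro y _
      exact neg_neg y
    · intro y _
      rfl
  have h1 : ∑ i ∈ (Ico (1 - B) (1 - A)).filter (fun i : ℤ => ∃ m : ℕ, m0 ≤ m ∧ m ≤ m1 ∧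
      ∑ y ∈ Ioc i (i + (m : ℤ)), f (-y) ≤ c * m), f (-i) =
      ∑ i ∈ (Ico A B).filter (fun i : ℤ => ∃ m : ℕ, m0 ≤ m ∧ m ≤ m1 ∧
      ∑ y ∈ Ico (i - (m : ℤ)) i, f y ≤ c * m), f i := by
    refine sum_nbij' (fun y => -y) (fun y => -y) ?_ ?_ ?_ ?_ ?_
    · intro y hy
      rw [mem_filter, mem_Ico] at hy ⊢
      refine ⟨by omega, ?_⟩
      obtain ⟨m, hm1, hm2, hm3⟩ := hy.2
      refine ⟨m, hm1, hm2, ?_⟩
      rw [← hneg, neg_neg]
      exact hm3
    · intro y hy
      rw [mem_filter, mem_Ico] at hy ⊢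
      refine ⟨by omega, ?_⟩
      obtain ⟨m, hm1, hm2, hm3⟩ := hy.2
      refine ⟨m, hm1, hm2, ?_⟩
      rw [hneg]
      exact hm3
    · intro y _
      exact neg_neg y
    · intro y _
      exact neg_neg y
    · intro y _
      rfl
  have h2 : ∑ i ∈ Ico (1 - B) (1 - A), (f (-i)) ^ 2 = ∑ i ∈ Ico A B, (f i) ^ 2 := by
    refine sum_nbij' (fun y => -y) (fun y => -y) ?_ ?_ ?_ ?_ ?_
    · intro y hy
      rw [mem_Ico] at hy ⊢
      omega
    · intro y hy
      rw [mem_Ico] at hy ⊢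
      omega
    · intro y _
      exact neg_neg y
    · intro y _
      exact neg_neg y
    · intro y _
      rfl
  simp only at h
  rw [h1, h2] at h
  have h3 : (((1 - A : ℤ) : ℝ) - ((1 - B : ℤ) : ℝ)) = (B : ℝ) - A := by
    push_cast
    ring
  rw [h3] at h
  exact h

end Pool.Agent.H67.RG
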