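import Pool.Agent.H67.RG.Fin

/-!
# Module Fin2: assembly with a second moment at the scale of the logarithm
-/

set_option autoImplicit false

namespace Pool.Agent.H67.RG

open Finset Pool.Agent.H5.Short

open Classical in
private theorem fin4 (K2 : ℝ) (hK2 : 0 < K2) (hPS : PS K2) (c c' η : ℝ) (hc : 0 ≤ c) (hc' : 0 ≤ c')
    (hcc : c + c' < 1) (hη : 0 < η) : ∃ K : ℝ, 0 < K ∧ ∃ X0 : ℕ, ∀ X : ℕ, X0 ≤ X →
    ((1 - c - c') ^ 2 / K2 - η) * X ≤ (((Ioc X (2 * X)).filter (fun n => Rich K c c' n)).card : ℝ) := by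
  obtain ⟨σ, hσ⟩ : ∃ σ : ℝ, σ = 1 - c - c' := ⟨_, rfl⟩
  have hσ0 : 0 < σ := by rw [hσ]; linarith
  have hσ1 : σ ≤ 1 := by rw [hσ]; linarith
  obtain ⟨δ, hδ⟩ : ∃ δ : ℝ, δ = min (σ / 2) (η * K2 ^ 2 / (1 + 4 * K2)) := ⟨_, rfl⟩
  have hδ0 : 0 < δ := by rw [hδ]; exact lt_min (by positivity) (by positivity)
  have hδσ : δ ≤ σ / 2 := by rw [hδ]; exact min_le_left _ _
  have hδη : δ * (1 + 4 * K2) ≤ η * K2 ^ 2 := by
    have : δ ≤ η * K2 ^ 2 / (1 + 4 * K2) := by rw [hδ]; exact min_le_right _ _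
    rwa [le_div_iff₀ (by positivity)] at this
  obtain ⟨κ0, hκ0⟩ := hPS δ hδ0
  obtain ⟨κ, hκ⟩ : ∃ κ : ℝ, κ = max κ0 2 := ⟨_, rfl⟩
  have hκ2 : 2 ≤ κ := by rw [hκ]; exact le_max_right _ _
  obtain ⟨X1, hX1⟩ := hκ0 κ (by rw [hκ]; exact le_max_left _ _)
  obtain ⟨K1, hK1, X2, hX2⟩ := rich_count c c' δ (K2 + δ) hc hc'
    (by linarith) (by linarith) hδ0 (by linarith) (by positivity)
  obtain ⟨X3, hX3⟩ := ev_small 2 (by norm_num)
  have hlogtend : Filter.Tendsto (fun n : ℕ => Real.log (n : ℝ)) Filter.atTop Filter.atTop :=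
    Real.tendsto_log_atTop.comp tendsto_natCast_atTop_atTop
  obtain ⟨X4, hX4⟩ := Filter.eventually_atTop.mp (hlogtend.eventually_ge_atTop (κ + 2))
  refine ⟨2 * K1 * κ, by positivity, max (max X1 X2) (max (max X3 X4) 3), ?_⟩
  intro X hX
  have g1 : X1 ≤ X := le_trans (le_trans (le_max_left _ _) (le_max_left _ _)) hX
  have g2 : X2 ≤ X := le_trans (le_trans (le_max_right _ _) (le_max_left _ _)) hX
  have g3 : X3 ≤ X := le_trans (le_trans (le_trans (le_max_left _ _) (le_max_left _ _)) (le_max_right _ _)) hX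
  have g4 : X4 ≤ X := le_trans (le_trans (le_trans (le_max_right _ _) (le_max_left _ _)) (le_max_right _ _)) hX
  have g7 : 3 ≤ X := le_trans (le_trans (le_max_right _ _) (le_max_right _ _)) hX
  have hXR : (3 : ℝ) ≤ X := by exact_mod_cast g7
  have hX0 : (0 : ℝ) < X := by linarith
  have hL := hX4 X g4
  have hL0 : 0 < Real.log X := by linarith
  have hκL : 1 ≤ κ * Real.log X := by nlinarith
  obtain ⟨h, hh⟩ : ∃ h : ℕ, h = ⌈κ * Real.log X⌉₊ := ⟨_, rfl⟩
  have hh1 : κ * Real.log X ≤ h := by rw [hh]; exact Nat.le_ceil _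
  have hh2 : (h : ℝ) ≤ κ * Real.log X + 1 := by rw [hh]; exact (Nat.ceil_lt_add_one (by positivity)).le
  have hh3 : (h : ℝ) ≤ √X := by
    have h1 := hX3 X g3
    rw [Real.rpow_two] at h1
    have h2 : Real.log X ≤ Real.log ((2 * X : ℕ) : ℝ) := by
      apply Real.log_le_log hX0
      push_cast
      linarith
    nlinarith
  have hh4 : 2 * Real.log X ≤ h := by nlinarith
  have hR := hX2 X g2 h hh4 hh3 (hX1 X g1 h hh1 hh2)
  have hsub : (Ioc X (2 * X)).filter (fun n => RichH (K1 * h) c c' n) ⊆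
      (Ioc X (2 * X)).filter (fun n => Rich (2 * K1 * κ) c c' n) := by
    intro n hn
    rw [mem_filter, mem_Ioc] at hn ⊢
    refine ⟨hn.1, RichH_mono ?_ hn.2⟩
    have hnX : (X : ℝ) < n := by exact_mod_cast hn.1.1
    have hlogn : Real.log X ≤ Real.log n := Real.log_le_log hX0 hnX.le
    calc K1 * (h : ℝ) ≤ K1 * (2 * (κ * Real.log X)) := mul_le_mul_of_nonneg_left (by linarith) hK1.le
      _ = 2 * K1 * κ * Real.log X := by ring
      _ ≤ 2 * K1 * κ * Real.log n := mul_le_mul_of_nonneg_left hlogn (by positivity)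
  have hcard : (((Ioc X (2 * X)).filter (fun n => RichH (K1 * h) c c' n)).card : ℝ) ≤
      (((Ioc X (2 * X)).filter (fun n => Rich (2 * K1 * κ) c c' n)).card : ℝ) := by
    exact_mod_cast card_le_card hsub
  refine le_trans ?_ (hR.trans hcard)
  apply mul_le_mul_of_nonneg_right _ hX0.le
  rw [← hσ, le_div_iff₀ (by positivity)]
  have e1 : (σ ^ 2 / K2 - η) * (K2 + δ) = σ ^ 2 + (σ ^ 2 * δ - η * K2 ^ 2) / K2 - η * δ := by
    field_simp
    ring
  rw [e1]
  have e2 : (σ ^ 2 * δ - η * K2 ^ 2) / K2 ≤ -(4 * δ) := by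
    rw [div_le_iff₀ hK2]
    have : σ ^ 2 * δ ≤ δ := by nlinarith [mul_nonneg hσ0.le hδ0.le]
    nlinarith
  have e3 : σ * δ ≤ δ := by nlinarith
  nlinarith [mul_nonneg hη.le hδ0.le, sq_nonneg δ]

open Classical in
theorem fin2 (K2 : ℝ) (hK2 : 0 < K2) (hPS : PS K2) (M c c' η : ℝ) (hM : 1 ≤ M) (hc : 0 ≤ c) (hc' : 0 ≤ c')
    (hcc : c + c' < 1) (hη : 0 < η) : ∃ K : ℝ, 0 < K ∧ ∃ X0 : ℕ, ∀ X : ℕ, X0 ≤ X →
    ((((Ioc X (2 * X)).filter (fun n => ¬ (RegA M K n ∧ RegB M K η n ∧ RegC M K η n))).card : ℝ) ≤ η * X) ∧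
    ((((Ioc X (2 * X)).filter (fun p => p.Prime ∧
      ¬ (RegA M K p ∧ RegB M K η p ∧ RegC M K η p ∧ Rich K c c' p))).card : ℝ) ≤
        (c + c' + η) * (X / Real.log X)) ∧
    (((1 - c - c') ^ 2 / K2 - η) * X ≤ (((Ioc X (2 * X)).filter
      (fun n => RegA M K n ∧ RegB M K η n ∧ RegC M K η n ∧ Rich K c c' n)).card : ℝ)) := by
  obtain ⟨K1, hK1, X1, hX1⟩ := fin12 M c c' η (η / 2) hM hc hc' hcc hη (by positivity)
  obtain ⟨K3, hK3, X2, hX2⟩ := fin4 K2 hK2 hPS c c' (η / 2) hc hc' hcc (by positivity)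
  obtain ⟨K, hK⟩ : ∃ K : ℝ, K = K1 + K3 := ⟨_, rfl⟩
  refine ⟨K, by linarith, max (max X1 X2) 3, ?_⟩
  intro X hX
  have g1 : X1 ≤ X := le_trans (le_trans (le_max_left _ _) (le_max_left _ _)) hX
  have g2 : X2 ≤ X := le_trans (le_trans (le_max_right _ _) (le_max_left _ _)) hX
  have g3 : 3 ≤ X := le_trans (le_max_right _ _) hX
  have hXR : (3 : ℝ) ≤ X := by exact_mod_cast g3
  have hX0 : (0 : ℝ) < X := by linarith
  have hlog1 : 1 ≤ Real.log X := by
    rw [Real.le_log_iff_exp_le (by linarith)]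
    have := Real.exp_one_lt_d9
    linarith
  obtain ⟨r1, r2⟩ := hX1 X g1
  have r3 := hX2 X g2
  have hlogn : ∀ n : ℕ, X < n → 1 ≤ Real.log n := fun n hn =>
    hlog1.trans (Real.log_le_log hX0 (by exact_mod_cast hn.le))
  have hreg : ∀ n : ℕ, X < n → (RegA M K1 n ∧ RegB M K1 η n ∧ RegC M K1 η n) →
      (RegA M K n ∧ RegB M K η n ∧ RegC M K η n) := by
    intro n hn h
    have h1 := hlogn n hn
    exact ⟨RegA_mono hK1 (by linarith) (by linarith) h.1, RegB_mono hK1 (by linarith) h1 h.2.1,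
      RegC_mono hK1 (by linarith) le_rfl (by linarith) h.2.2⟩
  have hi : (((Ioc X (2 * X)).filter (fun n => ¬ (RegA M K n ∧ RegB M K η n ∧ RegC M K η n))).card : ℝ) ≤
      η / 2 * X := by
    refine le_trans ?_ r1
    have : (Ioc X (2 * X)).filter (fun n => ¬ (RegA M K n ∧ RegB M K η n ∧ RegC M K η n)) ⊆
        (Ioc X (2 * X)).filter (fun n => ¬ (RegA M K1 n ∧ RegB M K1 η n ∧ RegC M K1 η n)) := by
      intro n hn
      rw [mem_filter, mem_Ioc] at hn ⊢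
      exact ⟨hn.1, fun h => hn.2 (hreg n hn.1.1 h)⟩
    exact_mod_cast card_le_card this
  refine ⟨hi.trans (by nlinarith), ?_, ?_⟩
  · have h0 : 0 ≤ (X : ℝ) / Real.log X := by positivity
    refine le_trans ?_ (r2.trans (mul_le_mul_of_nonneg_right (by linarith) h0))
    have : (Ioc X (2 * X)).filter (fun p => p.Prime ∧
        ¬ (RegA M K p ∧ RegB M K η p ∧ RegC M K η p ∧ Rich K c c' p)) ⊆
        (Ioc X (2 * X)).filter (fun p => p.Prime ∧
        ¬ (RegA M K1 p ∧ RegB M K1 η p ∧ RegC M K1 η p ∧ Rich K1 c c' p)) := by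
      intro n hn
      rw [mem_filter, mem_Ioc] at hn ⊢
      refine ⟨hn.1, hn.2.1, fun h => hn.2.2 ?_⟩
      obtain ⟨s1, s2, s3⟩ := hreg n hn.1.1 ⟨h.1, h.2.1, h.2.2.1⟩
      refine ⟨s1, s2, s3, RichH_mono ?_ h.2.2.2⟩
      exact mul_le_mul_of_nonneg_right (by linarith) (by linarith [hlogn n hn.1.1])
    exact_mod_cast card_le_card this
  · have hsub : (Ioc X (2 * X)).filter (fun n : ℕ => Rich K3 c c' n) ⊆
        (Ioc X (2 * X)).filter
          (fun n => RegA M K n ∧ RegB M K η n ∧ RegC M K η n ∧ Rich K c c' n) ∪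
        (Ioc X (2 * X)).filter (fun n => ¬ (RegA M K n ∧ RegB M K η n ∧ RegC M K η n)) := by
      intro n hn
      rw [mem_filter, mem_Ioc] at hn
      rw [mem_union, mem_filter, mem_filter, mem_Ioc]
      by_cases h : RegA M K n ∧ RegB M K η n ∧ RegC M K η n
      · left
        refine ⟨hn.1, h.1, h.2.1, h.2.2, RichH_mono ?_ hn.2⟩
        exact mul_le_mul_of_nonneg_right (by linarith) (by linarith [hlogn n hn.1.1])
      · right
        exact ⟨hn.1, h⟩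
    have h1 := (card_le_card hsub).trans (card_union_le _ _)
    have h2 : (((Ioc X (2 * X)).filter (fun n : ℕ => Rich K3 c c' n)).card : ℝ) ≤
        (((Ioc X (2 * X)).filter
          (fun n => RegA M K n ∧ RegB M K η n ∧ RegC M K η n ∧ Rich K c c' n)).card : ℝ) +
        (((Ioc X (2 * X)).filter (fun n => ¬ (RegA M K n ∧ RegB M K η n ∧ RegC M K η n))).card : ℝ) := by
      exact_mod_cast h1
    nlinarith

end Pool.Agent.H67.RG
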