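import Pool.Agent.H67.RG.Mart

/-!
# Module Jump: the greedy jumps of the dyadic averages

PROOF. Process the levels `m, m-1, …, 0`. Current value `V 0 = 0` and `V (s+1) = Ek f (m-s) i` if `λ ≤ |Ek f (m-s) i - V s|`, else
`V (s+1) = V s` (a function `ℕ → ℝ` by recursion, for each `i`). `S i = ∑_{s ≤ m} (V (s+1) - V s)²`.
(1) POTENTIAL. `Φ_s = ∑_{i ∈ Rt m} (f i - V_s i)²`. `V_s` is constant on the intervals of level `m - s + 1` (by induction; `V_0 = 0`), hence on
those of level `m - s`. On an interval `Q` of level `m - s` where a jump occurs (this depends on `Q` only)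
`∑_Q (f - V_s)² = ∑_Q (f - V_(s+1))² + 2^(m-s) (V_(s+1) - V_s)²`, otherwise both sides are trivially equal. Simplest: apply `orth` to
`v = V_s` and to `v' = V_(s+1)` at level `k = m - s`: `Φ_s - Φ_(s+1) = ∑ (Ek f k i - V_s i)² - ∑ (Ek f k i - V_(s+1) i)² =
∑_i (V_(s+1) i - V_s i)²` (pointwise: in the jump case the second term is `0` and the first is `(V_(s+1) - V_s)²`; otherwise both agree and
the jump is `0`). So `∑_i S i = Φ_0 - Φ_(m+1) ≤ Φ_0 = ∑ f²`.
(2) `T = {k ≤ m : λ ≤ |Ek f k i - V (m-k)|}`. For `k ∈ T` the square of the jump is `≥ λ²`, so `λ² |T| ≤ S i`.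
(3) `|V s| ≤ ∑ |jumps| ≤ ∑ jumps²/λ = S i/λ` (each jump is `0` or `≥ λ` in absolute value); `Ek f k i` is `V (m-k+1)` or within `λ` of
`V (m-k)`: `|Ek f k i| ≤ S i/λ + λ`.
(4) `k ≤ k' ≤ m`, no `t ∈ T` with `k ≤ t < k'`. Let `v = V (m-k'+1)`. `|Ek f k' i - v| ≤ λ` (it is `0` if `k' ∈ T`, `< λ` otherwise), and no jump at
the levels `k ≤ t < k'`, so `V (m-k) = v` (induction) and `|Ek f k i - v| ≤ λ` (if `k < k'` because `k ∉ T`; if `k = k'` by the first).
-/

set_option autoImplicit false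

namespace Pool.Agent.H67.RG

open Finset

/-- the greedy values -/
private noncomputable def jV (f : ℤ → ℝ) (m : ℕ) (lam : ℝ) : ℕ → ℤ → ℝ
  | 0 => fun _ => 0
  | s + 1 => fun i => if lam ≤ |Ek f (m - s) i - jV f m lam s i| then Ek f (m - s) i else jV f m lam s i

private theorem jump_half (j : ℕ) (i i' : ℤ) (h : i / 2 ^ j = i' / 2 ^ j) :
    i / 2 ^ (j + 1) = i' / 2 ^ (j + 1) := by
  have hp : (0 : ℤ) ≤ 2 ^ j := by positivity
  rw [pow_succ, ← Int.ediv_ediv_of_nonneg hp, ← Int.ediv_ediv_of_nonneg hp, h]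

private theorem jV_pos {f : ℤ → ℝ} {m : ℕ} {lam : ℝ} {s : ℕ} {i : ℤ} (h : lam ≤ |Ek f (m - s) i - jV f m lam s i|) :
    jV f m lam (s + 1) i = Ek f (m - s) i := by
  change (if lam ≤ |Ek f (m - s) i - jV f m lam s i| then Ek f (m - s) i else jV f m lam s i) = _
  rw [if_pos h]

private theorem jV_neg {f : ℤ → ℝ} {m : ℕ} {lam : ℝ} {s : ℕ} {i : ℤ} (h : ¬ lam ≤ |Ek f (m - s) i - jV f m lam s i|) :
    jV f m lam (s + 1) i = jV f m lam s i := by
  change (if lam ≤ |Ek f (m - s) i - jV f m lam s i| then Ek f (m - s) i else jV f m lam s i) = _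
  rw [if_neg h]

private theorem jV_const (f : ℤ → ℝ) (m : ℕ) (lam : ℝ) (s : ℕ) (hs : s ≤ m) (i i' : ℤ)
    (h : i / 2 ^ (m - s) = i' / 2 ^ (m - s)) :
    jV f m lam s i = jV f m lam s i' ∧ jV f m lam (s + 1) i = jV f m lam (s + 1) i' := by
  induction s with
  | zero =>
    refine ⟨rfl, ?_⟩
    change (if lam ≤ |Ek f (m - 0) i - jV f m lam 0 i| then Ek f (m - 0) i else jV f m lam 0 i) =
      (if lam ≤ |Ek f (m - 0) i' - jV f m lam 0 i'| then Ek f (m - 0) i' else jV f m lam 0 i')
    have h0 : jV f m lam 0 i = jV f m lam 0 i' := rfl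
    rw [Ek_const f (m - 0) i i' h, h0]
  | succ s ih =>
    have h1 : i / 2 ^ (m - s) = i' / 2 ^ (m - s) := by
      have h2 := jump_half (m - (s + 1)) i i' h
      rwa [show m - (s + 1) + 1 = m - s by omega] at h2
    obtain ⟨-, h3⟩ := ih (by omega) h1
    refine ⟨h3, ?_⟩
    change (if lam ≤ |Ek f (m - (s + 1)) i - jV f m lam (s + 1) i| then Ek f (m - (s + 1)) i else jV f m lam (s + 1) i) =
      (if lam ≤ |Ek f (m - (s + 1)) i' - jV f m lam (s + 1) i'| then Ek f (m - (s + 1)) i' else jV f m lam (s + 1) i')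
    rw [Ek_const f (m - (s + 1)) i i' h, h3]

private theorem jV_pot (f : ℤ → ℝ) (m : ℕ) (lam : ℝ) (n : ℕ) (hn : n ≤ m + 1) :
    ∑ s ∈ range n, ∑ i ∈ Rt m, (jV f m lam (s + 1) i - jV f m lam s i) ^ 2 =
      ∑ i ∈ Rt m, (f i) ^ 2 - ∑ i ∈ Rt m, (f i - jV f m lam n i) ^ 2 := by
  induction n with
  | zero =>
    rw [range_zero, sum_empty]
    symm
    rw [sub_eq_zero]
    refine sum_congr rfl fun i _ => ?_
    change f i ^ 2 = (f i - 0) ^ 2
    rw [sub_zero]
  | succ s ih =>
    rw [sum_range_succ, ih (by omega)]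
    have hk : m - s ≤ m := Nat.sub_le _ _
    have h1 := orth f (jV f m lam s) m (m - s) hk (fun i i' h => (jV_const f m lam s (by omega) i i' h).1)
    have h2 := orth f (jV f m lam (s + 1)) m (m - s) hk (fun i i' h => (jV_const f m lam s (by omega) i i' h).2)
    have h3 : ∑ i ∈ Rt m, (Ek f (m - s) i - jV f m lam s i) ^ 2 =
        ∑ i ∈ Rt m, (Ek f (m - s) i - jV f m lam (s + 1) i) ^ 2 +
        ∑ i ∈ Rt m, (jV f m lam (s + 1) i - jV f m lam s i) ^ 2 := by
      rw [← sum_add_distrib]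
      refine sum_congr rfl fun i _ => ?_
      by_cases hj : lam ≤ |Ek f (m - s) i - jV f m lam s i|
      · rw [jV_pos hj]
        ring
      · rw [jV_neg hj]
        ring
    rw [h1, h2, h3]
    ring

private theorem jV_step (f : ℤ → ℝ) (m : ℕ) (lam : ℝ) (hlam : 0 < lam) (s : ℕ) (i : ℤ) :
    |jV f m lam (s + 1) i - jV f m lam s i| ≤ (jV f m lam (s + 1) i - jV f m lam s i) ^ 2 / lam := by
  by_cases hj : lam ≤ |Ek f (m - s) i - jV f m lam s i|
  · rw [jV_pos hj, le_div_iff₀ hlam, ← sq_abs (Ek f (m - s) i - jV f m lam s i), pow_two]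
    exact mul_le_mul_of_nonneg_left hj (abs_nonneg _)
  · rw [jV_neg hj, sub_self]
    simp

private theorem jV_bd (f : ℤ → ℝ) (m : ℕ) (lam : ℝ) (hlam : 0 < lam) (n : ℕ) (i : ℤ) :
    |jV f m lam n i| ≤ (∑ s ∈ range n, (jV f m lam (s + 1) i - jV f m lam s i) ^ 2) / lam := by
  induction n with
  | zero =>
    change |(0 : ℝ)| ≤ _
    simp
  | succ n ih =>
    rw [sum_range_succ, add_div]
    have h1 := jV_step f m lam hlam n i
    have h2 : |jV f m lam (n + 1) i| ≤ |jV f m lam n i| + |jV f m lam (n + 1) i - jV f m lam n i| := by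
      have h3 := abs_add_le (jV f m lam n i) (jV f m lam (n + 1) i - jV f m lam n i)
      rwa [add_sub_cancel] at h3
    linarith

theorem jump (f : ℤ → ℝ) (m : ℕ) (lam : ℝ) (hlam : 0 < lam) : ∃ S : ℤ → ℝ, (∀ i, 0 ≤ S i) ∧
    ∑ i ∈ Rt m, S i ≤ ∑ i ∈ Rt m, (f i) ^ 2 ∧
    ∀ i ∈ Rt m, ∃ T : Finset ℕ, lam ^ 2 * (T.card : ℝ) ≤ S i ∧ (∀ k ≤ m, |Ek f k i| ≤ S i / lam + lam) ∧
      ∀ k k' : ℕ, k ≤ k' → k' ≤ m → (∀ t ∈ T, ¬ (k ≤ t ∧ t < k')) → |Ek f k i - Ek f k' i| ≤ 2 * lam := by
  refine ⟨fun i => ∑ s ∈ range (m + 1), (jV f m lam (s + 1) i - jV f m lam s i) ^ 2,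
    fun i => sum_nonneg fun _ _ => sq_nonneg _, ?_, ?_⟩
  · rw [sum_comm, jV_pot f m lam (m + 1) le_rfl]
    have := sum_nonneg (fun i (_ : i ∈ Rt m) => sq_nonneg (f i - jV f m lam (m + 1) i))
    linarith
  · intro i _
    obtain ⟨S, hS⟩ : ∃ S, S = ∑ s ∈ range (m + 1), (jV f m lam (s + 1) i - jV f m lam s i) ^ 2 := ⟨_, rfl⟩
    have hVS : ∀ n ≤ m + 1, |jV f m lam n i| ≤ S / lam := by
      intro n hn
      refine (jV_bd f m lam hlam n i).trans ?_
      rw [hS]
      refine div_le_div_of_nonneg_right ?_ hlam.le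
      exact sum_le_sum_of_subset_of_nonneg (range_mono hn) (fun _ _ _ => sq_nonneg _)
    refine ⟨(range (m + 1)).filter (fun k => lam ≤ |Ek f k i - jV f m lam (m - k) i|), ?_, ?_, ?_⟩
    · change _ ≤ ∑ s ∈ range (m + 1), (jV f m lam (s + 1) i - jV f m lam s i) ^ 2
      have h1 := sum_range_reflect (fun s => (jV f m lam (s + 1) i - jV f m lam s i) ^ 2) (m + 1)
      rw [← h1]
      have h2 : ∑ k ∈ (range (m + 1)).filter (fun k => lam ≤ |Ek f k i - jV f m lam (m - k) i|), lam ^ 2 ≤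
          ∑ j ∈ range (m + 1), (jV f m lam (m + 1 - 1 - j + 1) i - jV f m lam (m + 1 - 1 - j) i) ^ 2 := by
        refine le_trans (sum_le_sum ?_) (sum_le_sum_of_subset_of_nonneg (filter_subset _ _) (fun _ _ _ => sq_nonneg _))
        intro k hk
        rw [mem_filter, mem_range] at hk
        have h3 : m - (m - k) = k := by omega
        have h4 : m + 1 - 1 - k = m - k := by omega
        have h5 : jV f m lam (m - k + 1) i = Ek f k i := by
          have h6 := jV_pos (f := f) (m := m) (lam := lam) (s := m - k) (i := i) (by rw [h3]; exact hk.2)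
          rwa [h3] at h6
        rw [h4, h5, ← sq_abs (Ek f k i - jV f m lam (m - k) i)]
        exact pow_le_pow_left₀ hlam.le hk.2 2
      rw [sum_const, nsmul_eq_mul] at h2
      rw [mul_comm]
      exact h2
    · intro k hk
      have h3 : m - (m - k) = k := by omega
      change _ ≤ (∑ s ∈ range (m + 1), (jV f m lam (s + 1) i - jV f m lam s i) ^ 2) / lam + lam
      rw [← hS]
      by_cases hj : lam ≤ |Ek f k i - jV f m lam (m - k) i|
      · have h5 : jV f m lam (m - k + 1) i = Ek f k i := by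
          have h6 := jV_pos (f := f) (m := m) (lam := lam) (s := m - k) (i := i) (by rw [h3]; exact hj)
          rwa [h3] at h6
        have h7 := hVS (m - k + 1) (by omega)
        rw [h5] at h7
        linarith
      · have h7 := hVS (m - k) (by omega)
        have h8 := abs_add_le (jV f m lam (m - k) i) (Ek f k i - jV f m lam (m - k) i)
        rw [add_sub_cancel] at h8
        push Not at hj
        linarith
    · intro k k' hkk' hk' hT
      have h3 : ∀ t ≤ m, m - (m - t) = t := fun t ht => by omega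
      rcases hkk'.eq_or_lt with he | hlt
      · rw [he, sub_self, abs_zero]
        positivity
      have hno : ∀ t, k ≤ t → t < k' → ¬ lam ≤ |Ek f t i - jV f m lam (m - t) i| := by
        intro t h1 h2 hc
        exact hT t (by rw [mem_filter, mem_range]; exact ⟨by omega, hc⟩) ⟨h1, h2⟩
      have hV : ∀ s, m - k' + 1 ≤ s → s ≤ m - k → jV f m lam s i = jV f m lam (m - k' + 1) i := by
        intro s hs
        induction s, hs using Nat.le_induction with
        | base => exact fun _ => rfl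
        | succ s hs ih =>
          intro hs'
          rw [← ih (by omega)]
          apply jV_neg
          have h4 := hno (m - s) (by omega) (by omega)
          rwa [show m - (m - s) = s by omega] at h4
      have h5 := hV (m - k) (by omega) le_rfl
      have h6 := hno k le_rfl hlt
      push Not at h6
      rw [h5] at h6
      have h7 : |Ek f k' i - jV f m lam (m - k' + 1) i| ≤ lam := by
        by_cases hj : lam ≤ |Ek f k' i - jV f m lam (m - k') i|
        · have h8 := jV_pos (f := f) (m := m) (lam := lam) (s := m - k') (i := i) (by rw [h3 k' hk']; exact hj)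
          rw [h3 k' hk'] at h8
          rw [h8, sub_self, abs_zero]
          exact hlam.le
        · have h8 := jV_neg (f := f) (m := m) (lam := lam) (s := m - k') (i := i) (by rw [h3 k' hk']; exact hj)
          rw [h8]
          push Not at hj
          exact hj.le
      rw [abs_le] at h7 ⊢
      rw [abs_lt] at h6
      constructor <;> linarith [h6.1, h6.2, h7.1, h7.2]

end Pool.Agent.H67.RG
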