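import Pool.Agent.H67.RG.Sqf
import Pool.Agent.H67.RG.Jump

/-!
# Module Reg: regularity outside a small set

PROOF. For `k ≤ m`, `i ∈ Rt m` the set of pairs `(u, w)` with `Nr D k i u w` is finite (inside `Icc (i - D 2^k) (i + D 2^k)` squared) and nonempty
(`D ≥ 1`: `u = i`, `w = i + 2^k`); let `(u k i, w k i)` maximise `|Av f u w - Ek f k i|` (`Finset.exists_max_image`). `Q i = ∑_{k ≤ m} (max)²`. `sqf`:
`∑_{i ∈ Rt m} Q i ≤ 280 (D+1)(2D+3) ∑ f²`. `S` from `jump` with `lam`. `Bad = {i ∈ Rt m : S i > S0 or Q i > S0}`: Markov: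
`S0 |Bad| ≤ ∑ (S i + Q i)`. For `i` not in `Bad`: every near `J` of level `k` has `|Av f J - Ek f k i| ≤ √(Q i) ≤ √S0` and
`|Ek f k i| ≤ S0/lam + lam`: first claim. `T = T_jump ∪ {k ≤ m : max_J |Av f J - Ek f k i| > lam}`: `lam² |T| ≤ S i + Q i ≤ 2 S0`. If no `t ∈ T` has
`k ≤ t ≤ k'` then `k, k'` are not in the second set, so `|Av f J - Ek f k i| ≤ lam`, `|Av f J' - Ek f k' i| ≤ lam` and `|Ek f k i - Ek f k' i| ≤ 2 lam`.
-/

set_option autoImplicit false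

namespace Pool.Agent.H67.RG

open Finset

theorem reg (f : ℤ → ℝ) (m D : ℕ) (hD : 1 ≤ D) (hf : Supp f m) (lam S0 : ℝ) (hlam : 0 < lam) (hS0 : 0 < S0) :
    ∃ Bad ⊆ Rt m, S0 * (Bad.card : ℝ) ≤ (1 + 280 * ((D : ℝ) + 1) * (2 * D + 3)) * ∑ i ∈ Rt m, (f i) ^ 2 ∧
    ∀ i ∈ Rt m, i ∉ Bad →
      (∀ k ≤ m, ∀ u w : ℤ, Nr D k i u w → |Av f u w| ≤ S0 / lam + lam + √S0) ∧
      ∃ T : Finset ℕ, lam ^ 2 * (T.card : ℝ) ≤ 2 * S0 ∧ ∀ (k k' : ℕ) (u w u' w' : ℤ), k ≤ k' → k' ≤ m →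
        Nr D k i u w → Nr D k' i u' w' → (∀ t ∈ T, ¬ (k ≤ t ∧ t ≤ k')) → |Av f u w - Av f u' w'| ≤ 4 * lam := by
  obtain ⟨S, hSn, hSs, hSj⟩ := jump f m lam hlam
  have hex : ∀ (k : ℕ) (i : ℤ), ∃ p : ℤ × ℤ, Nr D k i p.1 p.2 ∧ ∀ u w : ℤ, Nr D k i u w →
      |Av f u w - Ek f k i| ≤ |Av f p.1 p.2 - Ek f k i| := by
    intro k i
    classical
    have hk0 : (0 : ℤ) < 2 ^ k := by positivity
    have hDk : (2 : ℤ) ^ k ≤ D * 2 ^ k := by
      have : (1 : ℤ) ≤ D := by exact_mod_cast hD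
      nlinarith
    have hne : (((Icc (i - D * 2 ^ k) (i + D * 2 ^ k)) ×ˢ (Icc (i - D * 2 ^ k) (i + D * 2 ^ k))).filter
        (fun p : ℤ × ℤ => Nr D k i p.1 p.2)).Nonempty := by
      refine ⟨(i, i + 2 ^ k), ?_⟩
      rw [mem_filter, mem_product, mem_Icc, mem_Icc]
      refine ⟨⟨⟨?_, ?_⟩, ⟨?_, ?_⟩⟩, ?_, ?_, ?_⟩
      · change i - D * 2 ^ k ≤ i
        linarith
      · change i ≤ i + D * 2 ^ k
        linarith
      · change i - D * 2 ^ k ≤ i + 2 ^ k
        linarith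
      · change i + 2 ^ k ≤ i + D * 2 ^ k
        linarith
      · change (2 : ℤ) ^ k ≤ i + 2 ^ k - i
        linarith
      · change |i - i| ≤ D * 2 ^ k
        rw [sub_self, abs_zero]
        linarith
      · change |i + 2 ^ k - i| ≤ D * 2 ^ k
        rw [add_sub_cancel_left, abs_of_pos hk0]
        exact hDk
    obtain ⟨p, hp1, hp2⟩ := exists_max_image _ (fun p : ℤ × ℤ => |Av f p.1 p.2 - Ek f k i|) hne
    refine ⟨p, (mem_filter.1 hp1).2, fun u w huw => ?_⟩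
    refine hp2 (u, w) ?_
    rw [mem_filter, mem_product, mem_Icc, mem_Icc]
    have h1 := abs_le.1 huw.2.1
    have h2 := abs_le.1 huw.2.2
    exact ⟨⟨⟨by linarith [h1.1], by linarith [h1.2]⟩, ⟨by linarith [h2.1], by linarith [h2.2]⟩⟩, huw⟩
  choose p hp1 hp2 using hex
  have hsq := sqf f m D hf (fun k i => (p k i).1) (fun k i => (p k i).2) (fun k _ i _ => hp1 k i)
  obtain ⟨x, hx⟩ : ∃ x : ℕ → ℤ → ℝ, x = fun k i => |Av f (p k i).1 (p k i).2 - Ek f k i| := ⟨_, rfl⟩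
  have hx1 : ∀ k i, (Av f (p k i).1 (p k i).2 - Ek f k i) ^ 2 = (x k i) ^ 2 := by
    intro k i
    rw [hx]
    exact (sq_abs _).symm
  have hx0 : ∀ k i, 0 ≤ x k i := by
    intro k i
    rw [hx]
    exact abs_nonneg _
  have hx2 : ∀ k i u w, Nr D k i u w → |Av f u w - Ek f k i| ≤ x k i := by
    intro k i u w h
    rw [hx]
    exact hp2 k i u w h
  simp only [hx1] at hsq
  rw [sum_comm] at hsq
  obtain ⟨Q, hQ⟩ : ∃ Q : ℤ → ℝ, Q = fun i => ∑ k ∈ range (m + 1), (x k i) ^ 2 := ⟨_, rfl⟩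
  have hQ1 : ∀ i, ∑ k ∈ range (m + 1), (x k i) ^ 2 = Q i := fun i => by rw [hQ]
  simp only [hQ1] at hsq
  have hQ0 : ∀ i, 0 ≤ Q i := fun i => by
    rw [hQ]
    exact sum_nonneg fun _ _ => sq_nonneg _
  classical
  refine ⟨(Rt m).filter (fun i => S0 < S i ∨ S0 < Q i), filter_subset _ _, ?_, ?_⟩
  · have h1 : ∑ i ∈ (Rt m).filter (fun i => S0 < S i ∨ S0 < Q i), S0 ≤
        ∑ i ∈ (Rt m).filter (fun i => S0 < S i ∨ S0 < Q i), (S i + Q i) := by
      refine sum_le_sum fun i hi => ?_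
      rcases (mem_filter.1 hi).2 with h | h
      · linarith [hQ0 i]
      · linarith [hSn i]
    have h2 : ∑ i ∈ (Rt m).filter (fun i => S0 < S i ∨ S0 < Q i), (S i + Q i) ≤ ∑ i ∈ Rt m, (S i + Q i) :=
      sum_le_sum_of_subset_of_nonneg (filter_subset _ _) (fun i _ _ => add_nonneg (hSn i) (hQ0 i))
    have h4 : ∑ i ∈ Rt m, (S i + Q i) = ∑ i ∈ Rt m, S i + ∑ i ∈ Rt m, Q i := sum_add_distrib
    rw [h4] at h2
    rw [sum_const, nsmul_eq_mul, mul_comm] at h1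
    have h3 : (1 + 280 * ((D : ℝ) + 1) * (2 * D + 3)) * ∑ i ∈ Rt m, (f i) ^ 2 =
        ∑ i ∈ Rt m, (f i) ^ 2 + 280 * ((D : ℝ) + 1) * (2 * D + 3) * ∑ i ∈ Rt m, (f i) ^ 2 := by ring
    rw [h3]
    linarith
  · intro i hi hib
    rw [mem_filter, not_and, not_or, not_lt, not_lt] at hib
    obtain ⟨hSi, hQi⟩ := hib hi
    obtain ⟨T, hT1, hT2, hT3⟩ := hSj i hi
    have hxk : ∀ k ≤ m, x k i ^ 2 ≤ Q i := by
      intro k hk
      rw [← hQ1 i]
      exact single_le_sum (f := fun k => (x k i) ^ 2) (fun _ _ => sq_nonneg _) (mem_range.2 (by omega))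
    refine ⟨?_, T ∪ (range (m + 1)).filter (fun k => lam < x k i), ?_, ?_⟩
    · intro k hk u w huw
      have h1 := hx2 k i u w huw
      have h2 : x k i ≤ √S0 := Real.le_sqrt_of_sq_le ((hxk k hk).trans hQi)
      have h3 := hT2 k hk
      have h4 : S i / lam ≤ S0 / lam := div_le_div_of_nonneg_right hSi hlam.le
      have h5 := abs_add_le (Av f u w - Ek f k i) (Ek f k i)
      rw [sub_add_cancel] at h5
      linarith
    · have h1 : lam ^ 2 * (((range (m + 1)).filter (fun k => lam < x k i)).card : ℝ) ≤ Q i := by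
        have h2 : ∑ k ∈ (range (m + 1)).filter (fun k => lam < x k i), lam ^ 2 ≤ Q i := by
          rw [← hQ1 i]
          refine le_trans (sum_le_sum ?_) (sum_le_sum_of_subset_of_nonneg (filter_subset _ _)
            (fun _ _ _ => sq_nonneg _))
          intro k hk
          exact pow_le_pow_left₀ hlam.le (mem_filter.1 hk).2.le 2
        rw [sum_const, nsmul_eq_mul] at h2
        rw [mul_comm]
        exact h2
      have h2 : ((T ∪ (range (m + 1)).filter (fun k => lam < x k i)).card : ℝ) ≤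
          (T.card : ℝ) + (((range (m + 1)).filter (fun k => lam < x k i)).card : ℝ) := by
        exact_mod_cast card_union_le _ _
      have h3 := mul_le_mul_of_nonneg_left h2 (sq_nonneg lam)
      rw [mul_add] at h3
      linarith
    · intro k k' u w u' w' hkk' hk' hn hn' hT
      have h1 : |Ek f k i - Ek f k' i| ≤ 2 * lam := by
        apply hT3 k k' hkk' hk'
        intro t ht htk
        exact hT t (mem_union_left _ ht) ⟨htk.1, htk.2.le⟩
      have h2 : x k i ≤ lam := by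
        by_contra hc
        push Not at hc
        exact hT k (mem_union_right _ (mem_filter.2 ⟨mem_range.2 (by omega), hc⟩)) ⟨le_rfl, hkk'⟩
      have h3 : x k' i ≤ lam := by
        by_contra hc
        push Not at hc
        exact hT k' (mem_union_right _ (mem_filter.2 ⟨mem_range.2 (by omega), hc⟩)) ⟨hkk', le_rfl⟩
      have h4 := (hx2 k i u w hn).trans h2
      have h5 := (hx2 k' i u' w' hn').trans h3
      rw [abs_le] at h1 h4 h5 ⊢
      constructor <;> linarith [h1.1, h1.2, h4.1, h4.2, h5.1, h5.2]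

end Pool.Agent.H67.RG
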