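import Pool.Agent.H67.RG.Dn

/-!
# Module Blk: the block function

PROOFS. `fb_nonneg`: `log X ≥ 0` for `X : ℕ`. `fb_supp`: for `i ∉ [0, 2^m)`: `i < 0` gives `0` (condition `1 ≤ i`); `i ≥ 2^m` gives
`s + (i+1) h > 2^m h ≥ 3 X` (if `h ≥ 1`), so `0`.
`fb_energy`: `second_log` (H24/AB/Count) with the length `2h` (`log (3X) ≤ h ≤ 2h ≤ 3X`): `∑_{n < 3X} (pc n (2h))² ≤ C0 (2h)² X/(log X)²`. For a
block with `1 ≤ i`, `s + (i+1) h ≤ 3X`, and `r ∈ range h`: `n = s + i h - r ≥ 0`, `n < 3X`, `Ioc (s + i h) (s + i h + h) ⊆ Ioc n (n + 2h)`, so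
`pc (s + i h) h ≤ pc n (2h)`. The map `(i, r) ↦ s + i h - r` is injective (`i ≥ 1`, `r < h`; it is `(s + i h) - r`, use `Nat.div`/`mod` of `n + h - 1 - s`
or compare two pairs directly). So `h ∑_i (pc (s + i h) h)² ≤ ∑_{n < 3X} (pc n (2h))²`, and
`∑_i (fb i)² ≤ (log X/h)² · 4 C0 h X/(log X)² = 4 C0 X/h`.
`fb_sum`: for `1 ≤ u ≤ w`, `s + w h ≤ 3X`: `∑_{y ∈ Ico u w} fb y = (log X/h) · pc (s + u h) ((w - u) h)` (consecutive blocks, `pc` is additive).
-/

set_option autoImplicit false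

namespace Pool.Agent.H67.RG

open Finset Pool.Agent.H5.Short

private theorem blk_add (a m k : ℕ) : pc a (m + k) = pc a m + pc (a + m) k := by
  unfold pc
  rw [← card_union_of_disjoint]
  · congr 1
    ext p
    simp only [mem_filter, mem_Ioc, mem_union]
    constructor
    · rintro ⟨⟨h1, h2⟩, h3⟩
      by_cases h4 : p ≤ a + m
      · left; exact ⟨⟨h1, h4⟩, h3⟩
      · right; exact ⟨⟨by omega, by omega⟩, h3⟩
    · rintro (⟨⟨h1, h2⟩, h3⟩ | ⟨⟨h1, h2⟩, h3⟩)
      · exact ⟨⟨h1, by omega⟩, h3⟩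
      · exact ⟨⟨by omega, by omega⟩, h3⟩
  · rw [disjoint_left]
    intro p hp hp'
    rw [mem_filter, mem_Ioc] at hp hp'
    omega

theorem fb_nonneg (X h s : ℕ) (i : ℤ) : 0 ≤ fb X h s i := by
  unfold fb
  split_ifs
  · have := Real.log_natCast_nonneg X
    positivity
  · exact le_rfl

theorem fb_supp (X h s m : ℕ) (hh : 1 ≤ h) (hm : 3 * X ≤ 2 ^ m * h) : Supp (fb X h s) m := by
  intro i hi
  unfold fb
  rw [if_neg]
  rintro ⟨h1, h2⟩
  apply hi
  unfold Rt
  rw [mem_Ico]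
  refine ⟨by omega, ?_⟩
  by_contra hc
  push Not at hc
  obtain ⟨n, rfl⟩ := Int.eq_ofNat_of_zero_le (by omega : 0 ≤ i)
  rw [Int.toNat_natCast] at h2
  have h3 : 2 ^ m ≤ n := by exact_mod_cast hc
  have h4 := Nat.mul_le_mul_right h h3
  nlinarith

theorem fb_energy : ∃ C : ℝ, 0 < C ∧ ∀ X h s : ℕ, 2 ≤ X → Real.log ((3 * X : ℕ) : ℝ) ≤ h → 2 * h ≤ 3 * X →
    s < h → ∀ R : Finset ℤ, ∑ i ∈ R, (fb X h s i) ^ 2 ≤ C * ((X : ℝ) / h) := by
  obtain ⟨C, hC, hsec⟩ := Pool.Agent.H24.AB.second_log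
  refine ⟨4 * C, by positivity, ?_⟩
  intro X h s hX hl h2h hs R
  classical
  have hXR : (2 : ℝ) ≤ X := by exact_mod_cast hX
  have hlog : 0 < Real.log X := Real.log_pos (by linarith)
  have hh : 0 < h := by omega
  have hhR : (0 : ℝ) < h := by exact_mod_cast hh
  have hs1 := hsec X (2 * h) hX (by push_cast at hl ⊢; linarith) h2h
  obtain ⟨R', hR'⟩ : ∃ R' : Finset ℤ, R' = R.filter (fun i => 1 ≤ i ∧ s + (i.toNat + 1) * h ≤ 3 * X) := ⟨_, rfl⟩
  have h1 : ∑ i ∈ R, (fb X h s i) ^ 2 = (Real.log X / h) ^ 2 * ∑ i ∈ R', (pc (s + i.toNat * h) h : ℝ) ^ 2 := by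
    rw [hR', sum_filter, mul_sum]
    refine sum_congr rfl fun i _ => ?_
    unfold fb
    split_ifs
    · ring
    · ring
  have h2 : (h : ℝ) * ∑ i ∈ R', (pc (s + i.toNat * h) h : ℝ) ^ 2 ≤ ∑ n ∈ range (3 * X), (pc n (2 * h) : ℝ) ^ 2 := by
    have h3 : (h : ℝ) * ∑ i ∈ R', (pc (s + i.toNat * h) h : ℝ) ^ 2 =
        ∑ x ∈ R' ×ˢ range h, (pc (s + x.1.toNat * h) h : ℝ) ^ 2 := by
      rw [sum_product, mul_sum]
      refine sum_congr rfl fun i _ => ?_
      simp only [sum_const, card_range, nsmul_eq_mul]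
    have hmem : ∀ x ∈ R' ×ˢ range h, 1 ≤ x.1.toNat ∧ s + (x.1.toNat + 1) * h ≤ 3 * X ∧ x.2 < h ∧ 1 ≤ x.1 := by
      intro x hx
      rw [mem_product, hR', mem_filter, mem_range] at hx
      exact ⟨by omega, hx.1.2.2, hx.2, hx.1.2.1⟩
    have hinj : Set.InjOn (fun x : ℤ × ℕ => s + x.1.toNat * h - x.2) (R' ×ˢ range h : Finset (ℤ × ℕ)) := by
      intro x hx y hy hxy
      obtain ⟨hx1, -, hx2, hx3⟩ := hmem x hx
      obtain ⟨hy1, -, hy2, hy3⟩ := hmem y hy
      have hxy' : s + x.1.toNat * h - x.2 = s + y.1.toNat * h - y.2 := hxy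
      have hxh : h ≤ x.1.toNat * h := Nat.le_mul_of_pos_left h hx1
      have hyh : h ≤ y.1.toNat * h := Nat.le_mul_of_pos_left h hy1
      have h4 : x.1.toNat = y.1.toNat := by
        rcases lt_trichotomy x.1.toNat y.1.toNat with hc | hc | hc
        · have h5 : (x.1.toNat + 1) * h ≤ y.1.toNat * h := Nat.mul_le_mul_right h hc
          rw [add_mul, one_mul] at h5
          omega
        · exact hc
        · have h5 : (y.1.toNat + 1) * h ≤ x.1.toNat * h := Nat.mul_le_mul_right h hc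
          rw [add_mul, one_mul] at h5
          omega
      have h5 : x.2 = y.2 := by
        rw [h4] at hxy' hxh
        omega
      exact Prod.ext (by omega) h5
    rw [h3]
    calc ∑ x ∈ R' ×ˢ range h, (pc (s + x.1.toNat * h) h : ℝ) ^ 2
        ≤ ∑ x ∈ R' ×ˢ range h, (pc (s + x.1.toNat * h - x.2) (2 * h) : ℝ) ^ 2 := by
          refine sum_le_sum fun x hx => ?_
          obtain ⟨hx1, -, hx2, hx3⟩ := hmem x hx
          have hxh : h ≤ x.1.toNat * h := Nat.le_mul_of_pos_left h hx1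
          refine pow_le_pow_left₀ (Nat.cast_nonneg _) ?_ 2
          have h6 : pc (s + x.1.toNat * h) h ≤ pc (s + x.1.toNat * h - x.2) (2 * h) := by
            unfold pc
            apply card_le_card
            apply filter_subset_filter
            intro p hp
            rw [mem_Ioc] at hp ⊢
            omega
          exact_mod_cast h6
      _ = ∑ n ∈ (R' ×ˢ range h).image (fun x : ℤ × ℕ => s + x.1.toNat * h - x.2), (pc n (2 * h) : ℝ) ^ 2 := by
          rw [sum_image hinj]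
      _ ≤ ∑ n ∈ range (3 * X), (pc n (2 * h) : ℝ) ^ 2 := by
          apply sum_le_sum_of_subset_of_nonneg
          · intro n hn
            rw [mem_image] at hn
            obtain ⟨x, hx, rfl⟩ := hn
            obtain ⟨hx1, hx4, hx2, hx3⟩ := hmem x hx
            rw [add_mul, one_mul] at hx4
            rw [mem_range]
            omega
          · exact fun _ _ _ => sq_nonneg _
  rw [h1]
  have h3 := h2.trans hs1
  have h4 : (Real.log X / h) ^ 2 * ∑ i ∈ R', (pc (s + i.toNat * h) h : ℝ) ^ 2 =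
      (Real.log X) ^ 2 / (h : ℝ) ^ 3 * ((h : ℝ) * ∑ i ∈ R', (pc (s + i.toNat * h) h : ℝ) ^ 2) := by
    field_simp
  rw [h4]
  refine (mul_le_mul_of_nonneg_left h3 (by positivity)).trans (le_of_eq ?_)
  push_cast
  field_simp
  ring

theorem fb_sum (X h s u w : ℕ) (hh : 1 ≤ h) (hu : 1 ≤ u) (huw : u ≤ w) (hw : s + w * h ≤ 3 * X) :
    ∑ y ∈ Ico (u : ℤ) (w : ℤ), fb X h s y = Real.log X / h * (pc (s + u * h) ((w - u) * h) : ℝ) := by
  induction w, huw using Nat.le_induction with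
  | base =>
    have h1 : pc (s + u * h) 0 = 0 := by
      unfold pc
      rw [add_zero, Ioc_self, filter_empty, card_empty]
    rw [Ico_self, sum_empty, Nat.sub_self, zero_mul, h1]
    simp
  | succ w huw ih =>
    have h1 : Ico (u : ℤ) ((w + 1 : ℕ) : ℤ) = insert (w : ℤ) (Ico (u : ℤ) (w : ℤ)) := by
      ext x
      rw [mem_insert, mem_Ico, mem_Ico]
      push_cast
      omega
    have h2 : s + w * h ≤ 3 * X := by nlinarith
    rw [h1, sum_insert (by simp), ih h2]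
    have h3 : fb X h s (w : ℤ) = Real.log X / h * (pc (s + w * h) h : ℝ) := by
      unfold fb
      rw [Int.toNat_natCast, if_pos ⟨by omega, hw⟩]
    have h4 : (w + 1 - u) * h = (w - u) * h + h := by
      rw [show w + 1 - u = (w - u) + 1 by omega]
      ring
    have h5 : s + u * h + (w - u) * h = s + w * h := by
      rw [add_assoc, ← add_mul, show u + (w - u) = w by omega]
    rw [h3, h4, blk_add, h5]
    push_cast
    ring

end Pool.Agent.H67.RG
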