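import Pool.Agent.H67.RG.Idx

/-!
# Module PairE: a good shift, and the number of good integers

PROOF of `shift`. `∑_{s < h} ∑_{i ∈ Gs X h s} (pc (s + i h) h)² ≤ ∑_{n ∈ Icc X (2X)} (pc n h)²`: the map `(s, i) ↦ s + i h` is injective on `s < h`, `i ≥ 0`, with values in `[X, 2X]`. So
some `s < h` has inner sum `≤ V/h` (average over `h ≥ 1` values), and `(fb)² ≤ (log X/h)² (pc)²`.
PROOF of `cnt`. `R = Gs X h s \ Bad`: `∑_R fb ≥ ∑_{Gs} fb - ∑_{Bad} fb ≥ (1 - δ - β) X/h ≥ 0` (`0 ≤ fb`: `log X ≥ 0`), Cauchy-Schwarz `(∑_R fb)² ≤ |R| ∑_{Gs} fb² ≤ |R| K2 X/h`, so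
`|R| ≥ ((1-δ-β)²/K2) X/h`. Every `i ∈ R` is the index of the `h` integers of `(s + i h, s + (i+1) h] ⊆ (X, 2X]` (`idx_block`), different `i` give disjoint sets.
-/

set_option autoImplicit false

namespace Pool.Agent.H67.RG

open Finset Pool.Agent.H5.Short

private theorem pe_nonneg (X h s : ℕ) (i : ℤ) : 0 ≤ fb X h s i := by
  unfold fb
  split_ifs
  · exact mul_nonneg (div_nonneg (Real.log_natCast_nonneg _) (Nat.cast_nonneg _)) (Nat.cast_nonneg _)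
  · exact le_rfl

private theorem pe_sq (X h s : ℕ) (i : ℤ) :
    (fb X h s i) ^ 2 ≤ (Real.log X / h) ^ 2 * (pc (s + i.toNat * h) h : ℝ) ^ 2 := by
  unfold fb
  split_ifs
  · rw [mul_pow]
  · rw [zero_pow two_ne_zero]
    positivity

private theorem pe_sum (X h : ℕ) (hh : 1 ≤ h) :
    ∑ s ∈ range h, ∑ i ∈ Gs X h s, (pc (s + i.toNat * h) h : ℝ) ^ 2 ≤
      ∑ n ∈ Icc X (2 * X), (pc n h : ℝ) ^ 2 := by
  classical
  rw [sum_sigma']
  have hinj : Set.InjOn (fun x : (_ : ℕ) × ℤ => x.1 + x.2.toNat * h)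
      (((range h).sigma fun s => Gs X h s : Finset ((_ : ℕ) × ℤ)) : Set ((_ : ℕ) × ℤ)) := by
    rintro ⟨a, i⟩ hx ⟨b, j⟩ hy hxy
    rw [mem_coe, mem_sigma, mem_range] at hx hy
    simp only at hx hy hxy
    unfold Gs at hx hy
    rw [mem_filter, mem_Ico] at hx hy
    have h1 : (a + i.toNat * h) % h = (b + j.toNat * h) % h := by rw [hxy]
    rw [Nat.add_mul_mod_self_right, Nat.add_mul_mod_self_right, Nat.mod_eq_of_lt hx.1, Nat.mod_eq_of_lt hy.1] at h1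
    subst h1
    have h2 : i.toNat * h = j.toNat * h := by omega
    have h3 : i.toNat = j.toNat := Nat.eq_of_mul_eq_mul_right (by omega) h2
    have h4 : i = j := by
      rw [← Int.toNat_of_nonneg hx.2.1.1, ← Int.toNat_of_nonneg hy.2.1.1, h3]
    rw [h4]
  rw [← sum_image (f := fun n : ℕ => (pc n h : ℝ) ^ 2) (g := fun x : (_ : ℕ) × ℤ => x.1 + x.2.toNat * h) hinj]
  refine sum_le_sum_of_subset_of_nonneg ?_ (fun _ _ _ => sq_nonneg _)
  intro n hn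
  rw [mem_image] at hn
  obtain ⟨⟨a, i⟩, hx, rfl⟩ := hn
  rw [mem_sigma, mem_range] at hx
  simp only at hx ⊢
  unfold Gs at hx
  rw [mem_filter] at hx
  rw [mem_Icc]
  refine ⟨hx.2.2.1, ?_⟩
  have e : (i.toNat + 1) * h = i.toNat * h + h := by ring
  omega

theorem shift (X h : ℕ) (hX : 2 ≤ X) (hh : 1 ≤ h) (V : ℝ) (hV : ∑ n ∈ Icc X (2 * X), (pc n h : ℝ) ^ 2 ≤ V) :
    ∃ s < h, ∑ i ∈ Gs X h s, (fb X h s i) ^ 2 ≤ (Real.log X / h) ^ 2 * (V / h) := by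
  have hhr : (0 : ℝ) < h := by exact_mod_cast hh
  have hne : (range h).Nonempty := ⟨0, mem_range.2 (by omega)⟩
  have hle : ∑ s ∈ range h, ∑ i ∈ Gs X h s, (fb X h s i) ^ 2 ≤
      ∑ _s ∈ range h, (Real.log X / h) ^ 2 * (V / h) := by
    rw [sum_const, card_range, nsmul_eq_mul]
    have e1 : (h : ℝ) * ((Real.log X / h) ^ 2 * (V / h)) = (Real.log X / h) ^ 2 * V := by
      field_simp
    rw [e1]
    calc ∑ s ∈ range h, ∑ i ∈ Gs X h s, (fb X h s i) ^ 2 ≤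
        ∑ s ∈ range h, ∑ i ∈ Gs X h s, (Real.log X / h) ^ 2 * (pc (s + i.toNat * h) h : ℝ) ^ 2 :=
          sum_le_sum fun s _ => sum_le_sum fun i _ => pe_sq X h s i
      _ = (Real.log X / h) ^ 2 * ∑ s ∈ range h, ∑ i ∈ Gs X h s, (pc (s + i.toNat * h) h : ℝ) ^ 2 := by
          rw [mul_sum]
          refine sum_congr rfl fun s _ => ?_
          rw [mul_sum]
      _ ≤ (Real.log X / h) ^ 2 * V :=
          mul_le_mul_of_nonneg_left ((pe_sum X h hh).trans hV) (sq_nonneg _)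
  obtain ⟨s, hs, hs2⟩ := exists_le_of_sum_le hne hle
  exact ⟨s, mem_range.1 hs, hs2⟩

open Classical in
private theorem pe_card (X h s : ℕ) (hh : 1 ≤ h) (Bad : Finset ℤ) :
    (Gs X h s \ Bad).card * h ≤ ((Ioc X (2 * X)).filter (fun n => idx h s n ∉ Bad)).card := by
  have e : (Gs X h s \ Bad).card * h = ((Gs X h s \ Bad) ×ˢ range h).card := by
    rw [card_product, card_range]
  rw [e]
  have key : ∀ x ∈ (Gs X h s \ Bad) ×ˢ range h, 0 ≤ x.1 ∧ x.1 ∉ Bad ∧ x.2 < h ∧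
      X < s + x.1.toNat * h + 1 + x.2 ∧ s + x.1.toNat * h + 1 + x.2 ≤ 2 * X ∧
      idx h s (s + x.1.toNat * h + 1 + x.2) = x.1 := by
    rintro ⟨i, r⟩ hx
    rw [mem_product, mem_sdiff, mem_range] at hx
    simp only at hx ⊢
    obtain ⟨⟨hG, hB⟩, hr⟩ := hx
    unfold Gs at hG
    rw [mem_filter, mem_Ico] at hG
    obtain ⟨⟨b1, _⟩, b3, b4⟩ := hG
    have e1 : (i.toNat + 1) * h = i.toNat * h + h := by ring
    refine ⟨b1, hB, hr, by omega, by omega, ?_⟩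
    have := idx_block h s (s + i.toNat * h + 1 + r) i.toNat hh (by omega) (by omega)
    rw [this, Int.toNat_of_nonneg b1]
  refine card_le_card_of_injOn (fun x => s + x.1.toNat * h + 1 + x.2) ?_ ?_
  · intro x hx
    obtain ⟨b1, b2, b3, b4, b5, b6⟩ := key x hx
    rw [mem_coe, mem_filter, mem_Ioc]
    refine ⟨⟨b4, b5⟩, ?_⟩
    simp only
    rw [b6]
    exact b2
  · intro x hx y hy hxy
    obtain ⟨b1, b2, b3, b4, b5, b6⟩ := key x hx
    obtain ⟨c1, c2, c3, c4, c5, c6⟩ := key y hy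
    simp only at hxy
    have h1 : x.1 = y.1 := by
      rw [← b6, ← c6, hxy]
    have h2 : x.2 = y.2 := by
      rw [h1] at hxy
      omega
    exact Prod.ext h1 h2

open Classical in
theorem cnt (X h s : ℕ) (hX : 2 ≤ X) (hh : 1 ≤ h) (Bad : Finset ℤ) (δ β K2 : ℝ) (hK2 : 0 < K2)
    (h0 : 0 ≤ 1 - δ - β) (h1 : (1 - δ) * ((X : ℝ) / h) ≤ ∑ i ∈ Gs X h s, fb X h s i)
    (h2 : ∑ i ∈ Bad, fb X h s i ≤ β * ((X : ℝ) / h))
    (h3 : ∑ i ∈ Gs X h s, (fb X h s i) ^ 2 ≤ K2 * ((X : ℝ) / h)) :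
    (1 - δ - β) ^ 2 / K2 * X ≤ (((Ioc X (2 * X)).filter (fun n => idx h s n ∉ Bad)).card : ℝ) := by
  have hhr : (0 : ℝ) < h := by exact_mod_cast hh
  have hXr : (0 : ℝ) < X := by exact_mod_cast (by omega : 0 < X)
  obtain ⟨R, hR⟩ : ∃ R : Finset ℤ, R = Gs X h s \ Bad := ⟨_, rfl⟩
  obtain ⟨Y, hY⟩ : ∃ Y : ℝ, Y = (X : ℝ) / h := ⟨_, rfl⟩
  have hY0 : 0 < Y := by rw [hY]; positivity
  have hYh : Y * h = X := by rw [hY, div_mul_cancel₀ _ hhr.ne']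
  rw [← hY] at h1 h2 h3
  have hRs : (1 - δ - β) * Y ≤ ∑ i ∈ R, fb X h s i := by
    have e1 : ∑ i ∈ Gs X h s, fb X h s i ≤ ∑ i ∈ R, fb X h s i + ∑ i ∈ Bad, fb X h s i := by
      have hsub : Gs X h s ⊆ R ∪ Bad := by
        intro i hi
        rw [mem_union, hR, mem_sdiff]
        by_cases hb : i ∈ Bad
        · exact Or.inr hb
        · exact Or.inl ⟨hi, hb⟩
      have e2 := sum_le_sum_of_subset_of_nonneg hsub (fun i _ _ => pe_nonneg X h s i)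
      have e3 := sum_union_inter (s₁ := R) (s₂ := Bad) (f := fb X h s)
      have e4 : 0 ≤ ∑ i ∈ R ∩ Bad, fb X h s i := sum_nonneg fun i _ => pe_nonneg X h s i
      linarith
    linarith
  have hcs : (∑ i ∈ R, fb X h s i) ^ 2 ≤ (R.card : ℝ) * (K2 * Y) := by
    have e1 : (∑ i ∈ R, fb X h s i) ^ 2 ≤ (R.card : ℝ) * ∑ i ∈ R, (fb X h s i) ^ 2 := sq_sum_le_card_mul_sum_sq
    have e2 : ∑ i ∈ R, (fb X h s i) ^ 2 ≤ ∑ i ∈ Gs X h s, (fb X h s i) ^ 2 := by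
      refine sum_le_sum_of_subset_of_nonneg ?_ (fun _ _ _ => sq_nonneg _)
      rw [hR]
      exact sdiff_subset
    exact e1.trans (mul_le_mul_of_nonneg_left (e2.trans h3) (Nat.cast_nonneg _))
  have hsq : ((1 - δ - β) * Y) ^ 2 ≤ (R.card : ℝ) * (K2 * Y) :=
    (pow_le_pow_left₀ (by positivity) hRs 2).trans hcs
  have hRc : (1 - δ - β) ^ 2 * Y ≤ (R.card : ℝ) * K2 := by
    have e1 : (1 - δ - β) ^ 2 * Y * Y ≤ (R.card : ℝ) * K2 * Y := by
      calc (1 - δ - β) ^ 2 * Y * Y = ((1 - δ - β) * Y) ^ 2 := by ring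
        _ ≤ (R.card : ℝ) * (K2 * Y) := hsq
        _ = (R.card : ℝ) * K2 * Y := by ring
    exact le_of_mul_le_mul_right e1 hY0
  have hcard : ((R.card : ℝ)) * h ≤ (((Ioc X (2 * X)).filter (fun n => idx h s n ∉ Bad)).card : ℝ) := by
    rw [hR]
    exact_mod_cast pe_card X h s hh Bad
  refine le_trans ?_ hcard
  rw [div_mul_eq_mul_div, div_le_iff₀ hK2, ← hYh]
  calc (1 - δ - β) ^ 2 * (Y * h) = (1 - δ - β) ^ 2 * Y * h := by ring
    _ ≤ (R.card : ℝ) * K2 * h := mul_le_mul_of_nonneg_right hRc hhr.le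
    _ = (R.card : ℝ) * h * K2 := by ring

end Pool.Agent.H67.RG
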