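import Pool.Agent.H67.RG.LowB
import Pool.Agent.H67.RG.PairE

/-!
# Module Cnt3: the number of rich integers from a second moment
-/

set_option autoImplicit false

namespace Pool.Agent.H67.RG

open Finset Pool.Agent.H5.Short

open Classical in
theorem rich_count (c c' δ K2 : ℝ) (hc : 0 ≤ c) (hc' : 0 ≤ c') (hc1 : c < 1) (hc1' : c' < 1) (hδ : 0 < δ)
    (h0 : 0 ≤ 1 - c - c' - 2 * δ) (hK2 : 0 < K2) : ∃ K : ℝ, 0 < K ∧ ∃ X0 : ℕ, ∀ X : ℕ, X0 ≤ X → ∀ h : ℕ,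
    2 * Real.log X ≤ h → (h : ℝ) ≤ √X →
    ∑ n ∈ Icc X (2 * X), (pc n h : ℝ) ^ 2 ≤ K2 * ((h : ℝ) ^ 2 * X / (Real.log X) ^ 2) →
    (1 - c - c' - 2 * δ) ^ 2 / K2 * X ≤
      (((Ioc X (2 * X)).filter (fun n => RichH (K * h) c c' n)).card : ℝ) := by
  obtain ⟨K, hK, X1, hX1⟩ := lowB c c' δ hc hc' hc1 hc1' hδ
  obtain ⟨X2, hX2⟩ := mass δ hδ
  refine ⟨K, hK, max (max X1 X2) 3, ?_⟩
  intro X hX h hh1 hh2 hV
  have hXX1 : X1 ≤ X := le_trans (le_trans (le_max_left _ _) (le_max_left _ _)) hX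
  have hXX2 : X2 ≤ X := le_trans (le_trans (le_max_right _ _) (le_max_left _ _)) hX
  have hX3 : 3 ≤ X := le_trans (le_max_right _ _) hX
  have hXR : (3 : ℝ) ≤ X := by exact_mod_cast hX3
  have hlog1 : 1 ≤ Real.log X := by
    rw [Real.le_log_iff_exp_le (by linarith)]
    have := Real.exp_one_lt_d9
    linarith
  have hh : 1 ≤ h := by
    have : (0 : ℝ) < h := by linarith
    exact_mod_cast this
  have hh0 : (0 : ℝ) < h := by exact_mod_cast hh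
  obtain ⟨s, hs, hE⟩ := shift X h (by omega) hh _ hV
  obtain ⟨Bad, hB1, hB2⟩ := hX1 X hXX1 h s hh1 hh2 hs
  have hm := hX2 X hXX2 h s hh hh2 hs
  have hE' : ∑ i ∈ Gs X h s, (fb X h s i) ^ 2 ≤ K2 * ((X : ℝ) / h) := by
    refine hE.trans (le_of_eq ?_)
    have : Real.log X ≠ 0 := by linarith
    field_simp
  have hc3 := cnt X h s (by omega) hh Bad δ (c + c' + δ) K2 hK2 (by linarith) hm hB1 hE'
  have e1 : 1 - δ - (c + c' + δ) = 1 - c - c' - 2 * δ := by ring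
  rw [e1] at hc3
  refine hc3.trans ?_
  have : (Ioc X (2 * X)).filter (fun n => idx h s n ∉ Bad) ⊆
      (Ioc X (2 * X)).filter (fun n => RichH (K * h) c c' n) := by
    intro n hn
    rw [mem_filter, mem_Ioc] at hn ⊢
    exact ⟨hn.1, hB2 n hn.1.1 hn.1.2 hn.2⟩
  exact_mod_cast card_le_card this

end Pool.Agent.H67.RG
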