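import Pool.Agent.H67.RG.Mart

/-!
# Module Coarse: averages of a difference coarser than the interval

PROOF. (1) JENSEN. For `i ∈ Rt m` and `J = Ico (u i) (w i)`, `N = w i - u i ≥ 2^k`: `Av g J - g i = (1/N) ∑_{y ∈ J} (g y - g i)`, so
`(Av g J - g i)² ≤ (1/N) ∑_{y ∈ J} (g y - g i)² ≤ 2^(-k) ∑_{s ∈ Icc (-D 2^k) (D 2^k)} (g (i+s) - g i)²` (`J ⊆ [i - D 2^k, i + D 2^k]`).
(2) SHIFT. For every `s : ℤ`: `∑_{i ∈ Rt m} (g (i+s) - g i)² ≤ 4 |s| 2^(-j) ∑_{i ∈ Rt m} (g i)²`. Terms with `(i+s)/2^j = i/2^j` vanish (`hconst`). For the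
others `(g (i+s) - g i)² ≤ 2 (g (i+s))² + 2 (g i)²`. In each interval `Q` of level `j` at most `|s|` elements `i` have `i + s ∉ Q`
(for `s ≥ 0` the last `s` ones, for `s < 0` the first `|s|` ones) and `g` is constant on `Q`, so
`∑_{i ∈ Rt m, i+s ∉ Q(i)} (g i)² ≤ ∑_Q |s| g_Q² = |s| 2^(-j) ∑_{Rt m} g²` (`blocks`, `2^j g_Q² = ∑_{i ∈ Q} (g i)²`); the other sum is the same with
`i' = i + s` and `-s` in place of `s` (`g i' = 0` if `i' ∉ Rt m`).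
(3) SUM over the `2 D 2^k + 1 ≤ (2D+1) 2^k` values of `s`, `|s| ≤ D 2^k`: `2^(-k) · (2D+1) 2^k · 4 D 2^k 2^(-j) ∑ g² = 4 D (2D+1) (2^k/2^j) ∑ g²`.
-/

set_option autoImplicit false

namespace Pool.Agent.H67.RG

open Finset

private theorem coarse_blk (k : ℕ) (q y : ℤ) : y ∈ Ico (2 ^ k * q) (2 ^ k * q + 2 ^ k) ↔ y / 2 ^ k = q := by
  have hp : (0 : ℤ) < 2 ^ k := by positivity
  rw [mem_Ico]
  constructor
  · rintro ⟨h1, h2⟩
    apply le_antisymm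
    · have h3 : y / 2 ^ k < q + 1 := by
        rw [Int.ediv_lt_iff_lt_mul hp]
        linarith
      omega
    · rw [Int.le_ediv_iff_mul_le hp]
      linarith
  · intro h
    have h1 := Int.mul_ediv_add_emod y (2 ^ k)
    have h2 := Int.emod_nonneg y hp.ne'
    have h3 := Int.emod_lt_of_pos y hp
    rw [h] at h1
    constructor <;> linarith

private theorem coarse_cnt (g : ℤ → ℝ) (m j : ℕ) (hjm : j ≤ m)
    (hconst : ∀ i i' : ℤ, i / 2 ^ j = i' / 2 ^ j → g i = g i') (s : ℤ) :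
    ∑ i ∈ Rt m, (if (i + s) / 2 ^ j ≠ i / 2 ^ j then (g i) ^ 2 else 0) ≤
      (|s| : ℤ) / 2 ^ j * ∑ i ∈ Rt m, (g i) ^ 2 := by
  have hp : (0 : ℤ) < 2 ^ j := by positivity
  have hpR : (0 : ℝ) < 2 ^ j := by positivity
  rw [blocks _ m j hjm, blocks _ m j hjm, mul_sum]
  refine sum_le_sum fun q _ => ?_
  obtain ⟨Q, hQ⟩ : ∃ Q, Q = Ico (2 ^ j * q) (2 ^ j * q + 2 ^ j) := ⟨_, rfl⟩
  have hmem : ∀ i, i ∈ Q ↔ i / 2 ^ j = q := fun i => by
    rw [hQ]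
    exact coarse_blk j q i
  rw [← hQ]
  obtain ⟨i0, hi0⟩ : ∃ i0 : ℤ, i0 = 2 ^ j * q := ⟨_, rfl⟩
  have hi0q : i0 / 2 ^ j = q := by
    rw [hi0]
    exact Int.mul_ediv_cancel_left q hp.ne'
  have h1 : ∀ i ∈ Q, g i = g i0 := fun i hi => hconst i i0 (by rw [(hmem i).1 hi, hi0q])
  have hcard : (Q.card : ℝ) = 2 ^ j := by
    rw [hQ, Int.card_Ico]
    have : (2 ^ j * q + 2 ^ j - 2 ^ j * q : ℤ) = ((2 ^ j : ℕ) : ℤ) := by
      push_cast
      ring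
    rw [this, Int.toNat_natCast]
    push_cast
    ring
  have h2 : ∑ i ∈ Q, (g i) ^ 2 = 2 ^ j * (g i0) ^ 2 := by
    rw [sum_congr rfl fun i hi => by rw [h1 i hi], sum_const, nsmul_eq_mul, hcard]
  have h3 : ∑ i ∈ Q, (if (i + s) / 2 ^ j ≠ i / 2 ^ j then (g i) ^ 2 else 0) =
      ((Q.filter (fun i => (i + s) / 2 ^ j ≠ i / 2 ^ j)).card : ℝ) * (g i0) ^ 2 := by
    rw [← sum_filter]
    rw [sum_congr rfl fun i hi => by rw [h1 i (mem_filter.1 hi).1], sum_const, nsmul_eq_mul]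
  rw [h2, h3]
  have h4 : (Q.filter (fun i => (i + s) / 2 ^ j ≠ i / 2 ^ j)).card ≤ s.natAbs := by
    rcases le_or_gt 0 s with hs | hs
    · have h5 : Q.filter (fun i => (i + s) / 2 ^ j ≠ i / 2 ^ j) ⊆
          Ico (2 ^ j * q + 2 ^ j - s) (2 ^ j * q + 2 ^ j) := by
        intro i hi
        rw [mem_filter] at hi
        obtain ⟨hi1, hi2⟩ := hi
        have hi3 := hi1
        rw [hQ, mem_Ico] at hi3
        rw [(hmem i).1 hi1, Ne, ← coarse_blk, mem_Ico] at hi2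
        rw [mem_Ico]
        refine ⟨?_, hi3.2⟩
        by_contra hc
        push Not at hc
        exact hi2 ⟨by linarith [hi3.1], by linarith⟩
      have h6 := card_le_card h5
      rw [Int.card_Ico] at h6
      omega
    · have h5 : Q.filter (fun i => (i + s) / 2 ^ j ≠ i / 2 ^ j) ⊆
          Ico (2 ^ j * q) (2 ^ j * q - s) := by
        intro i hi
        rw [mem_filter] at hi
        obtain ⟨hi1, hi2⟩ := hi
        have hi3 := hi1
        rw [hQ, mem_Ico] at hi3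
        rw [(hmem i).1 hi1, Ne, ← coarse_blk, mem_Ico] at hi2
        rw [mem_Ico]
        refine ⟨hi3.1, ?_⟩
        by_contra hc
        push Not at hc
        exact hi2 ⟨by linarith, by linarith [hi3.2]⟩
      have h6 := card_le_card h5
      rw [Int.card_Ico] at h6
      omega
  have h5 : ((Q.filter (fun i => (i + s) / 2 ^ j ≠ i / 2 ^ j)).card : ℝ) ≤ ((|s| : ℤ) : ℝ) := by
    rw [Int.abs_eq_natAbs]
    exact_mod_cast h4
  rw [div_mul_eq_mul_div, mul_comm (2 ^ j) (g i0 ^ 2), ← mul_assoc, mul_div_assoc, div_self hpR.ne', mul_one]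
  exact mul_le_mul_of_nonneg_right h5 (sq_nonneg _)

private theorem coarse_shift (g : ℤ → ℝ) (m j : ℕ) (hjm : j ≤ m) (hg : Supp g m)
    (hconst : ∀ i i' : ℤ, i / 2 ^ j = i' / 2 ^ j → g i = g i') (s : ℤ) :
    ∑ i ∈ Rt m, (g (i + s) - g i) ^ 2 ≤ 4 * ((|s| : ℤ) : ℝ) / 2 ^ j * ∑ i ∈ Rt m, (g i) ^ 2 := by
  have h1 : ∀ i ∈ Rt m, (g (i + s) - g i) ^ 2 ≤
      2 * (if (i + s) / 2 ^ j ≠ i / 2 ^ j then (g i) ^ 2 else 0) +
      2 * (if (i + s) / 2 ^ j ≠ i / 2 ^ j then (g (i + s)) ^ 2 else 0) := by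
    intro i _
    by_cases h : (i + s) / 2 ^ j = i / 2 ^ j
    · rw [if_neg (not_not.2 h), if_neg (not_not.2 h), hconst _ _ h, sub_self]
      norm_num
    · rw [if_pos h, if_pos h]
      nlinarith [sq_nonneg (g (i + s) + g i)]
  refine (sum_le_sum h1).trans ?_
  rw [sum_add_distrib, ← mul_sum, ← mul_sum]
  have h2 := coarse_cnt g m j hjm hconst s
  have h3 := coarse_cnt g m j hjm hconst (-s)
  have h4 : ∑ i ∈ Rt m, (if (i + s) / 2 ^ j ≠ i / 2 ^ j then (g (i + s)) ^ 2 else 0) ≤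
      ∑ i ∈ Rt m, (if (i + -s) / 2 ^ j ≠ i / 2 ^ j then (g i) ^ 2 else 0) := by
    have h5 : ∑ i ∈ Rt m, (if (i + s) / 2 ^ j ≠ i / 2 ^ j then (g (i + s)) ^ 2 else 0) =
        ∑ i ∈ (Rt m).image (fun i => i + s), (if (i + -s) / 2 ^ j ≠ i / 2 ^ j then (g i) ^ 2 else 0) := by
      rw [sum_image (fun a _ b _ hab => by simpa using hab)]
      refine sum_congr rfl fun i _ => ?_
      rw [add_neg_cancel_right]
      by_cases h : (i + s) / 2 ^ j = i / 2 ^ j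
      · rw [if_neg (not_not.2 h), if_neg (not_not.2 h.symm)]
      · rw [if_pos h, if_pos (Ne.symm h)]
    rw [h5, ← sum_filter_add_sum_filter_not ((Rt m).image (fun i => i + s)) (fun i => i ∈ Rt m)]
    have h6 : ∑ i ∈ ((Rt m).image (fun i => i + s)).filter (fun i => ¬ i ∈ Rt m),
        (if (i + -s) / 2 ^ j ≠ i / 2 ^ j then (g i) ^ 2 else 0) = 0 := by
      apply sum_eq_zero
      intro i hi
      rw [mem_filter] at hi
      rw [hg i hi.2]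
      simp
    rw [h6, add_zero]
    apply sum_le_sum_of_subset_of_nonneg
    · intro i hi
      exact (mem_filter.1 hi).2
    · intro i _ _
      split_ifs
      · exact sq_nonneg _
      · exact le_rfl
  rw [abs_neg] at h3
  have h7 : 4 * ((|s| : ℤ) : ℝ) / 2 ^ j * ∑ i ∈ Rt m, (g i) ^ 2 =
      4 * (((|s| : ℤ) : ℝ) / 2 ^ j * ∑ i ∈ Rt m, (g i) ^ 2) := by ring
  rw [h7]
  linarith

private theorem coarse_jen (g : ℤ → ℝ) (k D : ℕ) (i u w : ℤ) (h : Nr D k i u w) :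
    (Av g u w - g i) ^ 2 ≤ 1 / 2 ^ k * ∑ s ∈ Icc (-(D * 2 ^ k : ℤ)) (D * 2 ^ k), (g (i + s) - g i) ^ 2 := by
  obtain ⟨h1, h2, h3⟩ := h
  have hk0 : (0 : ℝ) < 2 ^ k := by positivity
  have hk0Z : (0 : ℤ) < 2 ^ k := by positivity
  have hN : (2 : ℝ) ^ k ≤ (w : ℝ) - u := by exact_mod_cast h1
  have hN0 : (0 : ℝ) < (w : ℝ) - u := by linarith
  have huw : u ≤ w := by linarith
  have hcard : ((Ico u w).card : ℝ) = (w : ℝ) - u := by
    rw [Int.card_Ico]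
    have : (((w - u).toNat : ℤ) : ℝ) = ((w - u : ℤ) : ℝ) := by
      rw [Int.toNat_of_nonneg (by linarith)]
    rw [Int.cast_natCast] at this
    rw [this]
    push_cast
    ring
  have h4 : Av g u w - g i = (∑ y ∈ Ico u w, (g y - g i)) / ((w : ℝ) - u) := by
    unfold Av
    rw [sum_sub_distrib, sum_const, nsmul_eq_mul, hcard]
    field_simp
  have h5 : (∑ y ∈ Ico u w, (g y - g i)) ^ 2 ≤ ((w : ℝ) - u) * ∑ y ∈ Ico u w, (g y - g i) ^ 2 := by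
    rw [← hcard]
    exact sq_sum_le_card_mul_sum_sq
  have h6 : ∑ y ∈ Ico u w, (g y - g i) ^ 2 ≤ ∑ s ∈ Icc (-(D * 2 ^ k : ℤ)) (D * 2 ^ k), (g (i + s) - g i) ^ 2 := by
    have h7 : ∑ s ∈ Icc (-(D * 2 ^ k : ℤ)) (D * 2 ^ k), (g (i + s) - g i) ^ 2 =
        ∑ y ∈ (Icc (-(D * 2 ^ k : ℤ)) (D * 2 ^ k)).image (fun s => i + s), (g y - g i) ^ 2 := by
      rw [sum_image (fun a _ b _ hab => by simpa using hab)]
    rw [h7]
    apply sum_le_sum_of_subset_of_nonneg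
    · intro y hy
      rw [mem_Ico] at hy
      rw [mem_image]
      refine ⟨y - i, ?_, by ring⟩
      rw [mem_Icc]
      have h8 := abs_le.1 h2
      have h9 := abs_le.1 h3
      constructor <;> linarith [h8.1, h9.2, hy.1, hy.2]
    · exact fun _ _ _ => sq_nonneg _
  have h7 : (0 : ℝ) ≤ ∑ y ∈ Ico u w, (g y - g i) ^ 2 := sum_nonneg fun _ _ => sq_nonneg _
  rw [h4, div_pow]
  calc (∑ y ∈ Ico u w, (g y - g i)) ^ 2 / ((w : ℝ) - u) ^ 2
      ≤ (((w : ℝ) - u) * ∑ y ∈ Ico u w, (g y - g i) ^ 2) / ((w : ℝ) - u) ^ 2 :=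
        div_le_div_of_nonneg_right h5 (by positivity)
    _ = (∑ y ∈ Ico u w, (g y - g i) ^ 2) / ((w : ℝ) - u) := by
        field_simp
    _ ≤ (∑ y ∈ Ico u w, (g y - g i) ^ 2) / 2 ^ k := div_le_div_of_nonneg_left h7 hk0 hN
    _ ≤ (∑ s ∈ Icc (-(D * 2 ^ k : ℤ)) (D * 2 ^ k), (g (i + s) - g i) ^ 2) / 2 ^ k :=
        div_le_div_of_nonneg_right h6 hk0.le
    _ = _ := by ring

theorem coarse (g : ℤ → ℝ) (m j k D : ℕ) (hjm : j ≤ m) (hg : Supp g m)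
    (hconst : ∀ i i' : ℤ, i / 2 ^ j = i' / 2 ^ j → g i = g i') (u w : ℤ → ℤ)
    (h : ∀ i ∈ Rt m, Nr D k i (u i) (w i)) :
    ∑ i ∈ Rt m, (Av g (u i) (w i) - g i) ^ 2 ≤
      4 * (D : ℝ) * (2 * D + 1) * (2 ^ k / 2 ^ j) * ∑ i ∈ Rt m, (g i) ^ 2 := by
  have hk0 : (0 : ℝ) < 2 ^ k := by positivity
  have hj0 : (0 : ℝ) < 2 ^ j := by positivity
  have hG : (0 : ℝ) ≤ ∑ i ∈ Rt m, (g i) ^ 2 := sum_nonneg fun _ _ => sq_nonneg _
  refine (sum_le_sum fun i hi => coarse_jen g k D i (u i) (w i) (h i hi)).trans ?_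
  rw [← mul_sum, sum_comm]
  have h1 : ∀ s ∈ Icc (-(D * 2 ^ k : ℤ)) (D * 2 ^ k), ∑ i ∈ Rt m, (g (i + s) - g i) ^ 2 ≤
      4 * ((D : ℝ) * 2 ^ k) / 2 ^ j * ∑ i ∈ Rt m, (g i) ^ 2 := by
    intro s hs
    rw [mem_Icc] at hs
    refine (coarse_shift g m j hjm hg hconst s).trans ?_
    refine mul_le_mul_of_nonneg_right ?_ hG
    refine div_le_div_of_nonneg_right ?_ hj0.le
    refine mul_le_mul_of_nonneg_left ?_ (by norm_num)
    have h2 : |s| ≤ (D : ℤ) * 2 ^ k := abs_le.2 ⟨hs.1, hs.2⟩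
    exact_mod_cast h2
  have h2 := sum_le_sum h1
  rw [sum_const, nsmul_eq_mul] at h2
  have h3 : ((Icc (-(D * 2 ^ k : ℤ)) (D * 2 ^ k)).card : ℝ) ≤ (2 * D + 1) * 2 ^ k := by
    rw [Int.card_Icc]
    have h4 : ((D * 2 ^ k : ℤ) + 1 - -(D * 2 ^ k : ℤ)).toNat ≤ (2 * D + 1) * 2 ^ k := by
      rw [Int.toNat_le]
      have h5 : (1 : ℤ) ≤ 2 ^ k := one_le_pow₀ (by norm_num)
      push_cast
      nlinarith
    exact_mod_cast h4
  have h4 := h2.trans (mul_le_mul_of_nonneg_right h3 (by positivity))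
  have h5 := mul_le_mul_of_nonneg_left h4 (show (0 : ℝ) ≤ 1 / 2 ^ k by positivity)
  refine h5.trans (le_of_eq ?_)
  field_simp

end Pool.Agent.H67.RG
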