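import Pool.Agent.H67.RG.Dn

/-!
# Module Idx: the block of an integer

PROOFS. `idx_spec`: `q = (n-1-s)/h` has `q h ≤ n - 1 - s < (q+1) h`. `idx_one`: `s + (q+1) h ≥ n > X ≥ 2h` and `s < h` give `(q+1) h > h`; `s + q h < n ≤ 2X` gives
`s + (q+1) h < 2X + h ≤ 3X`.
`pr_bad`: group the primes by `i = idx h s p ∈ Bad`; those with index `i` lie in `Ioc (s + i h) (s + i h + h)`, so there are at most
`pc (s + i h) h = (h/log X) fb X h s i` of them (`idx_one`; if there is no such prime use `0 ≤ fb`).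
`int_bad`: at most `h` integers have a given index (and `0 ≤ idx`).
`idx_block`: if `i ≥ 0` and `s + i h < n ≤ s + (i+1) h` then `idx h s n = i`.
-/

set_option autoImplicit false

namespace Pool.Agent.H67.RG

open Finset Pool.Agent.H5.Short

theorem idx_spec (h s n : ℕ) (hh : 1 ≤ h) (hn : s < n) : 0 ≤ idx h s n ∧
    s + (idx h s n).toNat * h < n ∧ n ≤ s + ((idx h s n).toNat + 1) * h := by
  unfold idx
  rw [Int.toNat_natCast]
  have h1 := Nat.div_mul_le_self (n - 1 - s) h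
  have h2 := Nat.lt_div_mul_add (a := n - 1 - s) (b := h) (by omega)
  refine ⟨Int.natCast_nonneg _, by omega, ?_⟩
  rw [add_mul, one_mul]
  omega

theorem idx_one (X h s n : ℕ) (hh : 1 ≤ h) (hs : s < h) (hX : 2 * h ≤ X) (hn : X < n) (hn2 : n ≤ 2 * X) :
    1 ≤ idx h s n ∧ s + ((idx h s n).toNat + 1) * h ≤ 3 * X := by
  obtain ⟨h1, h2, h3⟩ := idx_spec h s n hh (by omega)
  obtain ⟨q, hq⟩ := Int.eq_ofNat_of_zero_le h1
  rw [hq, Int.toNat_natCast] at h2 h3
  rw [hq, Int.toNat_natCast]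
  rw [add_mul, one_mul] at h3 ⊢
  refine ⟨?_, by omega⟩
  rcases Nat.eq_zero_or_pos q with h0 | h0
  · rw [h0] at h3
    omega
  · exact_mod_cast h0

theorem idx_block (h s n : ℕ) (i : ℕ) (hh : 1 ≤ h) (h1 : s + i * h < n) (h2 : n ≤ s + (i + 1) * h) :
    idx h s n = i := by
  unfold idx
  have h3 : (n - 1 - s) / h = i := by
    apply Nat.div_eq_of_lt_le
    · omega
    · omega
  rw [h3]

open Classical in
theorem pr_bad (X h s : ℕ) (hX2 : 2 ≤ X) (hh : 1 ≤ h) (hs : s < h) (hX : 2 * h ≤ X) (Bad : Finset ℤ) :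
    (((Ioc X (2 * X)).filter (fun p => p.Prime ∧ idx h s p ∈ Bad)).card : ℝ) ≤
      (h : ℝ) / Real.log X * ∑ i ∈ Bad, fb X h s i := by
  have hXR : (2 : ℝ) ≤ X := by exact_mod_cast hX2
  have hlog : 0 < Real.log X := Real.log_pos (by linarith)
  have hhR : (0 : ℝ) < h := by exact_mod_cast hh
  have hfib : ((Ioc X (2 * X)).filter (fun p => p.Prime ∧ idx h s p ∈ Bad)).card =
      ∑ i ∈ Bad, (((Ioc X (2 * X)).filter (fun p => p.Prime ∧ idx h s p ∈ Bad)).filter (fun p => idx h s p = i)).card :=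
    card_eq_sum_card_fiberwise (fun p hp => (mem_filter.1 hp).2.2)
  rw [hfib, mul_sum]
  push_cast
  refine sum_le_sum fun i _ => ?_
  rcases (((Ioc X (2 * X)).filter (fun p => p.Prime ∧ idx h s p ∈ Bad)).filter (fun p => idx h s p = i)).eq_empty_or_nonempty with he | ⟨p0, hp0⟩
  · rw [he, card_empty, Nat.cast_zero]
    have h1 : 0 ≤ fb X h s i := by
      unfold fb
      split_ifs
      · positivity
      · exact le_rfl
    positivity
  · have hp1 := mem_filter.1 hp0
    have hp2 := mem_Ioc.1 (mem_filter.1 hp1.1).1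
    obtain ⟨h1, h2⟩ := idx_one X h s p0 hh hs hX hp2.1 hp2.2
    rw [hp1.2] at h1 h2
    have h3 : (h : ℝ) / Real.log X * fb X h s i = (pc (s + i.toNat * h) h : ℝ) := by
      unfold fb
      rw [if_pos ⟨h1, h2⟩]
      field_simp
    rw [h3]
    unfold pc
    norm_cast
    apply card_le_card
    intro p hp
    have hp3 := mem_filter.1 hp
    have hp4 := mem_filter.1 hp3.1
    have hp5 := mem_Ioc.1 hp4.1
    obtain ⟨-, h4, h5⟩ := idx_spec h s p hh (by omega)
    rw [hp3.2] at h4 h5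
    rw [add_mul, one_mul] at h5
    rw [mem_filter, mem_Ioc]
    exact ⟨⟨h4, by omega⟩, hp4.2.1⟩

open Classical in
theorem int_bad (X h s : ℕ) (hh : 1 ≤ h) (hs : s < h) (hX : 2 * h ≤ X) (Bad : Finset ℤ) :
    (((Ioc X (2 * X)).filter (fun n => idx h s n ∈ Bad)).card : ℝ) ≤ (h : ℝ) * Bad.card := by
  have hfib : ((Ioc X (2 * X)).filter (fun n => idx h s n ∈ Bad)).card =
      ∑ i ∈ Bad, (((Ioc X (2 * X)).filter (fun n => idx h s n ∈ Bad)).filter (fun n => idx h s n = i)).card :=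
    card_eq_sum_card_fiberwise (fun p hp => (mem_filter.1 hp).2)
  have h1 : ∑ i ∈ Bad, (((Ioc X (2 * X)).filter (fun n => idx h s n ∈ Bad)).filter (fun n => idx h s n = i)).card ≤
      ∑ i ∈ Bad, h := by
    refine sum_le_sum fun i _ => ?_
    have h2 : ((Ioc X (2 * X)).filter (fun n => idx h s n ∈ Bad)).filter (fun n => idx h s n = i) ⊆
        Ioc (s + i.toNat * h) (s + i.toNat * h + h) := by
      intro n hn
      have hn1 := mem_filter.1 hn
      have hn2 := mem_Ioc.1 (mem_filter.1 hn1.1).1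
      obtain ⟨-, h4, h5⟩ := idx_spec h s n hh (by omega)
      rw [hn1.2] at h4 h5
      rw [add_mul, one_mul] at h5
      rw [mem_Ioc]
      exact ⟨h4, by omega⟩
    refine (card_le_card h2).trans ?_
    rw [Nat.card_Ioc]
    omega
  rw [sum_const, smul_eq_mul] at h1
  rw [← hfib] at h1
  have h2 : (((Ioc X (2 * X)).filter (fun n => idx h s n ∈ Bad)).card : ℝ) ≤ ((Bad.card * h : ℕ) : ℝ) := by
    exact_mod_cast h1
  rw [Nat.cast_mul, mul_comm (Bad.card : ℝ)] at h2
  exact h2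

end Pool.Agent.H67.RG
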