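import Pool.Agent.H67.RG.Mart

/-!
# Module Diff: the differences

PROOFS. `Dj_supp`: `Ek_out` (for `j < m` both `j, j+1 ≤ m`). `Dj_const`: `Ek_const`, and `i/2^j = i'/2^j` implies `i/2^(j+1) = i'/2^(j+1)`
(`Int.ediv_ediv_eq_ediv_mul` or similar; `i / 2^(j+1) = (i / 2^j) / 2`).
`Dj_mean`: `Iv (j+1) i` is the union of two level `j` intervals `Q1, Q2`; `∑_{Q1 ∪ Q2} Ek f j = ∑_{Q1} f + ∑_{Q2} f = ∑_{Iv (j+1) i} f` and
`∑_{Iv (j+1) i} Ek f (j+1) = ∑_{Iv (j+1) i} f`. (A general lemma: `∑_{y ∈ Iv k i} Ek f j y = ∑_{y ∈ Iv k i} f y` for `j ≤ k`.)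
`Ek_sum`: telescoping, downward induction on `k` (`Finset.sum_Icc` / induction on `m - k`; `Dj f m m = Ek f m`).
`Dj_norm`: `orth` for `f` at level `j` with `v = Ek f (j+1)`: `∑ (f - E_(j+1))² = ∑ (f - E_j)² + ∑ (Dj)²` for `j < m`; `E_0 = f`; so
`∑_{j<m} ∑ Dj² = ∑ (f - E_m)²`; `orth` at level `m` with `v = 0`: `∑ f² = ∑ (f - E_m)² + ∑ E_m²`.
-/

set_option autoImplicit false

namespace Pool.Agent.H67.RG

open Finset

private theorem diff_half (j : ℕ) (i i' : ℤ) (h : i / 2 ^ j = i' / 2 ^ j) :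
    i / 2 ^ (j + 1) = i' / 2 ^ (j + 1) := by
  have hp : (0 : ℤ) ≤ 2 ^ j := by positivity
  rw [pow_succ, ← Int.ediv_ediv_of_nonneg hp, ← Int.ediv_ediv_of_nonneg hp, h]

private theorem diff_blk (f : ℤ → ℝ) (j : ℕ) (r : ℤ) :
    ∑ y ∈ Ico (2 ^ j * r) (2 ^ j * r + 2 ^ j), Ek f j y = ∑ y ∈ Ico (2 ^ j * r) (2 ^ j * r + 2 ^ j), f y := by
  have hp : (0 : ℤ) < 2 ^ j := by positivity
  have hI : Iv j (2 ^ j * r) = Ico (2 ^ j * r) (2 ^ j * r + 2 ^ j) := by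
    unfold Iv
    rw [Int.mul_ediv_cancel_left r hp.ne']
  rw [← hI]
  have h1 : ∀ y ∈ Iv j (2 ^ j * r), Ek f j y = Ek f j (2 ^ j * r) := fun y hy =>
    Ek_const f j _ _ ((mem_Iv j _ y).1 hy)
  rw [sum_congr rfl h1, sum_const, nsmul_eq_mul]
  have hcard : ((Iv j (2 ^ j * r)).card : ℝ) = 2 ^ j := by
    rw [hI, Int.card_Ico]
    have : (2 ^ j * r + 2 ^ j - 2 ^ j * r : ℤ) = ((2 ^ j : ℕ) : ℤ) := by
      push_cast
      ring
    rw [this, Int.toNat_natCast]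
    push_cast
    ring
  rw [hcard]
  unfold Ek
  field_simp

private theorem diff_sum (f : ℤ → ℝ) (j : ℕ) (i : ℤ) :
    ∑ y ∈ Iv (j + 1) i, Ek f j y = ∑ y ∈ Iv (j + 1) i, f y := by
  have hp : (0 : ℤ) < 2 ^ j := by positivity
  have h1 : (2 : ℤ) ^ (j + 1) * (i / 2 ^ (j + 1)) = 2 ^ j * (2 * (i / 2 ^ (j + 1))) := by ring
  have h2 : (2 : ℤ) ^ (j + 1) * (i / 2 ^ (j + 1)) + 2 ^ (j + 1) =
      2 ^ j * (2 * (i / 2 ^ (j + 1)) + 1) + 2 ^ j := by ring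
  have h3 : (2 : ℤ) ^ j * (2 * (i / 2 ^ (j + 1))) + 2 ^ j = 2 ^ j * (2 * (i / 2 ^ (j + 1)) + 1) := by ring
  have hsplit : ∀ F : ℤ → ℝ, ∑ y ∈ Iv (j + 1) i, F y =
      ∑ y ∈ Ico (2 ^ j * (2 * (i / 2 ^ (j + 1)))) (2 ^ j * (2 * (i / 2 ^ (j + 1))) + 2 ^ j), F y +
      ∑ y ∈ Ico (2 ^ j * (2 * (i / 2 ^ (j + 1)) + 1)) (2 ^ j * (2 * (i / 2 ^ (j + 1)) + 1) + 2 ^ j), F y := by
    intro F
    unfold Iv
    rw [h2, h1, h3, ← sum_union (Ico_disjoint_Ico_consecutive _ _ _), Ico_union_Ico_eq_Ico]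
    · linarith
    · linarith
  rw [hsplit, hsplit, diff_blk, diff_blk]

theorem Dj_supp (f : ℤ → ℝ) (m j : ℕ) (hf : Supp f m) (hj : j ≤ m) : Supp (Dj f m j) m := by
  intro i hi
  unfold Dj
  split_ifs with h
  · rw [Ek_out f m j hf hj i hi, Ek_out f m (j + 1) hf h i hi, sub_self]
  · exact Ek_out f m j hf hj i hi

theorem Dj_const (f : ℤ → ℝ) (m j : ℕ) (i i' : ℤ) (h : i / 2 ^ j = i' / 2 ^ j) :
    Dj f m j i = Dj f m j i' := by
  unfold Dj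
  rw [Ek_const f j i i' h, Ek_const f (j + 1) i i' (diff_half j i i' h)]

theorem Dj_mean (f : ℤ → ℝ) (m j : ℕ) (hj : j < m) (i : ℤ) : ∑ y ∈ Iv (j + 1) i, Dj f m j y = 0 := by
  have h1 : ∀ y ∈ Iv (j + 1) i, Dj f m j y = Ek f j y - Ek f (j + 1) y := fun y _ => by
    unfold Dj
    rw [if_pos hj]
  rw [sum_congr rfl h1, sum_sub_distrib, diff_sum]
  have h2 := diff_blk f (j + 1) (i / 2 ^ (j + 1))
  unfold Iv
  rw [h2, sub_self]

theorem Ek_sum (f : ℤ → ℝ) (m k : ℕ) (hk : k ≤ m) (i : ℤ) : Ek f k i = ∑ j ∈ Icc k m, Dj f m j i := by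
  obtain ⟨n, hn⟩ : ∃ n, k + n = m := ⟨m - k, by omega⟩
  induction n generalizing k with
  | zero =>
    have hkm : k = m := by omega
    subst hkm
    rw [Icc_self, sum_singleton]
    unfold Dj
    rw [if_neg (lt_irrefl _)]
  | succ n ih =>
    have hlt : k < m := by omega
    have h1 : Icc k m = insert k (Icc (k + 1) m) := by
      ext x
      simp only [mem_Icc, mem_insert]
      omega
    rw [h1, sum_insert (by simp), ← ih (k + 1) hlt (by omega)]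
    unfold Dj
    rw [if_pos hlt]
    ring

theorem Dj_norm (f : ℤ → ℝ) (m : ℕ) :
    ∑ j ∈ range (m + 1), ∑ i ∈ Rt m, (Dj f m j i) ^ 2 = ∑ i ∈ Rt m, (f i) ^ 2 := by
  have h1 : ∀ n ≤ m, ∑ j ∈ range n, ∑ i ∈ Rt m, (Dj f m j i) ^ 2 = ∑ i ∈ Rt m, (f i - Ek f n i) ^ 2 := by
    intro n
    induction n with
    | zero =>
      intro _
      rw [range_zero, sum_empty]
      symm
      apply sum_eq_zero
      intro i _
      rw [Ek_zero, sub_self]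
      norm_num
    | succ n ih =>
      intro hn
      rw [sum_range_succ, ih (by omega),
        orth f (Ek f (n + 1)) m n (by omega) (fun i i' h => Ek_const f (n + 1) i i' (diff_half n i i' h))]
      congr 1
      refine sum_congr rfl fun i _ => ?_
      unfold Dj
      rw [if_pos (by omega : n < m)]
  rw [sum_range_succ, h1 m le_rfl]
  have h2 := orth f (fun _ => 0) m m le_rfl (fun _ _ _ => rfl)
  simp only [sub_zero] at h2
  rw [h2]
  congr 1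
  refine sum_congr rfl fun i _ => ?_
  unfold Dj
  rw [if_neg (lt_irrefl _)]

end Pool.Agent.H67.RG
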