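import Pool.Agent.H67.RG.Idx
import Pool.Agent.H67.RG.Blk

/-!
# Module Pnt: long intervals, and the mass of the blocks

PROOF of `long`. `theta_unif` (H5/Short/Cover): `|θ(y) - y| ≤ δ y` for large integers `y`. `L = ⌊H⌋₊`. Right: `pr n (n+H) = pc n L`, and
`pc n L · log (n + L) ≥ θ(n+L) - θ(n) ≥ L - δ(2n + L) ≥ H - 1 - 6 δ X` (`n ≤ 2X`, `L ≤ n`), `log (n+L) ≤ log (2n) ≤ (1 + τ) log n`, so `pc n L ≥ c H/log n` if `δ, τ` are
small in terms of `1 - c` and `ε` (`H ≥ ε X`). Left: `pr (n-H) n = #primes in (⌊n-H⌋₊, n]`, `≥ (θ(n) - θ(⌊n-H⌋₊))/log n`, and `θ(y) ≤ y + δ' X` for ALL `0 ≤ y ≤ 2X`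
when `X` is large (for `y ≤ √X` use `θ(y) ≤ y log 4` or `θ y ≤ θ √X`), so `≥ (H - (δ + δ') 4 X)/log n ≥ c H/log n`. (`pnt_unif` in H5/Short/Bad.lean may help for the
right part; there `c` can be negative: then `0 ≤ pr` suffices; assume `0 ≤ c`.)
PROOF of `mass`. Every prime `p` with `X + h < p ≤ 2X - h` lies in a block `i = idx h s p` with `X ≤ s + i h`, `s + (i+1) h ≤ 2X`, so in `Gs`; on `Gs` (for `2h ≤ X`)
`fb = (log X/h) pc`. So `∑_{Gs} fb ≥ (log X/h) (π(2X-h) - π(X+h)) ≥ (log X/h)(pc X X - 2h)` and `pc X X ≥ (1 - δ/2) X/log X` by the prime number theorem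
(`long` with `n = X + 1`, or `theta_unif`), `2 log X ≤ (δ/2) X/h` as `h ≤ √X`.
-/

set_option autoImplicit false

namespace Pool.Agent.H67.RG

open Finset Pool.Agent.H5.Short

private theorem pt_right (c ε : ℝ) (hc0 : 0 ≤ c) (hc : c < 1) (hε : 0 < ε) : ∃ X0 : ℕ, ∀ X : ℕ, X0 ≤ X →
    ∀ n : ℕ, X < n → n ≤ 2 * X → ∀ H : ℝ, ε * X ≤ H → H ≤ n →
    c * (H / Real.log n) ≤ pr n (n + H) := by
  obtain ⟨X1, hX1⟩ := pnt_unif (ε / 4) ((1 - c) / 2) (by positivity) (by linarith)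
  refine ⟨max (max X1 2) (⌈2 / ε⌉₊ + ⌈2 / ((1 - c) * ε)⌉₊), fun X hX n hn hn2 H hH hHn => ?_⟩
  have hXX1 : X1 ≤ X := (le_max_left _ _).trans ((le_max_left _ _).trans hX)
  have hX2 : 2 ≤ X := (le_max_right _ _).trans ((le_max_left _ _).trans hX)
  have hXb : ⌈2 / ε⌉₊ + ⌈2 / ((1 - c) * ε)⌉₊ ≤ X := (le_max_right _ _).trans hX
  have hX2r : (2 : ℝ) ≤ X := by exact_mod_cast hX2
  have h1c : 0 < 1 - c := by linarith
  have ha : 2 / ε ≤ X := (Nat.le_ceil _).trans (by exact_mod_cast (le_trans (Nat.le_add_right _ _) hXb))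
  have hb : 2 / ((1 - c) * ε) ≤ X :=
    (Nat.le_ceil _).trans (by exact_mod_cast (le_trans (Nat.le_add_left _ _) hXb))
  rw [div_le_iff₀ (by positivity)] at ha hb
  have hnr : (X : ℝ) < n := by exact_mod_cast hn
  have hn2r : (n : ℝ) ≤ 2 * X := by exact_mod_cast hn2
  have hln : 0 < Real.log n := Real.log_pos (by linarith)
  have hH0 : 0 ≤ H := le_trans (by positivity) hH
  obtain ⟨L, hL⟩ : ∃ L : ℕ, L = ⌊H⌋₊ := ⟨_, rfl⟩
  have hL1 : (L : ℝ) ≤ H := by rw [hL]; exact Nat.floor_le hH0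
  have hL2 : H < L + 1 := by rw [hL]; exact Nat.lt_floor_add_one _
  have hpr : pr n (n + H) = (pc n L : ℝ) := by
    unfold pr pc
    have e : ⌊(n : ℝ) + H⌋₊ = n + L := by
      rw [add_comm, Nat.floor_add_natCast hH0, hL, add_comm]
    rw [Nat.floor_natCast, e]
  have hη : ε / 4 * n ≤ L := by nlinarith
  have hL3 : L ≤ 3 * n := by
    have : (L : ℝ) ≤ 3 * n := by linarith
    exact_mod_cast this
  have h1 := (hX1 n L (by omega) hη hL3).1
  rw [hpr, ← mul_div_assoc, div_le_iff₀ hln]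
  have h2 : c * H ≤ (1 - (1 - c) / 2) * L := by
    have h3 : 2 ≤ (1 - c) * H := by
      calc (2 : ℝ) ≤ X * ((1 - c) * ε) := hb
        _ = (1 - c) * (ε * X) := by ring
        _ ≤ (1 - c) * H := mul_le_mul_of_nonneg_left hH h1c.le
    have h4 : (1 - (1 - c) / 2) * (H - 1) ≤ (1 - (1 - c) / 2) * L :=
      mul_le_mul_of_nonneg_left (by linarith) (by linarith)
    linarith
  linarith

private theorem pt_left (c ε : ℝ) (hc : c < 1) (hε : 0 < ε) : ∃ X0 : ℕ, ∀ X : ℕ, X0 ≤ X →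
    ∀ n : ℕ, X < n → n ≤ 2 * X → ∀ H : ℝ, ε * X ≤ H → H ≤ n →
    c * (H / Real.log n) ≤ pr (n - H) n := by
  have h1c : 0 < 1 - c := by linarith
  obtain ⟨δ, hδ⟩ : ∃ δ : ℝ, δ = min 1 ((1 - c) * ε / 8) := ⟨_, rfl⟩
  have hδ0 : 0 < δ := by
    rw [hδ]
    exact lt_min one_pos (by positivity)
  have hδ1 : δ ≤ 1 := by rw [hδ]; exact min_le_left _ _
  have hδ2 : δ ≤ (1 - c) * ε / 8 := by rw [hδ]; exact min_le_right _ _
  obtain ⟨X1, hX1⟩ := theta_unif δ hδ0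
  refine ⟨max (max X1 2) ⌈4 * X1 / ((1 - c) * ε)⌉₊, fun X hX n hn hn2 H hH hHn => ?_⟩
  have hXX1 : X1 ≤ X := (le_max_left _ _).trans ((le_max_left _ _).trans hX)
  have hX2 : 2 ≤ X := (le_max_right _ _).trans ((le_max_left _ _).trans hX)
  have hb : 4 * X1 / ((1 - c) * ε) ≤ X :=
    (Nat.le_ceil _).trans (by exact_mod_cast ((le_max_right _ _).trans hX))
  rw [div_le_iff₀ (by positivity)] at hb
  have hX2r : (2 : ℝ) ≤ X := by exact_mod_cast hX2
  have hnr : (X : ℝ) < n := by exact_mod_cast hn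
  have hn2r : (n : ℝ) ≤ 2 * X := by exact_mod_cast hn2
  have hln : 0 < Real.log n := Real.log_pos (by linarith)
  have hH0 : 0 ≤ H := le_trans (by positivity) hH
  obtain ⟨a, ha⟩ : ∃ a : ℕ, a = ⌊(n : ℝ) - H⌋₊ := ⟨_, rfl⟩
  have ha1 : (a : ℝ) ≤ n - H := by rw [ha]; exact Nat.floor_le (by linarith)
  have han : a ≤ n := by
    have : (a : ℝ) ≤ n := by linarith
    exact_mod_cast this
  have hpr : pr (n - H) n = (pc a (n - a) : ℝ) := by
    unfold pr pc
    rw [Nat.floor_natCast, ← ha, Nat.add_sub_cancel' han]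
  have h1 := le_pc_mul_log a (n - a)
  rw [Nat.add_sub_cancel' han] at h1
  have h2 := (abs_le.1 (hX1 n (by omega))).1
  have h3 : Chebyshev.theta (a : ℝ) ≤ a + δ * n + 2 * X1 := by
    have hX1r : (0 : ℝ) ≤ X1 := Nat.cast_nonneg _
    have har : (0 : ℝ) ≤ a := Nat.cast_nonneg _
    rcases le_or_gt X1 a with h4 | h4
    · have h5 := (abs_le.1 (hX1 a h4)).2
      have h6 : δ * a ≤ δ * n := mul_le_mul_of_nonneg_left (by exact_mod_cast han) hδ0.le
      linarith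
    · have h5 : Chebyshev.theta (a : ℝ) ≤ Chebyshev.theta (X1 : ℝ) :=
        Chebyshev.theta_mono (by exact_mod_cast h4.le)
      have h6 := (abs_le.1 (hX1 X1 le_rfl)).2
      have h7 : δ * X1 ≤ 1 * X1 := mul_le_mul_of_nonneg_right hδ1 hX1r
      have h8 : 0 ≤ δ * n := by positivity
      linarith
  rw [hpr, ← mul_div_assoc, div_le_iff₀ hln]
  have h4 : 2 * δ * n + 2 * X1 ≤ (1 - c) * H := by
    have h5 : 2 * δ * n ≤ (1 - c) * ε / 2 * X := by
      have : δ * n ≤ (1 - c) * ε / 8 * (2 * X) := mul_le_mul hδ2 hn2r (by positivity) (by positivity)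
      linarith
    have h6 : (1 - c) * (ε * X) ≤ (1 - c) * H := mul_le_mul_of_nonneg_left hH h1c.le
    linarith
  linarith

theorem long (c ε : ℝ) (hc0 : 0 ≤ c) (hc : c < 1) (hε : 0 < ε) : ∃ X0 : ℕ, ∀ X : ℕ, X0 ≤ X →
    ∀ n : ℕ, X < n → n ≤ 2 * X → ∀ H : ℝ, ε * X ≤ H → H ≤ n →
    c * (H / Real.log n) ≤ pr n (n + H) ∧ c * (H / Real.log n) ≤ pr (n - H) n := by
  obtain ⟨X1, h1⟩ := pt_right c ε hc0 hc hε
  obtain ⟨X2, h2⟩ := pt_left c ε hc hε
  exact ⟨max X1 X2, fun X hX n hn hn2 H hH hHn => ⟨h1 X ((le_max_left _ _).trans hX) n hn hn2 H hH hHn,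
    h2 X ((le_max_right _ _).trans hX) n hn hn2 H hH hHn⟩⟩

/-- `(log X)^2` is small compared with `X` -/
private theorem pt_log (Y : ℝ) (hY : 0 < Y) : ∃ X0 : ℕ, 3 ≤ X0 ∧ ∀ X : ℕ, X0 ≤ X →
    Y * Real.log X ^ 2 ≤ X := by
  have h0 : (fun x : ℝ => Real.log x ^ 2) =o[Filter.atTop] (fun x : ℝ => x) :=
    Real.isLittleO_pow_log_id_atTop (n := 2)
  have h1 := h0.bound (show (0 : ℝ) < 1 / Y by positivity)
  have h2 := (tendsto_natCast_atTop_atTop (R := ℝ)).eventually h1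
  obtain ⟨N, hN⟩ := Filter.eventually_atTop.1 h2
  refine ⟨max N 3, le_max_right _ _, fun X hX => ?_⟩
  have h3 := hN X ((le_max_left _ _).trans hX)
  have hX3 : 3 ≤ X := (le_max_right _ _).trans hX
  have hXr : (3 : ℝ) ≤ X := by exact_mod_cast hX3
  rw [Real.norm_of_nonneg (sq_nonneg _), Real.norm_of_nonneg (by linarith)] at h3
  calc Y * Real.log X ^ 2 ≤ Y * (1 / Y * X) := mul_le_mul_of_nonneg_left h3 hY.le
    _ = X := by field_simp

private theorem pt_Gs {X h s : ℕ} (hh : 1 ≤ h) (hs : s < h) (hX : 2 * h ≤ X) : ∃ u w : ℕ, 1 ≤ u ∧ u ≤ w ∧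
    X ≤ s + u * h ∧ s + u * h ≤ X + h ∧ s + w * h ≤ 2 * X ∧ 2 * X ≤ s + w * h + h ∧
    Gs X h s = Ico (u : ℤ) (w : ℤ) := by
  obtain ⟨u, hu⟩ : ∃ u : ℕ, u = (X - s + h - 1) / h := ⟨_, rfl⟩
  obtain ⟨w, hw⟩ : ∃ w : ℕ, w = (2 * X - s) / h := ⟨_, rfl⟩
  have hu1 : u * h ≤ X - s + h - 1 := by
    rw [hu]
    exact Nat.div_mul_le_self _ _
  have hu2 : X - s + h - 1 < (u + 1) * h := by
    rw [hu, mul_comm _ h]
    exact Nat.lt_mul_div_succ _ (by omega)
  have hw1 : w * h ≤ 2 * X - s := by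
    rw [hw]
    exact Nat.div_mul_le_self _ _
  have hw2 : 2 * X - s < (w + 1) * h := by
    rw [hw, mul_comm _ h]
    exact Nat.lt_mul_div_succ _ (by omega)
  have e1 : (u + 1) * h = u * h + h := by ring
  have e2 : (w + 1) * h = w * h + h := by ring
  have a1 : X ≤ s + u * h := by omega
  have a2 : s + u * h ≤ X + h := by omega
  have a3 : s + w * h ≤ 2 * X := by omega
  have a4 : 2 * X ≤ s + w * h + h := by omega
  have hu0 : 1 ≤ u := by
    rcases Nat.eq_zero_or_pos u with h0 | h0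
    · rw [h0, zero_mul] at a1
      omega
    · exact h0
  have huw : u ≤ w := by
    by_contra hcon
    have h1 : w + 1 ≤ u := by omega
    have h2 : (w + 1) * h ≤ u * h := Nat.mul_le_mul_right h h1
    omega
  refine ⟨u, w, hu0, huw, a1, a2, a3, a4, ?_⟩
  ext i
  unfold Gs
  rw [mem_filter, mem_Ico, mem_Ico]
  constructor
  · rintro ⟨⟨b1, b2⟩, b3, b4⟩
    obtain ⟨j, hj⟩ : ∃ j : ℕ, i = (j : ℤ) := ⟨i.toNat, (Int.toNat_of_nonneg b1).symm⟩
    rw [hj, Int.toNat_natCast] at b3 b4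
    rw [hj]
    have c1 : u ≤ j := by
      by_contra hcon
      have h1 : j + 1 ≤ u := by omega
      have h2 : (j + 1) * h ≤ u * h := Nat.mul_le_mul_right h h1
      have e3 : (j + 1) * h = j * h + h := by ring
      omega
    have c2 : j < w := by
      by_contra hcon
      have h1 : w + 1 ≤ j + 1 := by omega
      have h2 : (w + 1) * h ≤ (j + 1) * h := Nat.mul_le_mul_right h h1
      omega
    constructor
    · exact_mod_cast c1
    · exact_mod_cast c2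
  · rintro ⟨b1, b2⟩
    have b0 : 0 ≤ i := by omega
    obtain ⟨j, hj⟩ : ∃ j : ℕ, i = (j : ℤ) := ⟨i.toNat, (Int.toNat_of_nonneg b0).symm⟩
    rw [hj] at b1 b2
    rw [hj, Int.toNat_natCast]
    have c1 : u ≤ j := by exact_mod_cast b1
    have c2 : j + 1 ≤ w := by
      have : j < w := by exact_mod_cast b2
      omega
    have d1 : u * h ≤ j * h := Nat.mul_le_mul_right h c1
    have d2 : (j + 1) * h ≤ w * h := Nat.mul_le_mul_right h c2
    have d3 : j + 1 ≤ (j + 1) * h := Nat.le_mul_of_pos_right _ (by omega)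
    refine ⟨⟨by omega, ?_⟩, by omega, by omega⟩
    have : j < 3 * X := by omega
    exact_mod_cast this

private theorem pt_pc {X h u w s : ℕ} (a1 : X ≤ s + u * h) (a2 : s + u * h ≤ X + h) (a3 : s + w * h ≤ 2 * X)
    (a4 : 2 * X ≤ s + w * h + h) (huw : u ≤ w) : (pc X X : ℝ) ≤ pc (s + u * h) ((w - u) * h) + 2 * h := by
  have hsub : (Ioc X (X + X)).filter Nat.Prime ⊆
      (Ioc (s + u * h) (s + u * h + (w - u) * h)).filter Nat.Prime ∪ Ioc X (s + u * h) ∪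
        Ioc (s + w * h) (2 * X) := by
    intro p hp
    have e1 : s + u * h + (w - u) * h = s + w * h := by
      rw [add_assoc, ← Nat.add_mul]
      congr 2
      omega
    rw [mem_filter, mem_Ioc] at hp
    rw [mem_union, mem_union, mem_filter, mem_Ioc, mem_Ioc, mem_Ioc, e1]
    by_cases h1 : p ≤ s + u * h
    · exact Or.inl (Or.inr ⟨hp.1.1, h1⟩)
    · by_cases h2 : p ≤ s + w * h
      · exact Or.inl (Or.inl ⟨⟨by omega, h2⟩, hp.2⟩)
      · exact Or.inr ⟨by omega, by omega⟩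
  have h1 := card_le_card hsub
  have h2 := card_union_le ((Ioc (s + u * h) (s + u * h + (w - u) * h)).filter Nat.Prime ∪ Ioc X (s + u * h))
    (Ioc (s + w * h) (2 * X))
  have h3 := card_union_le ((Ioc (s + u * h) (s + u * h + (w - u) * h)).filter Nat.Prime) (Ioc X (s + u * h))
  rw [Nat.card_Ioc] at h2 h3
  have h4 : pc X X ≤ pc (s + u * h) ((w - u) * h) + 2 * h := by
    unfold pc
    omega
  exact_mod_cast h4

theorem mass (δ : ℝ) (hδ : 0 < δ) : ∃ X0 : ℕ, ∀ X : ℕ, X0 ≤ X → ∀ h s : ℕ,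
    1 ≤ h → (h : ℝ) ≤ √X → s < h →
    (1 - δ) * ((X : ℝ) / h) ≤ ∑ i ∈ Gs X h s, fb X h s i := by
  obtain ⟨X1, hX1⟩ := pnt_unif 1 (δ / 2) one_pos (by positivity)
  obtain ⟨X2, hX23, hX2⟩ := pt_log (16 / δ ^ 2) (by positivity)
  refine ⟨max (max X1 X2) 4, fun X hX h s hh hh2 hs => ?_⟩
  have hXX1 : X1 ≤ X := (le_max_left _ _).trans ((le_max_left _ _).trans hX)
  have hXX2 : X2 ≤ X := (le_max_right _ _).trans ((le_max_left _ _).trans hX)
  have hX4 : 4 ≤ X := (le_max_right _ _).trans hX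
  have hXr : (4 : ℝ) ≤ X := by exact_mod_cast hX4
  have hl0 : 0 ≤ Real.log X := Real.log_nonneg (by linarith)
  have hhr : (0 : ℝ) < h := by exact_mod_cast hh
  have hss : √(X : ℝ) * √X = X := Real.mul_self_sqrt (by linarith)
  have hs2 : 2 ≤ √(X : ℝ) := Real.le_sqrt_of_sq_le (by linarith)
  have h2X : 2 * h ≤ X := by
    have h1 : 2 * (h : ℝ) ≤ X := by nlinarith
    exact_mod_cast h1
  have hlog : Real.log X ≤ δ / 4 * √X := by
    have h1 := hX2 X hXX2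
    have h2 : (4 / δ * Real.log X) ≤ √X := by
      apply Real.le_sqrt_of_sq_le
      calc (4 / δ * Real.log (X : ℝ)) ^ 2 = 16 / δ ^ 2 * Real.log (X : ℝ) ^ 2 := by ring
        _ ≤ (X : ℝ) := h1
    calc Real.log X = δ / 4 * (4 / δ * Real.log X) := by field_simp
      _ ≤ δ / 4 * √X := mul_le_mul_of_nonneg_left h2 (by positivity)
  obtain ⟨u, w, hu, huw, a1, a2, a3, a4, hG⟩ := pt_Gs hh hs h2X
  rw [hG, fb_sum X h s u w hh hu huw (by omega)]
  have hpc := pt_pc a1 a2 a3 a4 huw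
  have hp := (hX1 X X hXX1 (by rw [one_mul]) (by omega)).1
  have h1 : (1 - δ / 2) * X - 2 * h * Real.log X ≤ pc (s + u * h) ((w - u) * h) * Real.log X := by
    have := mul_le_mul_of_nonneg_right hpc hl0
    linarith
  have h2 : 2 * h * Real.log X ≤ δ / 2 * X := by
    have h3 : (h : ℝ) * Real.log X ≤ √X * (δ / 4 * √X) := mul_le_mul hh2 hlog hl0 (Real.sqrt_nonneg _)
    have h4 : √X * (δ / 4 * √X) = δ / 4 * (√X * √X) := by ring
    rw [h4, hss] at h3
    linarith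
  have h6 : (1 - δ) * X ≤ pc (s + u * h) ((w - u) * h) * Real.log X := by linarith
  have h7 : (1 - δ) * ((X : ℝ) / h) = (1 - δ) * X / h := by ring
  have h8 : Real.log X / h * (pc (s + u * h) ((w - u) * h) : ℝ) =
      pc (s + u * h) ((w - u) * h) * Real.log X / h := by ring
  rw [h7, h8]
  exact div_le_div_of_nonneg_right h6 hhr.le

end Pool.Agent.H67.RG
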