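import Pool.Agent.H67.RG.Blk
import Pool.Agent.H67.RG.Pnt
import Pool.Agent.H67.RG.RS

/-!
# Module LowB: lower bounds on both sides for all `n` outside blocks carrying few primes

PROOF. `δ ≤ 1` without loss. `f = fb X h s`, `C` from `fb_energy`. `A = ⌊X/h⌋ - 1`, `B = ⌊2X/h⌋ + 1`, so `B - A ≤ X/h + 3` and `idx h s n ∈ [A, B)` for `X < n ≤ 2X` (`idx_spec`, `s < h`).
`c1 = c + δ/16`, `c1' = c' + δ/16`. `m0 ≥ 32/δ + 1` so large that `2 √((1/m0 + small) C) ≤ δ/4`, `ε = δ/32`, `m1 = ⌊ε X/h⌋₊`. `Bad` = bad set of `rs_right` (`c1`) together with the bad set of `rs_left`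
(`c1'`): `∑_{Bad} f ≤ (c1 + c1') (X/h + 3 + ε X/h) + 2 √(((X/h + 3)/m0 + 1) C X/h) ≤ (c + c' + δ) X/h` for large `X` (`X/h ≥ √X → ∞`; `c, c' < 1`).
`K = m0 + 3`. Let `X < n ≤ 2X`, `i = idx h s n ∉ Bad`, `K h ≤ H ≤ n`. If `H ≥ ε X`: `long` for `max c c'` (`c, c' < 1`). If `H < ε X`:
RIGHT. Suppose `pr n (n+H) < c H/log n`. `m = ⌊(n + H - s)/h⌋ - (i+1)`. As `s + i h < n ≤ s + (i+1) h`: `H/h - 2 < m ≤ H/h`, so `m0 ≤ m ≤ m1` (`H ≥ (m0+3) h`).
The blocks `i+1, …, i+m` lie in `(n, n+H]` and `n + H ≤ 3X`, so by `fb_sum` `∑_{Ioc i (i+m)} f ≤ (log X/h) pr n (n+H) ≤ (log X/h) c H/log n ≤ c H/h ≤ c (m+2) ≤ c1 m`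
(`2c ≤ (δ/16) m`, `m ≥ 32/δ`): `i` is right bad, contradiction.
LEFT. `m = i - ⌈(n - H - s)/h⌉`; `H/h - 2 ≤ m ≤ H/h`; the blocks `i-m, …, i-1` lie in `(n-H, n]` and `i - m ≥ 1`; same computation with `Ico (i-m) i`.
(`pr` for real end points: `⌊n + H⌋₊` etc.; the primes of `(s + u h, s + w h]` are counted in `pr a b` when `a ≤ s + u h`, `s + w h ≤ b`.)
-/

set_option autoImplicit false

namespace Pool.Agent.H67.RG

open Finset Pool.Agent.H5.Short

private theorem lb_pc (a b : ℝ) (v l : ℕ) (h1 : ⌊a⌋₊ ≤ v) (h2 : v + l ≤ ⌊b⌋₊) : (pc v l : ℝ) ≤ pr a b := by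
  unfold pr pc
  exact_mod_cast card_le_card (filter_subset_filter _ (Ioc_subset_Ioc h1 h2))

private theorem lb_num {X n h m m0 : ℕ} {c δ H P S : ℝ} (hc : 0 ≤ c) (hc1 : c < 1)
    (hX : 2 ≤ X) (hh : 1 ≤ h) (hn : X < n) (hm0 : 32 ≤ δ * m0) (hδ : 0 < δ) (hm : m0 ≤ m)
    (hHm : H ≤ (m + 2) * h) (hP : P < c * (H / Real.log n)) (hS : S ≤ Real.log X / h * P) :
    S ≤ (c + δ / 16) * m := by
  have hXr : (2 : ℝ) ≤ X := by exact_mod_cast hX
  have hhr : (0 : ℝ) < h := by exact_mod_cast hh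
  have hnr : (X : ℝ) ≤ n := by exact_mod_cast hn.le
  have hlX : 0 < Real.log X := Real.log_pos (by linarith)
  have hln : Real.log X ≤ Real.log n := Real.log_le_log (by linarith) hnr
  have hln0 : 0 < Real.log n := by linarith
  have hq : 0 ≤ Real.log X / h := by positivity
  have hH : 0 ≤ H ∨ H < 0 := le_or_gt 0 H
  have h1 : S ≤ Real.log X / h * (c * (H / Real.log n)) := hS.trans (mul_le_mul_of_nonneg_left hP.le hq)
  have h2 : Real.log X / h * (c * (H / Real.log n)) ≤ c * (m + 2) := by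
    rcases hH with hH | hH
    · have h3 : Real.log X / h * (c * (H / Real.log n)) = c * (H / h) * (Real.log X / Real.log n) := by
        field_simp
      rw [h3]
      have h4 : Real.log X / Real.log n ≤ 1 := by
        rw [div_le_one hln0]
        exact hln
      have h5 : H / h ≤ m + 2 := by
        rw [div_le_iff₀ hhr]
        exact hHm
      have h6 : 0 ≤ c * (H / h) := by positivity
      calc c * (H / h) * (Real.log X / Real.log n) ≤ c * (H / h) * 1 := mul_le_mul_of_nonneg_left h4 h6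
        _ = c * (H / h) := mul_one _
        _ ≤ c * (m + 2) := mul_le_mul_of_nonneg_left h5 hc
    · have h3 : H / Real.log n ≤ 0 := div_nonpos_of_nonpos_of_nonneg hH.le hln0.le
      have h4 : c * (H / Real.log n) ≤ 0 := mul_nonpos_of_nonneg_of_nonpos hc h3
      have h5 : Real.log X / h * (c * (H / Real.log n)) ≤ 0 := mul_nonpos_of_nonneg_of_nonpos hq h4
      have h6 : 0 ≤ c * ((m : ℝ) + 2) := by positivity
      linarith
  have h3 : (m0 : ℝ) ≤ m := by exact_mod_cast hm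
  have h4 : δ * m0 ≤ δ * m := mul_le_mul_of_nonneg_left h3 hδ.le
  have h5 : c * (m + 2) ≤ (c + δ / 16) * m := by nlinarith
  linarith

private theorem lb_R {X h s n q m0 m1 : ℕ} {c δ H : ℝ} (hc : 0 ≤ c) (hc1 : c < 1) (hδ : 0 < δ) (hX : 2 ≤ X)
    (hh : 1 ≤ h) (hn : X < n) (hn2 : n ≤ 2 * X) (hq1 : s + q * h < n) (hq2 : n ≤ s + (q + 1) * h)
    (hm0 : 32 ≤ δ * m0) (hH1 : ((m0 : ℝ) + 3) * h ≤ H) (hH2 : H ≤ X / 2) (hm1 : H < ((m1 : ℝ) + 1) * h)
    (hsum : ∀ m : ℕ, m0 ≤ m → m ≤ m1 → ¬ ∑ y ∈ Ioc (q : ℤ) (q + (m : ℤ)), fb X h s y ≤ (c + δ / 16) * m) :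
    c * (H / Real.log n) ≤ pr n (n + H) := by
  by_contra hcon
  have hcon' : pr n (n + H) < c * (H / Real.log n) := not_le.1 hcon
  have hhr : (0 : ℝ) < h := by exact_mod_cast hh
  have hq1r : (s : ℝ) + q * h < n := by exact_mod_cast hq1
  have hq2r : (n : ℝ) ≤ s + (q + 1) * h := by exact_mod_cast hq2
  have hn2r : (n : ℝ) ≤ 2 * X := by exact_mod_cast hn2
  have hH0 : 0 ≤ H := le_trans (by positivity) hH1
  obtain ⟨w, hw⟩ : ∃ w : ℕ, w = ⌊((n : ℝ) + H - s) / h⌋₊ := ⟨_, rfl⟩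
  have hpos : 0 ≤ ((n : ℝ) + H - s) / h := by
    have : 0 ≤ (q : ℝ) * h := by positivity
    apply div_nonneg _ hhr.le
    linarith
  have hw1 : (w : ℝ) * h ≤ n + H - s := by
    rw [← le_div_iff₀ hhr, hw]
    exact Nat.floor_le hpos
  have hw2 : (n : ℝ) + H - s < (w + 1) * h := by
    rw [← div_lt_iff₀ hhr, hw]
    exact Nat.lt_floor_add_one _
  have hlt : (q : ℝ) + m0 + 3 < w + 1 := by
    have h1 : ((q : ℝ) + m0 + 3) * h < (w + 1) * h := by
      have : ((q : ℝ) + m0 + 3) * h = q * h + (m0 + 3) * h := by ring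
      linarith
    exact lt_of_mul_lt_mul_right h1 hhr.le
  have hltn : q + m0 + 3 < w + 1 := by exact_mod_cast hlt
  obtain ⟨m, hm⟩ : ∃ m : ℕ, w = q + 1 + m := ⟨w - (q + 1), by omega⟩
  have hmr : (w : ℝ) = q + 1 + m := by rw [hm]; push_cast; ring
  have hmm0 : m0 ≤ m := by omega
  have hmm1 : m ≤ m1 := by
    have h1 : (m : ℝ) * h < ((m1 : ℝ) + 1) * h := by
      have : (m : ℝ) * h = w * h - (q + 1) * h := by rw [hmr]; ring
      linarith
    have h2 : (m : ℝ) < (m1 : ℝ) + 1 := lt_of_mul_lt_mul_right h1 hhr.le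
    have h3 : m < m1 + 1 := by exact_mod_cast h2
    omega
  have hHm : H ≤ ((m : ℝ) + 2) * h := by
    have : ((m : ℝ) + 2) * h = (w + 1) * h - q * h := by rw [hmr]; ring
    linarith
  have hset : Ioc (q : ℤ) (q + (m : ℤ)) = Ico (((q + 1 : ℕ) : ℤ)) ((w : ℕ) : ℤ) := by
    ext y
    rw [mem_Ioc, mem_Ico, hm]
    push_cast
    constructor
    · intro h1
      constructor <;> omega
    · intro h1
      constructor <;> omega
  have hwn : s + w * h ≤ 3 * X := by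
    have h1 : (s : ℝ) + w * h ≤ 3 * X := by
      have hX0 : (0 : ℝ) ≤ X := Nat.cast_nonneg _
      linarith
    exact_mod_cast h1
  have hfs := fb_sum X h s (q + 1) w hh (by omega) (by omega) hwn
  have hpr : (pc (s + (q + 1) * h) ((w - (q + 1)) * h) : ℝ) ≤ pr n (n + H) := by
    apply lb_pc
    · rw [Nat.floor_natCast]
      exact hq2
    · apply Nat.le_floor
      have h1 : s + (q + 1) * h + (w - (q + 1)) * h = s + w * h := by
        rw [add_assoc, ← Nat.add_mul]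
        congr 2
        omega
      rw [h1]
      push_cast
      linarith
  apply hsum m hmm0 hmm1
  rw [hset, hfs]
  have hlX : 0 ≤ Real.log X / h := by
    apply div_nonneg (Real.log_natCast_nonneg _) hhr.le
  exact lb_num hc hc1 hX hh hn hm0 hδ hmm0 hHm hcon' (mul_le_mul_of_nonneg_left hpr hlX)

private theorem lb_L {X h s n q m0 m1 : ℕ} {c δ H : ℝ} (hc : 0 ≤ c) (hc1 : c < 1) (hδ : 0 < δ) (hX : 2 ≤ X)
    (hh : 1 ≤ h) (hs : s < h) (h4 : 4 * h ≤ X) (hn : X < n) (hn2 : n ≤ 2 * X) (hq1 : s + q * h < n)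
    (hq2 : n ≤ s + (q + 1) * h)
    (hm0 : 32 ≤ δ * m0) (hH1 : ((m0 : ℝ) + 3) * h ≤ H) (hH2 : H ≤ X / 2) (hm1 : H < ((m1 : ℝ) + 1) * h)
    (hsum : ∀ m : ℕ, m0 ≤ m → m ≤ m1 → ¬ ∑ y ∈ Ico ((q : ℤ) - (m : ℤ)) (q : ℤ), fb X h s y ≤ (c + δ / 16) * m) :
    c * (H / Real.log n) ≤ pr (n - H) n := by
  by_contra hcon
  have hcon' : pr (n - H) n < c * (H / Real.log n) := not_le.1 hcon
  have hhr : (0 : ℝ) < h := by exact_mod_cast hh
  have hnr : (X : ℝ) < n := by exact_mod_cast hn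
  have hq1r : (s : ℝ) + q * h < n := by exact_mod_cast hq1
  have hq2r : (n : ℝ) ≤ s + (q + 1) * h := by exact_mod_cast hq2
  have hn2r : (n : ℝ) ≤ 2 * X := by exact_mod_cast hn2
  have h4r : 4 * (h : ℝ) ≤ X := by exact_mod_cast h4
  have hsr : (s : ℝ) < h := by exact_mod_cast hs
  have hH0 : 0 ≤ H := le_trans (by positivity) hH1
  obtain ⟨u, hu⟩ : ∃ u : ℕ, u = ⌈((n : ℝ) - H - s) / h⌉₊ := ⟨_, rfl⟩
  have hpos0 : 0 < (n : ℝ) - H - s := by linarith
  have hpos : 0 < ((n : ℝ) - H - s) / h := div_pos hpos0 hhr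
  have hu1 : (n : ℝ) - H - s ≤ u * h := by
    rw [← div_le_iff₀ hhr, hu]
    exact Nat.le_ceil _
  have hu2 : (u : ℝ) * h < n - H - s + h := by
    have h1 : (u : ℝ) < ((n : ℝ) - H - s) / h + 1 := by
      rw [hu]
      exact Nat.ceil_lt_add_one hpos.le
    have h2 := mul_lt_mul_of_pos_right h1 hhr
    rw [add_mul, one_mul, div_mul_cancel₀ _ hhr.ne'] at h2
    exact h2
  have hu0 : 1 ≤ u := by
    rw [hu]
    exact Nat.one_le_iff_ne_zero.2 (Nat.ceil_pos.2 hpos).ne'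
  have hlt : (u : ℝ) + m0 + 1 < q + 1 := by
    have h1 : ((u : ℝ) + m0 + 1) * h < (q + 1) * h := by
      have : ((u : ℝ) + m0 + 1) * h = u * h + (m0 + 3) * h - 2 * h := by ring
      linarith
    exact lt_of_mul_lt_mul_right h1 hhr.le
  have hltn : u + m0 + 1 < q + 1 := by exact_mod_cast hlt
  obtain ⟨m, hm⟩ : ∃ m : ℕ, q = u + m := ⟨q - u, by omega⟩
  have hmr : (q : ℝ) = u + m := by rw [hm]; push_cast; ring
  have hmm0 : m0 ≤ m := by omega
  have hmm1 : m ≤ m1 := by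
    have h1 : (m : ℝ) * h < ((m1 : ℝ) + 1) * h := by
      have : (m : ℝ) * h = q * h - u * h := by rw [hmr]; ring
      linarith
    have h2 : (m : ℝ) < (m1 : ℝ) + 1 := lt_of_mul_lt_mul_right h1 hhr.le
    have h3 : m < m1 + 1 := by exact_mod_cast h2
    omega
  have hHm : H ≤ ((m : ℝ) + 2) * h := by
    have : ((m : ℝ) + 2) * h = (q + 1) * h - u * h + h := by rw [hmr]; ring
    linarith
  have hset : Ico ((q : ℤ) - (m : ℤ)) (q : ℤ) = Ico ((u : ℕ) : ℤ) ((q : ℕ) : ℤ) := by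
    congr 1
    rw [hm]
    push_cast
    ring
  have hwn : s + q * h ≤ 3 * X := by omega
  have hfs := fb_sum X h s u q hh hu0 (by omega) hwn
  have hpr : (pc (s + u * h) ((q - u) * h) : ℝ) ≤ pr (n - H) n := by
    apply lb_pc
    · apply Nat.floor_le_of_le
      push_cast
      linarith
    · rw [Nat.floor_natCast]
      have h1 : s + u * h + (q - u) * h = s + q * h := by
        rw [add_assoc, ← Nat.add_mul]
        congr 2
        omega
      rw [h1]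
      exact hq1.le
  apply hsum m hmm0 hmm1
  rw [hset, hfs]
  have hlX : 0 ≤ Real.log X / h := by
    apply div_nonneg (Real.log_natCast_nonneg _) hhr.le
  exact lb_num hc hc1 hX hh hn hm0 hδ hmm0 hHm hcon' (mul_le_mul_of_nonneg_left hpr hlX)

private theorem lb_sqrt {C Y N m0 δ E : ℝ} (hC : 0 < C) (hδ : 0 < δ) (hm0 : 192 * C / δ ^ 2 ≤ m0) (hm1 : 1 ≤ m0)
    (hY3 : 3 ≤ Y) (hYm : m0 ≤ Y) (hN : N ≤ Y + 3) (hE : E ≤ C * Y) (hE0 : 0 ≤ E) :
    √((N / m0 + 1) * E) ≤ δ / 8 * Y := by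
  have hm00 : 0 < m0 := by linarith
  have h1 : N / m0 + 1 ≤ 3 * Y / m0 := by
    rw [div_add_one hm00.ne']
    exact div_le_div_of_nonneg_right (by linarith) hm00.le
  have h2 : (N / m0 + 1) * E ≤ 3 * Y / m0 * (C * Y) := by
    calc (N / m0 + 1) * E ≤ 3 * Y / m0 * E := mul_le_mul_of_nonneg_right h1 hE0
      _ ≤ 3 * Y / m0 * (C * Y) := mul_le_mul_of_nonneg_left hE (by positivity)
  have h3 : 3 * Y / m0 * (C * Y) ≤ (δ / 8 * Y) ^ 2 := by
    have h4 : 192 * C ≤ m0 * δ ^ 2 := by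
      rwa [div_le_iff₀ (by positivity)] at hm0
    have h5 : 3 * Y / m0 * (C * Y) = 192 * C / m0 * (Y ^ 2 / 64) := by
      field_simp
      ring
    have h6 : 192 * C / m0 ≤ δ ^ 2 := by
      rw [div_le_iff₀ hm00]
      linarith
    rw [h5]
    calc 192 * C / m0 * (Y ^ 2 / 64) ≤ δ ^ 2 * (Y ^ 2 / 64) := mul_le_mul_of_nonneg_right h6 (by positivity)
      _ = (δ / 8 * Y) ^ 2 := by ring
  exact Real.sqrt_le_iff.2 ⟨by positivity, h2.trans h3⟩

theorem lowB (c c' δ : ℝ) (hc : 0 ≤ c) (hc' : 0 ≤ c') (hc1 : c < 1) (hc1' : c' < 1) (hδ : 0 < δ) :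
    ∃ K : ℝ, 0 < K ∧ ∃ X0 : ℕ, ∀ X : ℕ, X0 ≤ X → ∀ h s : ℕ, 2 * Real.log X ≤ h → (h : ℝ) ≤ √X → s < h →
    ∃ Bad : Finset ℤ, ∑ i ∈ Bad, fb X h s i ≤ (c + c' + δ) * ((X : ℝ) / h) ∧
      ∀ n : ℕ, X < n → n ≤ 2 * X → idx h s n ∉ Bad → RichH (K * h) c c' n := by
  classical
  obtain ⟨C, hC, hen⟩ := fb_energy
  obtain ⟨ε, hε⟩ : ∃ ε : ℝ, ε = min (1 / 2) (δ / (16 + δ)) := ⟨_, rfl⟩
  have hε0 : 0 < ε := by
    rw [hε]
    exact lt_min (by norm_num) (by positivity)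
  have hε1 : ε ≤ 1 / 2 := by rw [hε]; exact min_le_left _ _
  have hε2 : ε * (16 + δ) ≤ δ := by
    have h1 : ε ≤ δ / (16 + δ) := by rw [hε]; exact min_le_right _ _
    rwa [le_div_iff₀ (by positivity)] at h1
  obtain ⟨m0, hm0d⟩ : ∃ m0 : ℕ, m0 = ⌈192 * C / δ ^ 2 + 32 / δ⌉₊ + 1 := ⟨_, rfl⟩
  have hm0a : 192 * C / δ ^ 2 + 32 / δ ≤ m0 := by
    rw [hm0d]
    push_cast
    exact (Nat.le_ceil _).trans (by linarith)
  have hm0b : 192 * C / δ ^ 2 ≤ m0 := by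
    have : 0 < 32 / δ := by positivity
    linarith
  have hm0c : 32 ≤ δ * m0 := by
    have h1 : 0 < 192 * C / δ ^ 2 := by positivity
    have h2 : 32 / δ ≤ m0 := by linarith
    rw [div_le_iff₀ hδ] at h2
    linarith
  have hm01 : 1 ≤ m0 := by omega
  have hm01r : (1 : ℝ) ≤ m0 := by exact_mod_cast hm01
  obtain ⟨Y0, hY0⟩ : ∃ Y0 : ℝ, Y0 = 4 + m0 + 3 * (16 + δ) / δ := ⟨_, rfl⟩
  have hq0 : 0 < 3 * (16 + δ) / δ := by positivity
  have hY0p : 0 < Y0 := by rw [hY0]; positivity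
  obtain ⟨X1, hX1⟩ : ∃ X1 : ℕ, X1 = max 3 ⌈Y0 ^ 2⌉₊ := ⟨_, rfl⟩
  obtain ⟨X2, hlong⟩ := long (max c c') ε (le_max_of_le_left hc) (max_lt hc1 hc1') hε0
  refine ⟨m0 + 3, by positivity, max X1 X2, ?_⟩
  intro X hX h s hh1 hh2 hsh
  have hXX1 : X1 ≤ X := (le_max_left _ _).trans hX
  have hXX2 : X2 ≤ X := (le_max_right _ _).trans hX
  have hX3 : 3 ≤ X := by
    rw [hX1] at hXX1
    exact (le_max_left _ _).trans hXX1
  have hXY : Y0 ^ 2 ≤ X := by
    rw [hX1] at hXX1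
    exact (Nat.le_ceil _).trans (by exact_mod_cast (le_max_right _ _).trans hXX1)
  have hXr : (3 : ℝ) ≤ X := by exact_mod_cast hX3
  have hlX : 0 < Real.log X := Real.log_pos (by linarith)
  have hhr : (0 : ℝ) < h := lt_of_lt_of_le (by positivity) hh1
  have hh : 1 ≤ h := by
    have : 0 < h := by exact_mod_cast hhr
    omega
  have hhY : (h : ℝ) * Y0 ≤ X := by
    have h1 : Y0 ≤ √X := Real.le_sqrt_of_sq_le hXY
    calc (h : ℝ) * Y0 ≤ √X * √X := mul_le_mul hh2 h1 hY0p.le (Real.sqrt_nonneg _)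
      _ = X := Real.mul_self_sqrt (by linarith)
  obtain ⟨Y, hY⟩ : ∃ Y : ℝ, Y = (X : ℝ) / h := ⟨_, rfl⟩
  have hYh : Y * h = X := by rw [hY, div_mul_cancel₀ _ hhr.ne']
  have hYY : Y0 ≤ Y := by
    rw [hY, le_div_iff₀ hhr]
    linarith
  have hY4 : 4 ≤ Y := by linarith
  have hYm : (m0 : ℝ) ≤ Y := by linarith
  have hYq : 3 * (16 + δ) / δ ≤ Y := by linarith
  have hYq' : 3 * (16 + δ) ≤ δ * Y := by
    rw [div_le_iff₀ hδ] at hYq
    linarith
  have h4X : 4 * h ≤ X := by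
    have h1 : 4 * (h : ℝ) ≤ X := by
      rw [← hYh]
      exact mul_le_mul_of_nonneg_right hY4 hhr.le
    exact_mod_cast h1
  have hlog3 : Real.log ((3 * X : ℕ) : ℝ) ≤ h := by
    refine le_trans ?_ hh1
    push_cast
    rw [Real.log_mul (by norm_num) (by linarith)]
    have h1 : Real.log 3 ≤ Real.log X := Real.log_le_log (by norm_num) hXr
    linarith
  -- the range of the indices
  obtain ⟨A, hA⟩ : ∃ A : ℤ, A = ((X / h : ℕ) : ℤ) - 1 := ⟨_, rfl⟩
  obtain ⟨B, hB⟩ : ∃ B : ℤ, B = ((2 * X / h : ℕ) : ℤ) + 1 := ⟨_, rfl⟩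
  have hdiv : X / h ≤ 2 * X / h := Nat.div_le_div_right (by omega)
  have hAB : A ≤ B := by omega
  have hN : (B : ℝ) - A ≤ Y + 3 := by
    have h1 : ((2 * X / h : ℕ) : ℝ) ≤ 2 * Y := by
      have h2 := Nat.cast_div_le (α := ℝ) (m := 2 * X) (n := h)
      rw [hY]
      push_cast at h2
      calc ((2 * X / h : ℕ) : ℝ) ≤ 2 * X / h := h2
        _ = 2 * ((X : ℝ) / h) := by ring
    have h3 : Y < ((X / h : ℕ) : ℝ) + 1 := by
      rw [hY, div_lt_iff₀ hhr]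
      have h4 := Nat.lt_mul_div_succ X (show 0 < h by omega)
      have h5 : ((X : ℕ) : ℝ) < ((h * (X / h + 1) : ℕ) : ℝ) := by exact_mod_cast h4
      push_cast at h5
      rw [mul_comm]
      exact_mod_cast h5
    rw [hA, hB, Int.cast_sub, Int.cast_add, Int.cast_one, Int.cast_natCast, Int.cast_natCast]
    linarith
  obtain ⟨m1, hm1⟩ : ∃ m1 : ℕ, m1 = ⌊ε * Y⌋₊ := ⟨_, rfl⟩
  have hm1a : (m1 : ℝ) ≤ ε * Y := by
    rw [hm1]
    exact Nat.floor_le (by positivity)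
  have hm1b : ε * Y < (m1 : ℝ) + 1 := by
    rw [hm1]
    exact Nat.lt_floor_add_one _
  have hfn : ∀ i : ℤ, 0 ≤ fb X h s i := fun i => fb_nonneg X h s i
  have hE := hen X h s (by omega) hlog3 (by omega) hsh (Ico A B)
  rw [← hY] at hE
  have hE0 : 0 ≤ ∑ i ∈ Ico A B, fb X h s i ^ 2 := sum_nonneg fun i _ => sq_nonneg _
  have hsq := lb_sqrt hC hδ hm0b hm01r (by linarith) hYm hN hE hE0
  have hR := rs_right (fb X h s) hfn (c + δ / 16) (by positivity) A B hAB m0 m1 hm01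
  have hL := rs_left (fb X h s) hfn (c' + δ / 16) (by positivity) A B hAB m0 m1 hm01
  obtain ⟨BR, hBR⟩ : ∃ BR : Finset ℤ, BR = (Ico A B).filter (fun i : ℤ => ∃ m : ℕ, m0 ≤ m ∧ m ≤ m1 ∧
      ∑ y ∈ Ioc i (i + (m : ℤ)), fb X h s y ≤ (c + δ / 16) * m) := ⟨_, rfl⟩
  obtain ⟨BL, hBL⟩ : ∃ BL : Finset ℤ, BL = (Ico A B).filter (fun i : ℤ => ∃ m : ℕ, m0 ≤ m ∧ m ≤ m1 ∧
      ∑ y ∈ Ico (i - (m : ℤ)) i, fb X h s y ≤ (c' + δ / 16) * m) := ⟨_, rfl⟩
  rw [← hBR] at hR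
  rw [← hBL] at hL
  refine ⟨BR ∪ BL, ?_, ?_⟩
  · rw [← hY]
    have h1 : ∑ i ∈ BR ∪ BL, fb X h s i ≤ ∑ i ∈ BR, fb X h s i + ∑ i ∈ BL, fb X h s i := by
      have h2 := sum_union_inter (s₁ := BR) (s₂ := BL) (f := fb X h s)
      have h3 : 0 ≤ ∑ i ∈ BR ∩ BL, fb X h s i := sum_nonneg fun i _ => hfn i
      linarith
    have hNm : (B : ℝ) - A + m1 ≤ Y + 3 + ε * Y := by linarith
    have h2 : (c + δ / 16) * ((B : ℝ) - A + m1) ≤ (c + δ / 16) * (Y + 3 + ε * Y) :=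
      mul_le_mul_of_nonneg_left hNm (by positivity)
    have h3 : (c' + δ / 16) * ((B : ℝ) - A + m1) ≤ (c' + δ / 16) * (Y + 3 + ε * Y) :=
      mul_le_mul_of_nonneg_left hNm (by positivity)
    have h5 : (16 + δ) * (ε * Y) ≤ δ * Y := by
      have := mul_le_mul_of_nonneg_right hε2 (show 0 ≤ Y by linarith)
      linarith
    have h6 : 0 ≤ ε * Y := by positivity
    have h7 : (c + c') * (3 + ε * Y) ≤ 2 * (3 + ε * Y) :=
      mul_le_mul_of_nonneg_right (by linarith) (by linarith)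
    have h8 : 0 ≤ δ * Y := by positivity
    have h9 : (c + δ / 16) * (Y + 3 + ε * Y) + (c' + δ / 16) * (Y + 3 + ε * Y) + 2 * (δ / 8 * Y) ≤
        (c + c' + δ) * Y := by
      calc (c + δ / 16) * (Y + 3 + ε * Y) + (c' + δ / 16) * (Y + 3 + ε * Y) + 2 * (δ / 8 * Y) =
          (c + c') * Y + (c + c') * (3 + ε * Y) + δ / 8 * (3 + ε * Y) + 3 / 8 * (δ * Y) := by ring
        _ ≤ (c + c') * Y + 2 * (3 + ε * Y) + δ / 8 * (3 + ε * Y) + 3 / 8 * (δ * Y) := by linarith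
        _ = (c + c') * Y + 1 / 8 * (3 * (16 + δ)) + 1 / 8 * ((16 + δ) * (ε * Y)) + 3 / 8 * (δ * Y) := by ring
        _ ≤ (c + c') * Y + 5 / 8 * (δ * Y) := by linarith
        _ ≤ (c + c') * Y + δ * Y := by linarith
        _ = (c + c' + δ) * Y := by ring
    linarith
  · intro n hn hn2 hid H hH1 hH2
    have hnr : (X : ℝ) < n := by exact_mod_cast hn
    have hln : Real.log X ≤ Real.log n := Real.log_le_log (by linarith) hnr.le
    have hln0 : 0 < Real.log n := by linarith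
    have hm3 : ((m0 : ℝ) + 3) * h ≤ H := hH1
    have hH0 : 0 ≤ H := le_trans (by positivity) hm3
    rcases le_or_gt (ε * X) H with hlg | hlg
    · obtain ⟨g1, g2⟩ := hlong X hXX2 n hn hn2 H hlg hH2
      have hq : 0 ≤ H / Real.log n := by positivity
      exact ⟨(mul_le_mul_of_nonneg_right (le_max_left _ _) hq).trans g1,
        (mul_le_mul_of_nonneg_right (le_max_right _ _) hq).trans g2⟩
    · have hsn : s < n := by omega
      obtain ⟨i0, i1, i2⟩ := idx_spec h s n hh hsn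
      obtain ⟨q, hq⟩ : ∃ q : ℕ, q = (idx h s n).toNat := ⟨_, rfl⟩
      have hqi : idx h s n = (q : ℤ) := by rw [hq, Int.toNat_of_nonneg i0]
      rw [← hq] at i1 i2
      have hHX : H ≤ X / 2 := by
        have : ε * X ≤ 1 / 2 * X := mul_le_mul_of_nonneg_right hε1 (by linarith)
        linarith
      have hHm1 : H < ((m1 : ℝ) + 1) * h := by
        have h1 : ε * Y * h < ((m1 : ℝ) + 1) * h := mul_lt_mul_of_pos_right hm1b hhr
        have h2 : ε * Y * h = ε * X := by rw [mul_assoc, hYh]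
        linarith
      have hmem : (q : ℤ) ∈ Ico A B := by
        rw [mem_Ico]
        have h1 : X / h < q + 2 := by
          apply Nat.div_lt_of_lt_mul
          have : (q + 2) * h = (q + 1) * h + h := by ring
          rw [mul_comm]
          omega
        have h2 : q ≤ 2 * X / h := by
          rw [Nat.le_div_iff_mul_le (by omega)]
          omega
        constructor
        · rw [hA]
          omega
        · rw [hB]
          omega
      rw [hqi, mem_union, not_or] at hid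
      constructor
      · apply lb_R hc hc1 hδ (by omega) hh hn hn2 i1 i2 hm0c hm3 hHX hHm1
        intro m ha hb hcc
        apply hid.1
        rw [hBR, mem_filter]
        exact ⟨hmem, m, ha, hb, hcc⟩
      · apply lb_L hc' hc1' hδ (by omega) hh hsh h4X hn hn2 i1 i2 hm0c hm3 hHX hHm1
        intro m ha hb hcc
        apply hid.2
        rw [hBL, mem_filter]
        exact ⟨hmem, m, ha, hb, hcc⟩

end Pool.Agent.H67.RG
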