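import Pool.Agent.H67.RG.Dn

/-!
# Module Mono: monotonicity in the constants
-/

set_option autoImplicit false

namespace Pool.Agent.H67.RG

open Finset Pool.Agent.H5.Short

theorem Near_mono {M K K' : ℝ} {n : ℕ} {a b : ℝ} (hK : 0 < K) (hKK : K ≤ K') (hn : 0 ≤ Real.log n)
    (h : Near M K' n a b) : Near M K n a b := by
  obtain ⟨h1, h2, h3⟩ := h
  refine ⟨(mul_le_mul_of_nonneg_right hKK hn).trans h1, h2.trans ?_, h3⟩
  exact div_le_div_of_nonneg_left (Nat.cast_nonneg _) hK hKK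

theorem Near_len {M K : ℝ} {n : ℕ} {a b : ℝ} (hK : 0 < K) (hn : 0 ≤ Real.log n) (h : Near M K n a b) :
    0 ≤ b - a := (mul_nonneg hK.le hn).trans h.1

theorem RegA_mono {M K K' : ℝ} {n : ℕ} (hK : 0 < K) (hKK : K ≤ K') (hn : 0 ≤ Real.log n)
    (h : RegA M K n) : RegA M K' n := by
  intro a b hab
  refine (h a b (Near_mono hK hKK hn hab)).trans ?_
  have h1 := Near_len (hK.trans_le hKK) hn hab
  exact mul_le_mul_of_nonneg_right hKK (div_nonneg h1 hn)

theorem RegB_mono {M K K' δ : ℝ} {n : ℕ} (hK : 0 < K) (hKK : K ≤ K') (hn : 1 ≤ Real.log n)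
    (h : RegB M K δ n) : RegB M K' δ n := by
  intro a b hab hb
  exact h a b (Near_mono hK hKK (by linarith) hab) ((Real.rpow_le_rpow_of_exponent_le hn hKK).trans hb)

theorem RegC_mono {M K K' η η' : ℝ} {n : ℕ} (hK : 0 < K) (hKK : K ≤ K') (hη : η ≤ η') (hn : 0 ≤ Real.log n)
    (h : RegC M K η n) : RegC M K' η' n := by
  obtain ⟨T, hT, h⟩ := h
  refine ⟨T, hT.trans hKK, ?_⟩
  intro a b a' b' h1 h2 h3 h4
  refine (h a b a' b' (Near_mono hK hKK hn h1) (Near_mono hK hKK hn h2) h3 h4).trans ?_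
  exact div_le_div_of_nonneg_right hη hn

theorem RichH_mono {H0 H0' c c' : ℝ} {n : ℕ} (hH : H0 ≤ H0') (h : RichH H0 c c' n) : RichH H0' c c' n :=
  fun H h1 h2 => h H (hH.trans h1) h2

end Pool.Agent.H67.RG
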