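import Pool.Agent.H67.RG.Dn

/-!
# Module UpN: the upper bound with `4 + δ` in near intervals

PROOF. Let `δ ≤ 1` without loss (smaller `δ` is stronger) and `τ = δ/40`. `ub_card (δ/4) 4` (H24/AB/Final) gives `A` and: for large `Y` all but
`Y/(log Y)^4` of the integers in `(Y, 2Y]` satisfy `UB (δ/4) A`. Use `Y = ⌊X/2⌋`, `X`, `2X` (or `Y = ⌊X/2⌋, 2⌊X/2⌋, 4⌊X/2⌋, …`): the set `Ex` of the
integers `x` with `X/2 < x ≤ 4X` (say) not satisfying `UB (δ/4) A` has at most `8 X/(log X)^4 · 16` elements for large `X`. `K = max (A+1) (8M+16)`.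
CLAIM 1. Let `X < n ≤ 2X` and let `(a, b]` be near `n`, `ℓ = b - a ≥ (log n)^K`, and suppose `pr a b > (4+δ) ℓ/log (n ℓ)`. Then every integer `x ∈ [a - τ ℓ, a]`, `x = ⌊·⌋`
is in `Ex`: put `H = b - x ∈ [ℓ, (1+τ) ℓ]`; `H ≥ (log x)^A` (as `ℓ ≥ (log n)^(A+1)`, `x ≤ 4X`, `X` large), `H ≤ x` (as `ℓ ≤ n/K`), so if `x` satisfied `UB` then
`pr a b ≤ #primes in (x, x+H] ≤ (4 + δ/4) H/log (x H) ≤ (4 + δ/4)(1+τ) ℓ/log (x ℓ)` and `log (x ℓ) ≥ log (n ℓ) - log 4 ≥ (1 - τ) log (n ℓ)` for large `X`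
(`x ≥ X/2 ≥ n/4`); `(4 + δ/4)(1+τ)/(1-τ) ≤ 4 + δ`: contradiction.
The number of these `x` is `≥ τ ℓ - 1 ≥ τ ℓ/2`, and `|x - n| ≤ (M+1) ℓ`.
CLAIM 2. For natural `r ≥ 1` the number of `n ∈ (X, 2X]` with `#(Ex ∩ [n - r, n + r]) ≥ ρ r`, `ρ > 0`, is `≤ (2r+1)|Ex|/(ρ r) ≤ 3 |Ex|/ρ` (double counting). Apply it with
`r = 2^j`, `2^j ≤ 4X` (at most `2 log X + 3` values, e.g. `Nat.log 2 (4X) + 1`), `r/2 < (M+1) ℓ + 1 ≤ r`, `ρ = τ/(4 (M+2))`: every `n` of claim 1 is counted for one `j`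
(`τ ℓ/2 ≥ ρ r`). So the number of the `n` violating `RegB M K δ` is at most `(2 log X + 3) · 3 |Ex|/ρ ≤ X/(log X)^2` for large `X`.
-/

set_option autoImplicit false

namespace Pool.Agent.H67.RG

open Finset Pool.Agent.H5.Short Pool.Agent.H24.AB

/-- double counting -/
private theorem dc (Ex S : Finset ℕ) (r : ℕ) (hr : 1 ≤ r) (ρ : ℝ) (hρ : 0 < ρ) :
    ((S.filter (fun n => ρ * r ≤ ((Ex.filter (fun x => n ≤ x + r ∧ x ≤ n + r)).card : ℝ))).card : ℝ) ≤
      3 * Ex.card / ρ := by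
  classical
  set B := S.filter (fun n => ρ * r ≤ ((Ex.filter (fun x => n ≤ x + r ∧ x ≤ n + r)).card : ℝ)) with hB
  have hr0 : (0 : ℝ) < r := by exact_mod_cast hr
  have h1 : (B.card : ℝ) * (ρ * r) ≤ ∑ n ∈ B, ((Ex.filter (fun x => n ≤ x + r ∧ x ≤ n + r)).card : ℝ) := by
    rw [← nsmul_eq_mul, ← sum_const]
    refine sum_le_sum fun n hn => ?_
    rw [hB, mem_filter] at hn
    exact hn.2
  have h2 : ∑ n ∈ B, (Ex.filter (fun x => n ≤ x + r ∧ x ≤ n + r)).card =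
      ∑ x ∈ Ex, (B.filter (fun n => n ≤ x + r ∧ x ≤ n + r)).card := by
    simp_rw [card_filter]
    rw [sum_comm]
  have h3 : ∀ x ∈ Ex, (B.filter (fun n => n ≤ x + r ∧ x ≤ n + r)).card ≤ 2 * r + 1 := by
    intro x _
    have : B.filter (fun n => n ≤ x + r ∧ x ≤ n + r) ⊆ Icc (x - r) (x + r) := by
      intro n hn
      rw [mem_filter] at hn
      rw [mem_Icc]
      omega
    refine (card_le_card this).trans ?_
    rw [Nat.card_Icc]
    omega
  have h4 : (∑ n ∈ B, (Ex.filter (fun x => n ≤ x + r ∧ x ≤ n + r)).card : ℕ) ≤ Ex.card * (2 * r + 1) := by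
    rw [h2]
    refine (sum_le_sum h3).trans ?_
    rw [sum_const, smul_eq_mul]
  have h5 : ∑ n ∈ B, ((Ex.filter (fun x => n ≤ x + r ∧ x ≤ n + r)).card : ℝ) ≤ Ex.card * (2 * r + 1) := by
    exact_mod_cast h4
  have hr1 : (1 : ℝ) ≤ r := by exact_mod_cast hr
  rw [le_div_iff₀ hρ]
  have h6 : (B.card : ℝ) * ρ * r ≤ 3 * Ex.card * r := by
    have h7 : (Ex.card : ℝ) * (2 * r + 1) ≤ Ex.card * (3 * r) :=
      mul_le_mul_of_nonneg_left (by linarith) (Nat.cast_nonneg _)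
    nlinarith
  exact le_of_mul_le_mul_right h6 hr0

/-- one violating interval produces many exceptional points -/
private theorem core (M δ τ A K : ℝ) (hM : 1 ≤ M) (hδ : 0 < δ) (hδ1 : δ ≤ 1) (hτ : τ = δ / 40) (hA : 0 < A)
    (hKA : A + 1 ≤ K) (hKM : 8 * M + 16 ≤ K) (X n : ℕ) (hXn : X < n) (hnX : n ≤ 2 * X) (hX4 : 4 ≤ X)
    (hL1 : (2 : ℝ) ^ A ≤ Real.log X) (hL2 : 2 ≤ Real.log X) (hL3 : 1 ≤ τ * Real.log X)
    (a b : ℝ) (hnear : Near M K n a b) (hb : (Real.log n) ^ K ≤ b - a)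
    (hpr : (4 + δ) * ((b - a) / Real.log (n * (b - a))) < pr a b) (x : ℕ) (hx1 : a - τ * (b - a) ≤ x)
    (hx2 : (x : ℝ) ≤ a) : X / 2 < x ∧ x ≤ 16 * (X / 2) ∧ ¬ UB (δ / 4) A x := by
  obtain ⟨ℓ, hℓ⟩ : ∃ ℓ : ℝ, ℓ = b - a := ⟨_, rfl⟩
  obtain ⟨hn1, hn2, hn3⟩ := hnear
  rw [← hℓ] at hn1 hn2 hn3 hb hpr hx1
  have hXR : (4 : ℝ) ≤ X := by exact_mod_cast hX4
  have hX0 : (0 : ℝ) < X := by linarith
  have hXnR : (X : ℝ) < n := by exact_mod_cast hXn
  have hnXR : (n : ℝ) ≤ 2 * X := by exact_mod_cast hnX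
  have hn0 : (0 : ℝ) < n := by linarith
  have hlog : Real.log X ≤ Real.log n := Real.log_le_log hX0 hXnR.le
  have hlogn : 2 ≤ Real.log n := by linarith
  have hK0 : 0 < K := by linarith
  have hτ0 : 0 < τ := by rw [hτ]; positivity
  have hτ1 : τ ≤ 1 / 40 := by rw [hτ]; linarith
  have hℓ1 : 1 ≤ ℓ := by
    refine le_trans ?_ hb
    exact Real.one_le_rpow (by linarith) hK0.le
  have hℓ0 : 0 < ℓ := by linarith
  have hℓK : ℓ * (8 * M + 16) ≤ n := by
    rw [le_div_iff₀ hK0] at hn2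
    exact (mul_le_mul_of_nonneg_left hKM hℓ0.le).trans hn2
  have hMℓ : ℓ ≤ M * ℓ := by nlinarith
  have hab := abs_le.1 hn3
  have hx0 : (4 / 5 : ℝ) * n ≤ x := by nlinarith
  have hxu : (x : ℝ) ≤ 9 / 8 * n := by nlinarith
  have hxpos : (0 : ℝ) < x := by linarith
  have e1 : (2 : ℝ) * ((X / 2 : ℕ) : ℝ) ≤ X := by
    have : 2 * (X / 2) ≤ X := by omega
    exact_mod_cast this
  have e2 : (X : ℝ) ≤ 2 * ((X / 2 : ℕ) : ℝ) + 1 := by
    have : X ≤ 2 * (X / 2) + 1 := by omega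
    exact_mod_cast this
  refine ⟨?_, ?_, ?_⟩
  · have : ((X / 2 : ℕ) : ℝ) < x := by linarith
    exact_mod_cast this
  · have : (x : ℝ) ≤ ((16 * (X / 2) : ℕ) : ℝ) := by
      push_cast
      linarith
    exact_mod_cast this
  · intro hUB
    obtain ⟨H, hH⟩ : ∃ H : ℝ, H = b - x := ⟨_, rfl⟩
    have hHl : ℓ ≤ H := by rw [hH, hℓ]; linarith
    have hHu : H ≤ (1 + τ) * ℓ := by
      rw [hH]
      have : b = a + ℓ := by rw [hℓ]; ring
      rw [this]
      linarith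
    have hH1 : (Real.log x) ^ A ≤ H := by
      have e3 : Real.log x ≤ 2 * Real.log n := by
        have : Real.log x ≤ Real.log (2 * n) := Real.log_le_log hxpos (by linarith)
        rw [Real.log_mul (by norm_num) hn0.ne'] at this
        have h2 : Real.log 2 ≤ 1 := by
          have := Real.log_two_lt_d9
          linarith
        linarith
      have e4 : 0 ≤ Real.log x := Real.log_nonneg (by linarith)
      calc (Real.log x) ^ A ≤ (2 * Real.log n) ^ A := Real.rpow_le_rpow e4 e3 hA.le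
        _ = (2 : ℝ) ^ A * (Real.log n) ^ A := Real.mul_rpow (by norm_num) (by linarith)
        _ ≤ Real.log n * (Real.log n) ^ A :=
            mul_le_mul_of_nonneg_right (hL1.trans hlog) (Real.rpow_nonneg (by linarith) _)
        _ = (Real.log n) ^ (A + 1) := by
            rw [Real.rpow_add (by linarith), Real.rpow_one]
            ring
        _ ≤ (Real.log n) ^ K := Real.rpow_le_rpow_of_exponent_le (by linarith) hKA
        _ ≤ H := hb.trans hHl
    have hH2 : H ≤ x := by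
      have : (1 + τ) * ℓ ≤ 2 * ℓ := mul_le_mul_of_nonneg_right (by linarith) hℓ0.le
      nlinarith
    have h3 := hUB H hH1 hH2
    have h4 : pr a b ≤ (((Ioc x ⌊(x : ℝ) + H⌋₊).filter Nat.Prime).card : ℝ) := by
      unfold pr
      have e5 : (x : ℝ) + H = b := by rw [hH]; ring
      rw [e5]
      have e6 : x ≤ ⌊a⌋₊ := Nat.le_floor hx2
      exact_mod_cast card_le_card (filter_subset_filter _ (Ioc_subset_Ioc_left e6))
    have hlogl : Real.log (n * ℓ) * (1 - τ) ≤ Real.log (x * H) := by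
      have e7 : Real.log (n * ℓ / 2) ≤ Real.log (x * H) := by
        apply Real.log_le_log (by positivity)
        calc (n : ℝ) * ℓ / 2 ≤ (4 / 5 * n) * ℓ := by nlinarith [mul_pos hn0 hℓ0]
          _ ≤ x * H := mul_le_mul hx0 hHl hℓ0.le hxpos.le
      rw [Real.log_div (by positivity) (by norm_num)] at e7
      have e8 : Real.log 2 ≤ τ * Real.log (n * ℓ) := by
        have e9 : Real.log X ≤ Real.log (n * ℓ) := by
          apply Real.log_le_log hX0
          nlinarith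
        have h2 : Real.log 2 ≤ 1 := by
          have := Real.log_two_lt_d9
          linarith
        have := mul_le_mul_of_nonneg_left e9 hτ0.le
        linarith
      linarith
    have hlog0 : 0 < Real.log (n * ℓ) := by
      apply Real.log_pos
      nlinarith
    have hlx0 : 0 < Real.log (x * H) := lt_of_lt_of_le (mul_pos hlog0 (by linarith)) hlogl
    have h5 : (4 + δ / 4) * (H / Real.log (x * H)) ≤ (4 + δ) * (ℓ / Real.log (n * ℓ)) := by
      calc (4 + δ / 4) * (H / Real.log (x * H)) ≤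
            (4 + δ / 4) * (((1 + τ) * ℓ) / (Real.log (n * ℓ) * (1 - τ))) := by
            apply mul_le_mul_of_nonneg_left _ (by linarith)
            apply div_le_div₀ (by positivity) hHu (mul_pos hlog0 (by linarith)) hlogl
        _ = ((4 + δ / 4) * (1 + τ) / (1 - τ)) * (ℓ / Real.log (n * ℓ)) := by
            have : (1 - τ) ≠ 0 := by
              have : 0 < 1 - τ := by linarith
              exact this.ne'
            field_simp
        _ ≤ (4 + δ) * (ℓ / Real.log (n * ℓ)) := by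
            apply mul_le_mul_of_nonneg_right _ (by positivity)
            rw [div_le_iff₀ (by linarith), hτ]
            nlinarith
    linarith

open Classical in
private theorem upN1 (M δ : ℝ) (hM : 1 ≤ M) (hδ : 0 < δ) (hδ1 : δ ≤ 1) : ∃ K : ℝ, 1 ≤ K ∧ ∃ X0 : ℕ, ∀ X : ℕ, X0 ≤ X →
    (((Ioc X (2 * X)).filter (fun n => ¬ RegB M K δ n)).card : ℝ) ≤ X / (Real.log X) ^ 2 := by
  obtain ⟨A, hA, X1, hX1⟩ := ub_card (δ / 4) 4 (by positivity) (by norm_num)
  obtain ⟨τ, hτ⟩ : ∃ τ : ℝ, τ = δ / 40 := ⟨_, rfl⟩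
  have hτ0 : 0 < τ := by rw [hτ]; positivity
  obtain ⟨K, hK⟩ : ∃ K : ℝ, K = max (A + 1) (8 * M + 16) := ⟨_, rfl⟩
  have hKA : A + 1 ≤ K := by rw [hK]; exact le_max_left _ _
  have hKM : 8 * M + 16 ≤ K := by rw [hK]; exact le_max_right _ _
  obtain ⟨ρ, hρ⟩ : ∃ ρ : ℝ, ρ = τ / (4 * (M + 1)) := ⟨_, rfl⟩
  have hρ0 : 0 < ρ := by rw [hρ]; positivity
  have hlogtend : Filter.Tendsto (fun n : ℕ => Real.log (n : ℝ)) Filter.atTop Filter.atTop :=
    Real.tendsto_log_atTop.comp tendsto_natCast_atTop_atTop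
  obtain ⟨X2, hX2⟩ := Filter.eventually_atTop.mp
    (((hlogtend.eventually_ge_atTop ((2 : ℝ) ^ A)).and (hlogtend.eventually_ge_atTop (2 / τ + 8))).and
      (hlogtend.eventually_ge_atTop (3 * 128 * 4 / ρ)))
  refine ⟨K, by linarith, max (max (2 * X1 + 2) X2) 16, ?_⟩
  intro X hX
  have hXX1 : 2 * X1 + 2 ≤ X := le_trans (le_trans (le_max_left _ _) (le_max_left _ _)) hX
  have hXX2 : X2 ≤ X := le_trans (le_trans (le_max_right _ _) (le_max_left _ _)) hX
  have hX16 : 16 ≤ X := le_trans (le_max_right _ _) hX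
  obtain ⟨⟨hL1, hL2⟩, hL3⟩ := hX2 X hXX2
  have hXR : (16 : ℝ) ≤ X := by exact_mod_cast hX16
  have hX0 : (0 : ℝ) < X := by linarith
  have h2τ : 0 < 2 / τ := by positivity
  have hL8 : 8 ≤ Real.log X := by linarith
  have hLτ : 2 ≤ τ * Real.log X := by
    have : 2 / τ ≤ Real.log X := by linarith
    rw [div_le_iff₀ hτ0] at this
    linarith
  -- the exceptional set
  obtain ⟨Y, hY⟩ : ∃ Y : ℕ, Y = X / 2 := ⟨_, rfl⟩
  have hYX1 : X1 ≤ Y := by omega
  have hY8 : 8 ≤ Y := by omega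
  have hYR : (8 : ℝ) ≤ Y := by exact_mod_cast hY8
  have hY2 : 2 * (Y : ℝ) ≤ X := by
    have : 2 * Y ≤ X := by omega
    exact_mod_cast this
  have hXY : (X : ℝ) ≤ 4 * Y := by
    have : X ≤ 4 * Y := by omega
    exact_mod_cast this
  have hlogY : Real.log X / 2 ≤ Real.log Y := by
    have h1 : Real.log X ≤ Real.log (4 * Y) := Real.log_le_log hX0 hXY
    rw [Real.log_mul (by norm_num) (by positivity)] at h1
    have h4 : Real.log 4 ≤ 2 := by
      rw [show (4 : ℝ) = 2 ^ 2 by norm_num, Real.log_pow]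
      have := Real.log_two_lt_d9
      push_cast
      linarith
    linarith
  set Ex := (Ioc Y (16 * Y)).filter (fun x => ¬ UB (δ / 4) A x) with hEx
  have hcov : Ex ⊆ (((Ioc Y (2 * Y)).filter (fun x => ¬ UB (δ / 4) A x) ∪
      (Ioc (2 * Y) (2 * (2 * Y))).filter (fun x => ¬ UB (δ / 4) A x)) ∪
      ((Ioc (4 * Y) (2 * (4 * Y))).filter (fun x => ¬ UB (δ / 4) A x) ∪
      (Ioc (8 * Y) (2 * (8 * Y))).filter (fun x => ¬ UB (δ / 4) A x))) := by
    intro x hx
    rw [hEx, mem_filter, mem_Ioc] at hx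
    simp only [mem_union, mem_filter, mem_Ioc]
    obtain ⟨⟨h1, h2⟩, h3⟩ := hx
    by_cases c1 : x ≤ 2 * Y
    · exact Or.inl (Or.inl ⟨⟨h1, c1⟩, h3⟩)
    by_cases c2 : x ≤ 4 * Y
    · exact Or.inl (Or.inr ⟨⟨by omega, by omega⟩, h3⟩)
    by_cases c3 : x ≤ 8 * Y
    · exact Or.inr (Or.inl ⟨⟨by omega, by omega⟩, h3⟩)
    · exact Or.inr (Or.inr ⟨⟨by omega, by omega⟩, h3⟩)
  have hpiece : ∀ Z : ℕ, Y ≤ Z → (((Ioc Z (2 * Z)).filter (fun x => ¬ UB (δ / 4) A x)).card : ℝ) ≤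
      Z * (16 / (Real.log X) ^ 4) := by
    intro Z hZ
    have hZR : (Y : ℝ) ≤ Z := by exact_mod_cast hZ
    have h1 := hX1 Z (hYX1.trans hZ)
    have h2 : Real.log X / 2 ≤ Real.log Z :=
      hlogY.trans (Real.log_le_log (by linarith) hZR)
    have h3 : (Real.log Z) ^ (4 : ℝ) = (Real.log Z) ^ 4 := by
      rw [show (4 : ℝ) = ((4 : ℕ) : ℝ) by norm_num, Real.rpow_natCast]
    rw [h3] at h1
    refine h1.trans ?_
    have h4 : (Real.log X / 2) ^ 4 ≤ (Real.log Z) ^ 4 := pow_le_pow_left₀ (by linarith) h2 4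
    have h5 : (0 : ℝ) < (Real.log X / 2) ^ 4 := by positivity
    calc (Z : ℝ) / (Real.log Z) ^ 4 ≤ Z / (Real.log X / 2) ^ 4 :=
          div_le_div_of_nonneg_left (Nat.cast_nonneg _) h5 h4
      _ = Z * (16 / (Real.log X) ^ 4) := by
          field_simp
          ring
  have hExc : (Ex.card : ℝ) ≤ 128 * X / (Real.log X) ^ 4 := by
    have h1 := (card_le_card hcov).trans ((card_union_le _ _).trans
      (add_le_add (card_union_le _ _) (card_union_le _ _)))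
    have h2 : (Ex.card : ℝ) ≤ (((Ioc Y (2 * Y)).filter (fun x => ¬ UB (δ / 4) A x)).card : ℝ) +
        (((Ioc (2 * Y) (2 * (2 * Y))).filter (fun x => ¬ UB (δ / 4) A x)).card : ℝ) +
        ((((Ioc (4 * Y) (2 * (4 * Y))).filter (fun x => ¬ UB (δ / 4) A x)).card : ℝ) +
        (((Ioc (8 * Y) (2 * (8 * Y))).filter (fun x => ¬ UB (δ / 4) A x)).card : ℝ)) := by
      exact_mod_cast h1
    have p1 := hpiece Y le_rfl
    have p2 := hpiece (2 * Y) (by omega)
    have p3 := hpiece (4 * Y) (by omega)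
    have p4 := hpiece (8 * Y) (by omega)
    push_cast at p2 p3 p4
    have h3 : (0 : ℝ) < 16 / (Real.log X) ^ 4 := by positivity
    calc (Ex.card : ℝ) ≤ 15 * Y * (16 / (Real.log X) ^ 4) := by linarith
      _ ≤ (8 * X) * (16 / (Real.log X) ^ 4) := mul_le_mul_of_nonneg_right (by linarith) h3.le
      _ = 128 * X / (Real.log X) ^ 4 := by ring
  -- the scales
  obtain ⟨J, hJ⟩ : ∃ J : ℕ, J = ⌊2 * Real.log (8 * X)⌋₊ + 1 := ⟨_, rfl⟩
  have hsub : (Ioc X (2 * X)).filter (fun n => ¬ RegB M K δ n) ⊆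
      (range J).biUnion (fun j => (Ioc X (2 * X)).filter
        (fun n => ρ * ((2 ^ j : ℕ) : ℝ) ≤ ((Ex.filter (fun x => n ≤ x + 2 ^ j ∧ x ≤ n + 2 ^ j)).card : ℝ))) := by
    intro n hn
    rw [mem_filter, mem_Ioc] at hn
    obtain ⟨⟨hXn, hnX⟩, hreg⟩ := hn
    unfold RegB at hreg
    push Not at hreg
    obtain ⟨a, b, hnear, hb, hpr⟩ := hreg
    have hcore := core M δ τ A K hM hδ hδ1 hτ hA hKA hKM X n hXn hnX (by omega) hL1 (by linarith)
      (by linarith) a b hnear hb hpr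
    obtain ⟨ℓ, hℓ⟩ : ∃ ℓ : ℝ, ℓ = b - a := ⟨_, rfl⟩
    obtain ⟨hn1, hn2, hn3⟩ := hnear
    rw [← hℓ] at hn1 hn2 hn3 hb hpr hcore
    have hXnR : (X : ℝ) < n := by exact_mod_cast hXn
    have hnXR : (n : ℝ) ≤ 2 * X := by exact_mod_cast hnX
    have hn0 : (0 : ℝ) < n := by linarith
    have hlog : Real.log X ≤ Real.log n := Real.log_le_log hX0 hXnR.le
    have hK0 : 0 < K := by linarith
    have hK1 : 1 ≤ K := by linarith
    have hℓlog : Real.log X ≤ ℓ := by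
      refine le_trans ?_ hb
      calc Real.log X ≤ Real.log n := hlog
        _ = (Real.log n) ^ (1 : ℝ) := (Real.rpow_one _).symm
        _ ≤ (Real.log n) ^ K := Real.rpow_le_rpow_of_exponent_le (by linarith) hK1
    have hℓ0 : 0 < ℓ := by linarith
    have hℓK : ℓ * (8 * M + 16) ≤ n := by
      rw [le_div_iff₀ hK0] at hn2
      exact (mul_le_mul_of_nonneg_left hKM hℓ0.le).trans hn2
    have hab := abs_le.1 hn3
    have hMℓ : ℓ ≤ M * ℓ := by nlinarith
    have hτ1 : τ ≤ 1 / 40 := by rw [hτ]; linarith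
    have hτℓ2 : 2 ≤ τ * ℓ := hLτ.trans (mul_le_mul_of_nonneg_left hℓlog hτ0.le)
    have hτℓ : τ * ℓ ≤ ℓ / 40 := by nlinarith
    have ha0 : 0 ≤ a - τ * ℓ := by nlinarith
    -- the scale of `(M+1) ℓ`
    obtain ⟨j, hj1, hj2⟩ : ∃ j : ℕ, (M + 1) * ℓ ≤ ((2 ^ j : ℕ) : ℝ) ∧ ((2 ^ j : ℕ) : ℝ) ≤ 2 * ((M + 1) * ℓ) := by
      have hz : 1 ≤ (M + 1) * ℓ := by nlinarith
      obtain ⟨k, hk1, hk2⟩ := exists_nat_pow_near hz (one_lt_two)
      refine ⟨k + 1, ?_, ?_⟩
      · push_cast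
        exact hk2.le
      · push_cast
        rw [pow_succ]
        linarith
    rw [mem_biUnion]
    refine ⟨j, ?_, ?_⟩
    · rw [mem_range, hJ, Nat.lt_succ_iff]
      apply Nat.le_floor
      have h1 : ((2 ^ j : ℕ) : ℝ) ≤ 8 * X := by nlinarith
      push_cast at h1
      have h2 := Real.log_le_log (by positivity) h1
      rw [Real.log_pow] at h2
      have h3 := Real.log_two_gt_d9
      have h4 : (0 : ℝ) ≤ j := Nat.cast_nonneg _
      nlinarith
    · rw [mem_filter, mem_Ioc]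
      refine ⟨⟨hXn, hnX⟩, ?_⟩
      have h1 : Icc ⌈a - τ * ℓ⌉₊ ⌊a⌋₊ ⊆ Ex.filter (fun x => n ≤ x + 2 ^ j ∧ x ≤ n + 2 ^ j) := by
        intro x hx
        rw [mem_Icc] at hx
        have hx1 : a - τ * ℓ ≤ x := (Nat.le_ceil _).trans (by exact_mod_cast hx.1)
        have hx2 : (x : ℝ) ≤ a := (by exact_mod_cast hx.2 : (x : ℝ) ≤ (⌊a⌋₊ : ℝ)).trans
          (Nat.floor_le (by linarith))
        obtain ⟨q1, q2, q3⟩ := hcore x hx1 hx2
        rw [mem_filter, hEx, mem_filter, mem_Ioc]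
        rw [← hY] at q1 q2
        refine ⟨⟨⟨q1, q2⟩, q3⟩, ?_, ?_⟩
        · have : (n : ℝ) ≤ ((x + 2 ^ j : ℕ) : ℝ) := by
            push_cast
            push_cast at hj1
            nlinarith
          exact_mod_cast this
        · have : (x : ℝ) ≤ ((n + 2 ^ j : ℕ) : ℝ) := by
            push_cast
            push_cast at hj1
            nlinarith
          exact_mod_cast this
      have h2 : τ * ℓ / 2 ≤ ((Icc ⌈a - τ * ℓ⌉₊ ⌊a⌋₊).card : ℝ) := by
        rw [Nat.card_Icc]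
        have h3 : (⌈a - τ * ℓ⌉₊ : ℝ) < a - τ * ℓ + 1 := Nat.ceil_lt_add_one ha0
        have h4 : a < (⌊a⌋₊ : ℝ) + 1 := Nat.lt_floor_add_one a
        have h5 : ⌈a - τ * ℓ⌉₊ ≤ ⌊a⌋₊ + 1 := by
          have : (⌈a - τ * ℓ⌉₊ : ℝ) < ((⌊a⌋₊ + 1 : ℕ) : ℝ) := by
            push_cast
            linarith
          exact_mod_cast this.le
        rw [Nat.cast_sub h5]
        push_cast
        linarith
      have h3 : ((Icc ⌈a - τ * ℓ⌉₊ ⌊a⌋₊).card : ℝ) ≤
          ((Ex.filter (fun x => n ≤ x + 2 ^ j ∧ x ≤ n + 2 ^ j)).card : ℝ) := by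
        exact_mod_cast card_le_card h1
      have h4 : ρ * ((2 ^ j : ℕ) : ℝ) ≤ τ * ℓ / 2 := by
        calc ρ * ((2 ^ j : ℕ) : ℝ) ≤ ρ * (2 * ((M + 1) * ℓ)) := mul_le_mul_of_nonneg_left hj2 hρ0.le
          _ = τ * ℓ / 2 := by
              rw [hρ]
              have : M + 1 ≠ 0 := by linarith
              field_simp
              ring
      linarith
  have hcard := (card_le_card hsub).trans card_biUnion_le
  have hcard' : (((Ioc X (2 * X)).filter (fun n => ¬ RegB M K δ n)).card : ℝ) ≤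
      ∑ j ∈ range J, (((Ioc X (2 * X)).filter
        (fun n => ρ * ((2 ^ j : ℕ) : ℝ) ≤ ((Ex.filter (fun x => n ≤ x + 2 ^ j ∧ x ≤ n + 2 ^ j)).card : ℝ))).card : ℝ) := by
    exact_mod_cast hcard
  refine hcard'.trans ?_
  have hterm : ∀ j ∈ range J, (((Ioc X (2 * X)).filter
        (fun n => ρ * ((2 ^ j : ℕ) : ℝ) ≤ ((Ex.filter (fun x => n ≤ x + 2 ^ j ∧ x ≤ n + 2 ^ j)).card : ℝ))).card : ℝ) ≤
      3 * Ex.card / ρ := fun j _ => dc Ex (Ioc X (2 * X)) (2 ^ j) Nat.one_le_two_pow ρ hρ0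
  refine (sum_le_sum hterm).trans ?_
  rw [sum_const, card_range, nsmul_eq_mul]
  have hJ1 : (J : ℝ) ≤ 4 * Real.log X := by
    rw [hJ]
    push_cast
    have h1 : (⌊2 * Real.log (8 * X)⌋₊ : ℝ) ≤ 2 * Real.log (8 * X) := by
      apply Nat.floor_le
      have : 0 ≤ Real.log (8 * X) := Real.log_nonneg (by linarith)
      linarith
    have h9 : Real.log (8 * (X : ℝ)) = Real.log 8 + Real.log X := Real.log_mul (by norm_num) hX0.ne'
    have h8 : Real.log 8 ≤ 3 := by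
      rw [show (8 : ℝ) = 2 ^ 3 by norm_num, Real.log_pow]
      have := Real.log_two_lt_d9
      push_cast
      linarith
    linarith
  have hLpos : 0 < Real.log X := by linarith
  calc (J : ℝ) * (3 * Ex.card / ρ) ≤ (4 * Real.log X) * (3 * (128 * X / (Real.log X) ^ 4) / ρ) := by
        gcongr
    _ = (3 * 128 * 4 / ρ) * (X / (Real.log X) ^ 3) := by
        field_simp
    _ ≤ Real.log X * (X / (Real.log X) ^ 3) := mul_le_mul_of_nonneg_right hL3 (by positivity)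
    _ = X / (Real.log X) ^ 2 := by
        field_simp

open Classical in
theorem upN (M δ : ℝ) (hM : 1 ≤ M) (hδ : 0 < δ) : ∃ K : ℝ, 0 < K ∧ ∃ X0 : ℕ, ∀ X : ℕ, X0 ≤ X →
    (((Ioc X (2 * X)).filter (fun n => ¬ RegB M K δ n)).card : ℝ) ≤ X / (Real.log X) ^ 2 := by
  obtain ⟨K, hK, X0, hX0⟩ := upN1 M (min δ 1) hM (lt_min hδ one_pos) (min_le_right _ _)
  refine ⟨K, by linarith, max X0 3, ?_⟩
  intro X hX
  refine le_trans ?_ (hX0 X ((le_max_left _ _).trans hX))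
  have hX3 : 3 ≤ X := (le_max_right _ _).trans hX
  have : (Ioc X (2 * X)).filter (fun n => ¬ RegB M K δ n) ⊆
      (Ioc X (2 * X)).filter (fun n => ¬ RegB M K (min δ 1) n) := by
    intro n hn
    rw [mem_filter, mem_Ioc] at hn ⊢
    refine ⟨hn.1, fun h => hn.2 ?_⟩
    intro a b hnear hb
    refine (h a b hnear hb).trans ?_
    have hn3 : (3 : ℝ) ≤ n := by
      have : 3 ≤ n := by omega
      exact_mod_cast this
    have hlog1 : 1 ≤ Real.log n := by
      rw [Real.le_log_iff_exp_le (by linarith)]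
      have := Real.exp_one_lt_d9
      linarith
    have hℓ1 : 1 ≤ b - a := (Real.one_le_rpow hlog1 (by linarith)).trans hb
    apply mul_le_mul_of_nonneg_right
    · have := min_le_left δ 1
      linarith
    · apply div_nonneg (by linarith)
      apply Real.log_nonneg
      nlinarith
  exact_mod_cast card_le_card this

end Pool.Agent.H67.RG
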