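import Pool.Agent.H67.RG.Dn

/-!
# Module Vb: the second moment in intervals of length a power of the logarithm
-/

set_option autoImplicit false

namespace Pool.Agent.H67.RG

open Finset Pool.Agent.H5.Short Pool.Agent.H24.AB

/-- the first moment -/
private theorem first (X h : ℕ) : ∑ n ∈ Icc X (2 * X), pc n h ≤ h * pc X (X + h) := by
  classical
  have h1 : ∀ n ∈ Icc X (2 * X), pc n h = ((Ioc X (X + (X + h))).filter
      (fun p => p.Prime ∧ n < p ∧ p ≤ n + h)).card := by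
    intro n hn
    rw [mem_Icc] at hn
    unfold pc
    congr 1
    ext p
    simp only [mem_filter, mem_Ioc]
    constructor
    · rintro ⟨⟨a, b⟩, c⟩
      exact ⟨⟨by omega, by omega⟩, c, a, b⟩
    · rintro ⟨_, c, a, b⟩
      exact ⟨⟨a, b⟩, c⟩
  rw [sum_congr rfl h1]
  simp_rw [card_filter]
  rw [sum_comm]
  have h2 : ∀ p ∈ Ioc X (X + (X + h)), (∑ n ∈ Icc X (2 * X), if p.Prime ∧ n < p ∧ p ≤ n + h then 1 else 0) ≤
      if p.Prime then h else 0 := by
    intro p _
    by_cases hp : p.Prime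
    · rw [if_pos hp, ← card_filter]
      have : (Icc X (2 * X)).filter (fun n => p.Prime ∧ n < p ∧ p ≤ n + h) ⊆ Ico (p - h) p := by
        intro n hn
        rw [mem_filter, mem_Icc] at hn
        rw [mem_Ico]
        omega
      refine (card_le_card this).trans ?_
      rw [Nat.card_Ico]
      omega
    · rw [if_neg hp]
      simp [hp]
  refine (sum_le_sum h2).trans (le_of_eq ?_)
  rw [← sum_filter, sum_const, smul_eq_mul, mul_comm]
  rfl

theorem vb (δ θ : ℝ) (hδ : 0 < δ) (hδ1 : δ ≤ 1 / 2) (hθ : 0 ≤ θ) (hθ1 : θ ≤ 1) : ∃ A : ℝ, 2 ≤ A ∧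
    ∃ X0 : ℕ, ∀ X : ℕ, X0 ≤ X → ∀ h : ℕ, (Real.log ((2 * X : ℕ) : ℝ)) ^ A ≤ h → (h : ℝ) ≤ √X →
    (1 + θ) * (1 - δ) * Real.log X ≤ Real.log (X * h) →
    ∑ n ∈ Icc X (2 * X), (pc n h : ℝ) ^ 2 ≤
      (4 + 20 * δ) / ((1 + θ) * (1 - δ)) * ((h : ℝ) ^ 2 * X / (Real.log X) ^ 2) := by
  classical
  obtain ⟨A, hA, X1, hX1⟩ := ub_card δ 4 hδ (by norm_num)
  obtain ⟨X2, hX2⟩ := pnt_unif (1 / 2) δ (by norm_num) hδ
  have hlogtend : Filter.Tendsto (fun n : ℕ => Real.log (n : ℝ)) Filter.atTop Filter.atTop :=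
    Real.tendsto_log_atTop.comp tendsto_natCast_atTop_atTop
  obtain ⟨X3, hX3⟩ := Filter.eventually_atTop.mp (hlogtend.eventually_ge_atTop (2 / δ + 2))
  obtain ⟨X4, hX4⟩ := exists_nat_ge (1 / δ ^ 2)
  refine ⟨max A 2, le_max_right _ _, max (max (max X1 X2) (max X3 X4)) 4, ?_⟩
  intro X hX h hh1 hh2 hXh
  obtain ⟨q, hq⟩ : ∃ q : ℝ, q = (1 + θ) * (1 - δ) := ⟨_, rfl⟩
  have hq0 : 0 < q := by rw [hq]; exact mul_pos (by linarith) (by linarith)
  have hq2 : q ≤ 2 := by rw [hq]; nlinarith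
  rw [← hq] at hXh ⊢
  have hXX1 : X1 ≤ X := le_trans (le_trans (le_trans (le_max_left _ _) (le_max_left _ _)) (le_max_left _ _)) hX
  have hXX2 : X2 ≤ X := le_trans (le_trans (le_trans (le_max_right _ _) (le_max_left _ _)) (le_max_left _ _)) hX
  have hXX3 : X3 ≤ X := le_trans (le_trans (le_trans (le_max_left _ _) (le_max_right _ _)) (le_max_left _ _)) hX
  have hXX4 : X4 ≤ X := le_trans (le_trans (le_trans (le_max_right _ _) (le_max_right _ _)) (le_max_left _ _)) hX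
  have hX4' : 4 ≤ X := le_trans (le_max_right _ _) hX
  have hXR : (4 : ℝ) ≤ X := by exact_mod_cast hX4'
  have hX0 : (0 : ℝ) < X := by linarith
  have hL := hX3 X hXX3
  have hL' : 2 / δ + 2 ≤ Real.log X := hL
  have h2δ : 0 < 2 / δ := by positivity
  have hL2 : 2 ≤ Real.log X := by linarith
  have hL0 : 0 < Real.log X := by linarith
  have hδL : 2 ≤ δ * Real.log X := by
    have : 2 / δ ≤ Real.log X := by linarith
    rw [div_le_iff₀ hδ] at this
    linarith
  have hXδ : 1 / δ ^ 2 ≤ X := hX4.trans (by exact_mod_cast hXX4)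
  have hsq : √X ≤ δ * X := by
    rw [Real.sqrt_le_left (by positivity)]
    rw [div_le_iff₀ (by positivity)] at hXδ
    nlinarith
  have hhδ : (h : ℝ) ≤ δ * X := hh2.trans hsq
  have hhX : h ≤ X := by
    have : (h : ℝ) ≤ X := hhδ.trans (by nlinarith)
    exact_mod_cast this
  set L := Real.log X with hLdef
  -- the exceptional set
  set Ex := (Ioc X (2 * X)).filter (fun n => ¬ UB δ A n) with hEx
  have hExc : (Ex.card : ℝ) ≤ X / L ^ 4 := by
    have h1 := hX1 X hXX1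
    rw [show (4 : ℝ) = ((4 : ℕ) : ℝ) by norm_num, Real.rpow_natCast] at h1
    exact h1
  -- pointwise
  have hpt : ∀ n ∈ Icc X (2 * X), (pc n h : ℝ) ^ 2 ≤ (4 + δ) * ((h : ℝ) / (q * L)) * pc n h +
      (if n ∈ insert X Ex then (h : ℝ) ^ 2 else 0) := by
    intro n hn
    rw [mem_Icc] at hn
    by_cases hnE : n ∈ insert X Ex
    · rw [if_pos hnE]
      have h1 : (pc n h : ℝ) ≤ h := by
        have : pc n h ≤ h := by
          unfold pc
          refine (card_filter_le _ _).trans ?_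
          rw [Nat.card_Ioc]
          omega
        exact_mod_cast this
      have h2 : (0 : ℝ) ≤ pc n h := Nat.cast_nonneg _
      have h3 : (pc n h : ℝ) ^ 2 ≤ (h : ℝ) ^ 2 := pow_le_pow_left₀ h2 h1 2
      have h4 : 0 ≤ (4 + δ) * ((h : ℝ) / (q * L)) * pc n h := by positivity
      linarith
    · rw [if_neg hnE, add_zero]
      rw [mem_insert, not_or] at hnE
      have hnX : X < n := lt_of_le_of_ne hn.1 (Ne.symm hnE.1)
      have hUB : UB δ A n := by
        by_contra hcon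
        exact hnE.2 (by rw [hEx, mem_filter, mem_Ioc]; exact ⟨⟨hnX, hn.2⟩, hcon⟩)
      have hnR : (X : ℝ) < n := by exact_mod_cast hnX
      have hnR2 : (n : ℝ) ≤ ((2 * X : ℕ) : ℝ) := by exact_mod_cast hn.2
      have hlogn : L ≤ Real.log n := Real.log_le_log hX0 hnR.le
      have hlogn2 : Real.log n ≤ Real.log ((2 * X : ℕ) : ℝ) := Real.log_le_log (by linarith) hnR2
      have h1 : (Real.log n) ^ A ≤ h := by
        calc (Real.log n) ^ A ≤ (Real.log n) ^ (max A 2) :=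
              Real.rpow_le_rpow_of_exponent_le (by linarith) (le_max_left _ _)
          _ ≤ (Real.log ((2 * X : ℕ) : ℝ)) ^ (max A 2) :=
              Real.rpow_le_rpow (by linarith) hlogn2 (by positivity)
          _ ≤ h := hh1
      have h2 : (h : ℝ) ≤ n := by
        have : (h : ℝ) ≤ X := by exact_mod_cast hhX
        linarith
      have h3 := hUB h h1 h2
      rw [count_eq n h (Nat.cast_nonneg _), Nat.floor_natCast] at h3
      have h4 : 1 ≤ (h : ℝ) := by
        refine le_trans ?_ h1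
        exact Real.one_le_rpow (by linarith) hA.le
      have h5 : (4 + δ) * ((h : ℝ) / Real.log (n * h)) ≤ (4 + δ) * (h / (q * L)) := by
        apply mul_le_mul_of_nonneg_left _ (by linarith)
        apply div_le_div_of_nonneg_left (by linarith) (by positivity)
        refine hXh.trans (Real.log_le_log (by positivity) ?_)
        exact mul_le_mul_of_nonneg_right hnR.le (by linarith)
      have h6 : (0 : ℝ) ≤ pc n h := Nat.cast_nonneg _
      calc (pc n h : ℝ) ^ 2 = pc n h * pc n h := by ring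
        _ ≤ ((4 + δ) * (h / (q * L))) * pc n h := mul_le_mul_of_nonneg_right (h3.trans h5) h6
        _ = _ := by ring
  refine (sum_le_sum hpt).trans ?_
  rw [sum_add_distrib, ← mul_sum]
  have hfirst : ∑ n ∈ Icc X (2 * X), (pc n h : ℝ) ≤ h * ((1 + δ) * ((1 + δ) * X) / L) := by
    have h1 : ∑ n ∈ Icc X (2 * X), (pc n h : ℝ) ≤ (h : ℝ) * pc X (X + h) := by exact_mod_cast first X h
    refine h1.trans (mul_le_mul_of_nonneg_left ?_ (Nat.cast_nonneg _))
    have h2 := (hX2 X (X + h) hXX2 (by push_cast; linarith [(Nat.cast_nonneg h : (0 : ℝ) ≤ (h : ℝ))]) (by omega)).2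
    rw [le_div_iff₀ hL0]
    refine h2.trans ?_
    push_cast
    apply mul_le_mul_of_nonneg_left _ (by linarith)
    linarith
  have hexc2 : ∑ n ∈ Icc X (2 * X), (if n ∈ insert X Ex then (h : ℝ) ^ 2 else 0) ≤ (h : ℝ) ^ 2 * (X / L ^ 4 + 1) := by
    rw [← sum_filter, sum_const, nsmul_eq_mul, mul_comm]
    apply mul_le_mul_of_nonneg_left _ (by positivity)
    have h1 : ((Icc X (2 * X)).filter (fun n => n ∈ insert X Ex)).card ≤ Ex.card + 1 := by
      refine (card_le_card (fun n hn => (mem_filter.1 hn).2)).trans (card_insert_le _ _)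
    have h2 : (((Icc X (2 * X)).filter (fun n => n ∈ insert X Ex)).card : ℝ) ≤ Ex.card + 1 := by exact_mod_cast h1
    linarith
  have hLX : L ^ 2 ≤ δ * X := by
    have h1 : L ^ 2 ≤ h := by
      calc L ^ 2 = L ^ (2 : ℝ) := by norm_cast
        _ ≤ L ^ (max A 2) := Real.rpow_le_rpow_of_exponent_le (by linarith) (le_max_right _ _)
        _ ≤ (Real.log ((2 * X : ℕ) : ℝ)) ^ (max A 2) := by
            apply Real.rpow_le_rpow hL0.le _ (by positivity)
            apply Real.log_le_log hX0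
            push_cast
            linarith
        _ ≤ h := hh1
    exact h1.trans hhδ
  have hz : 0 ≤ (h : ℝ) ^ 2 * X / L ^ 2 := by positivity
  have e1 : (4 + δ) * ((h : ℝ) / (q * L)) * (h * ((1 + δ) * ((1 + δ) * X) / L)) =
      (4 + δ) * (1 + δ) ^ 2 / q * ((h : ℝ) ^ 2 * X / L ^ 2) := by
    field_simp
  have e2 : (h : ℝ) ^ 2 * (X / L ^ 4 + 1) = (1 / L ^ 2 + L ^ 2 / X) * ((h : ℝ) ^ 2 * X / L ^ 2) := by
    field_simp
  have e3 : 1 / L ^ 2 ≤ δ := by
    rw [div_le_iff₀ (by positivity)]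
    nlinarith
  have e4 : L ^ 2 / X ≤ δ := by
    rw [div_le_iff₀ hX0]
    exact hLX
  have e5 : (4 + δ) * (1 + δ) ^ 2 ≤ 4 + 16 * δ := by
    nlinarith [mul_nonneg hδ.le hδ.le, mul_nonneg (mul_nonneg hδ.le hδ.le) (by linarith : (0 : ℝ) ≤ 1 - δ)]
  have e6 : (4 + δ) * (1 + δ) ^ 2 / q + (1 / L ^ 2 + L ^ 2 / X) ≤ (4 + 20 * δ) / q := by
    have h1 : (4 + δ) * (1 + δ) ^ 2 / q ≤ (4 + 16 * δ) / q := div_le_div_of_nonneg_right e5 hq0.le
    have h2 : 2 * δ ≤ 4 * δ / q := by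
      rw [le_div_iff₀ hq0]
      nlinarith
    have h3 : (4 + 16 * δ) / q + 4 * δ / q = (4 + 20 * δ) / q := by
      rw [← add_div]
      ring
    linarith
  calc (4 + δ) * ((h : ℝ) / (q * L)) * ∑ n ∈ Icc X (2 * X), (pc n h : ℝ) +
        ∑ n ∈ Icc X (2 * X), (if n ∈ insert X Ex then (h : ℝ) ^ 2 else 0)
      ≤ (4 + δ) * ((h : ℝ) / (q * L)) * (h * ((1 + δ) * ((1 + δ) * X) / L)) + (h : ℝ) ^ 2 * (X / L ^ 4 + 1) := by
        apply add_le_add _ hexc2
        exact mul_le_mul_of_nonneg_left hfirst (by positivity)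
    _ = ((4 + δ) * (1 + δ) ^ 2 / q + (1 / L ^ 2 + L ^ 2 / X)) * ((h : ℝ) ^ 2 * X / L ^ 2) := by
        rw [e1, e2]
        ring
    _ ≤ (4 + 20 * δ) / q * ((h : ℝ) ^ 2 * X / L ^ 2) := mul_le_mul_of_nonneg_right e6 hz

end Pool.Agent.H67.RG
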