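import Pool.Agent.H67.RG.RegN
import Pool.Agent.H67.RG.UpN
import Pool.Agent.H67.RG.LowB
import Pool.Agent.H67.RG.PairE
import Pool.Agent.H67.RG.Mono
import Pool.Agent.H67.RG.Cnt3
import Pool.Agent.H67.RG.Vb

/-!
# Module Fin: assembly

PROOF. MONOTONICITY: for `0 < K ≤ K'`, `log n ≥ 1`: `Near M K' n a b → Near M K n a b` and `RegA M K n → RegA M K' n` etc. (`RegA`: `b - a ≥ 0`; `RegB`:
`(log n)^K ≤ (log n)^K'`; `RegC`, `RichH`: direct).
`κ = 2`, `h = ⌈2 log X⌉₊`, `s = 0`: `regN` with `η1` small (`η1 ≤ η/4`, and its `RegC M K η1` implies `RegC M K η`), `upN M η`, `lowB c c' δ0`. `K` = large.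
(i) integers not regular: `idx ∈ BadReg` (`≤ h |BadReg| ≤ η1 X` by `int_bad`) or `¬ RegB` (`≤ X/(log X)²`).
(ii) primes not regular and rich: `idx ∈ BadReg`: `pr_bad` and Cauchy-Schwarz with `fb_energy`: `≤ (h/log X) √(|BadReg| C X/h) ≤ √(η1 C) X/log X`; `¬ RegB`: `X/(log X)²`;
`idx ∈ BadLow`: `pr_bad`: `≤ (h/log X)(c+c'+δ0) X/h`.
(iii) `H = ⌈(log X)^A⌉₊` with the `A` of `ub_card δ0 4`; shift `s` for which at most `X/(H (log X)^4)` of the starting points `s + i H`, `i ∈ Gs`, violate `UB`; so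
`∑_{Gs} fb² ≤ (4 + 2 δ0) ∑_{Gs} fb + X/(H (log X)^4) (2 log X)² ≤ K2' X/H`; `cnt` with `Bad = BadLow` (`lowB` for `H`), `β = c + c' + δ0`, `δ = δ0`: `((1 - c - c' - 2δ0)²/K2') X` integers
with `idx ∉ BadLow`, so `RichH (K H)`; remove the non-regular ones of (i).
-/

set_option autoImplicit false

namespace Pool.Agent.H67.RG

open Finset Pool.Agent.H5.Short

/-- a power of the logarithm dominates -/
theorem ev_small (A : ℝ) (hA : 0 ≤ A) : ∃ X0 : ℕ, ∀ X : ℕ, X0 ≤ X →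
    (Real.log ((2 * X : ℕ) : ℝ)) ^ A + 1 ≤ √X := by
  have h := isLittleO_log_rpow_rpow_atTop (s := 1 / 2) A (by norm_num)
  have hb := h.bound (c := 1 / 4) (by norm_num)
  have hb2 : ∀ᶠ X : ℕ in Filter.atTop, ‖(Real.log (((2 * X : ℕ) : ℝ))) ^ A‖ ≤ 1 / 4 * ‖(((2 * X : ℕ) : ℝ)) ^ (1 / 2 : ℝ)‖ := by
    have ht : Filter.Tendsto (fun X : ℕ => (((2 * X : ℕ) : ℝ))) Filter.atTop Filter.atTop :=
      tendsto_natCast_atTop_atTop.comp (Filter.tendsto_id.const_mul_atTop' (by norm_num : 0 < 2))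
    exact ht.eventually hb
  obtain ⟨X1, hX1⟩ := Filter.eventually_atTop.mp hb2
  refine ⟨max X1 16, ?_⟩
  intro X hX
  have h1 := hX1 X ((le_max_left _ _).trans hX)
  have hX16 : 16 ≤ X := (le_max_right _ _).trans hX
  have hXR : (16 : ℝ) ≤ X := by exact_mod_cast hX16
  have hlog : 0 ≤ Real.log (((2 * X : ℕ) : ℝ)) := Real.log_natCast_nonneg _
  rw [Real.norm_of_nonneg (Real.rpow_nonneg hlog _), Real.norm_of_nonneg (Real.rpow_nonneg (Nat.cast_nonneg _) _),
    ← Real.sqrt_eq_rpow] at h1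
  have h2 : √(((2 * X : ℕ) : ℝ)) ≤ 2 * √(X : ℝ) := by
    rw [Real.sqrt_le_left (by positivity), mul_pow, Real.sq_sqrt (by positivity)]
    push_cast
    linarith
  have h3 : 4 ≤ √(X : ℝ) := by
    rw [Real.le_sqrt (by norm_num) (by positivity)]
    linarith
  linarith

open Classical in
/-- parts (i) and (ii) -/
theorem fin12 (M c c' η θ : ℝ) (hM : 1 ≤ M) (hc : 0 ≤ c) (hc' : 0 ≤ c')
    (hcc : c + c' < 1) (hη : 0 < η) (hθ : 0 < θ) : ∃ K : ℝ, 0 < K ∧ ∃ X0 : ℕ, ∀ X : ℕ, X0 ≤ X →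
    ((((Ioc X (2 * X)).filter (fun n => ¬ (RegA M K n ∧ RegB M K η n ∧ RegC M K η n))).card : ℝ) ≤ θ * X) ∧
    ((((Ioc X (2 * X)).filter (fun p => p.Prime ∧
      ¬ (RegA M K p ∧ RegB M K η p ∧ RegC M K η p ∧ Rich K c c' p))).card : ℝ) ≤
        (c + c' + θ) * (X / Real.log X)) := by
  obtain ⟨C, hC, hen⟩ := fb_energy
  obtain ⟨η1, hη1⟩ : ∃ η1 : ℝ, η1 = min (min (θ / 4) η) ((θ / 4) ^ 2 / C) := ⟨_, rfl⟩
  have hη10 : 0 < η1 := by rw [hη1]; exact lt_min (lt_min (by positivity) hη) (by positivity)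
  have hη1a : η1 ≤ θ / 4 := by rw [hη1]; exact (min_le_left _ _).trans (min_le_left _ _)
  have hη1c : η1 ≤ η := by rw [hη1]; exact (min_le_left _ _).trans (min_le_right _ _)
  have hη1b : η1 * C ≤ (θ / 4) ^ 2 := by
    have : η1 ≤ (θ / 4) ^ 2 / C := by rw [hη1]; exact min_le_right _ _
    rwa [le_div_iff₀ hC] at this
  obtain ⟨K1, hK1, X1, hX1⟩ := regN M η1 2 hM hη10 le_rfl
  obtain ⟨K2, hK2, X2, hX2⟩ := upN M η hM hη
  obtain ⟨K3, hK3, X3, hX3⟩ := lowB c c' (θ / 4) hc hc' (by linarith) (by linarith) (by positivity)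
  obtain ⟨X4, hX4⟩ := ev_small 2 (by norm_num)
  obtain ⟨X5, hX5⟩ := ev_small 1 (by norm_num)
  have hlogtend : Filter.Tendsto (fun n : ℕ => Real.log (n : ℝ)) Filter.atTop Filter.atTop :=
    Real.tendsto_log_atTop.comp tendsto_natCast_atTop_atTop
  obtain ⟨X6, hX6⟩ := Filter.eventually_atTop.mp (hlogtend.eventually_ge_atTop (4 / θ + 4))
  obtain ⟨K, hKd⟩ : ∃ K : ℝ, K = K1 + K2 + 4 * K3 := ⟨_, rfl⟩
  have hKa : K1 ≤ K := by linarith
  have hKb : K2 ≤ K := by linarith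
  have hKc : 4 * K3 ≤ K := by linarith
  refine ⟨K, by linarith, max (max (max X1 X2) (max X3 X4)) (max (max X5 X6) 16), ?_⟩
  intro X hX
  have g1 : X1 ≤ X := le_trans (le_trans (le_trans (le_max_left _ _) (le_max_left _ _)) (le_max_left _ _)) hX
  have g2 : X2 ≤ X := le_trans (le_trans (le_trans (le_max_right _ _) (le_max_left _ _)) (le_max_left _ _)) hX
  have g3 : X3 ≤ X := le_trans (le_trans (le_trans (le_max_left _ _) (le_max_right _ _)) (le_max_left _ _)) hX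
  have g4 : X4 ≤ X := le_trans (le_trans (le_trans (le_max_right _ _) (le_max_right _ _)) (le_max_left _ _)) hX
  have g5 : X5 ≤ X := le_trans (le_trans (le_trans (le_max_left _ _) (le_max_left _ _)) (le_max_right _ _)) hX
  have g6 : X6 ≤ X := le_trans (le_trans (le_trans (le_max_right _ _) (le_max_left _ _)) (le_max_right _ _)) hX
  have g7 : 16 ≤ X := le_trans (le_trans (le_max_right _ _) (le_max_right _ _)) hX
  have hXR : (16 : ℝ) ≤ X := by exact_mod_cast g7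
  have hX0 : (0 : ℝ) < X := by linarith
  have hL := hX6 X g6
  have h4η : 0 < 4 / θ := by positivity
  have hL4 : 4 ≤ Real.log X := by linarith
  have hL0 : 0 < Real.log X := by linarith
  have hLη : 4 ≤ θ * Real.log X := by
    have : 4 / θ ≤ Real.log X := by linarith
    rw [div_le_iff₀ hθ] at this
    linarith
  have hlog2X : Real.log X ≤ Real.log ((2 * X : ℕ) : ℝ) := by
    apply Real.log_le_log hX0
    push_cast
    linarith
  have hX4' := hX4 X g4
  rw [Real.rpow_two] at hX4'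
  obtain ⟨h, hh⟩ : ∃ h : ℕ, h = ⌈2 * Real.log X⌉₊ := ⟨_, rfl⟩
  have hh1 : 2 * Real.log X ≤ h := by rw [hh]; exact Nat.le_ceil _
  have hh2 : (h : ℝ) < 2 * Real.log X + 1 := by rw [hh]; exact Nat.ceil_lt_add_one (by positivity)
  have hh3 : (h : ℝ) ≤ √X := by nlinarith
  have hh0 : 1 ≤ h := by
    have : (0 : ℝ) < h := by linarith
    exact_mod_cast this
  have hhR : (0 : ℝ) < h := by exact_mod_cast hh0
  have h2X : 2 * h ≤ X := by
    have h1 : √(X : ℝ) * 2 ≤ X := by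
      have h2 : 4 ≤ √(X : ℝ) := by
        rw [Real.le_sqrt (by norm_num) (by positivity)]
        linarith
      have h3 : √(X : ℝ) * √(X : ℝ) = X := Real.mul_self_sqrt (by positivity)
      nlinarith
    have : 2 * (h : ℝ) ≤ X := by linarith
    exact_mod_cast this
  obtain ⟨BadR, hBR1, hBR2⟩ := hX1 X g1 h 0 hh1 (by linarith) hh0
  obtain ⟨BadL, hBL1, hBL2⟩ := hX3 X g3 h 0 hh1 hh3 hh0
  have hup := hX2 X g2
  have hlog3 : Real.log ((3 * X : ℕ) : ℝ) ≤ h := by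
    refine le_trans ?_ hh1
    have : Real.log ((3 * X : ℕ) : ℝ) ≤ Real.log ((X : ℝ) ^ 2) := by
      apply Real.log_le_log
      · push_cast; linarith
      · push_cast; nlinarith
    rw [Real.log_pow] at this
    push_cast at this ⊢
    exact this
  have hE := hen X h 0 (by omega) hlog3 (by omega) hh0 BadR
  have hregular : ∀ n, X < n → n ≤ 2 * X → idx h 0 n ∉ BadR → RegB M K2 η n →
      RegA M K n ∧ RegB M K η n ∧ RegC M K η n := by
    intro n hn1 hn2 hn3 hn4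
    obtain ⟨r1, r2⟩ := hBR2 n hn1 hn2 hn3
    have hlogn : Real.log X ≤ Real.log n := Real.log_le_log hX0 (by exact_mod_cast hn1.le)
    exact ⟨RegA_mono hK1 hKa (by linarith) r1, RegB_mono hK2 hKb (by linarith) hn4,
      RegC_mono hK1 hKa hη1c (by linarith) r2⟩
  have hrich : ∀ n, X < n → n ≤ 2 * X → idx h 0 n ∉ BadL → Rich K c c' n := by
    intro n hn1 hn2 hn3
    have hlogn : Real.log X ≤ Real.log n := Real.log_le_log hX0 (by exact_mod_cast hn1.le)
    refine RichH_mono ?_ (hBL2 n hn1 hn2 hn3)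
    calc K3 * h ≤ K3 * (4 * Real.log X) := mul_le_mul_of_nonneg_left (by linarith) hK3.le
      _ = 4 * K3 * Real.log X := by ring
      _ ≤ K * Real.log n := mul_le_mul hKc hlogn hL0.le (by linarith)
  have hXL : (X : ℝ) / (Real.log X) ^ 2 ≤ θ / 4 * (X / Real.log X) := by
    rw [div_le_iff₀ (by positivity)]
    have e : θ / 4 * ((X : ℝ) / Real.log X) * (Real.log X) ^ 2 = (θ * Real.log X / 4) * X := by
      field_simp
    rw [e]
    nlinarith
  have hXL2 : (X : ℝ) / Real.log X ≤ X / 4 := div_le_div_of_nonneg_left hX0.le (by norm_num) hL4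
  constructor
  · have hsub : (Ioc X (2 * X)).filter (fun n => ¬ (RegA M K n ∧ RegB M K η n ∧ RegC M K η n)) ⊆
        (Ioc X (2 * X)).filter (fun n => idx h 0 n ∈ BadR) ∪
        (Ioc X (2 * X)).filter (fun n => ¬ RegB M K2 η n) := by
      intro n hn
      rw [mem_filter, mem_Ioc] at hn
      rw [mem_union, mem_filter, mem_filter, mem_Ioc]
      by_contra hcon
      push Not at hcon
      exact hn.2 (hregular n hn.1.1 hn.1.2 (hcon.1 hn.1) (hcon.2 hn.1))
    have h1 := (card_le_card hsub).trans (card_union_le _ _)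
    have h2 : ((((Ioc X (2 * X)).filter (fun n => ¬ (RegA M K n ∧ RegB M K η n ∧ RegC M K η n))).card : ℕ) : ℝ) ≤
        (((Ioc X (2 * X)).filter (fun n => idx h 0 n ∈ BadR)).card : ℝ) +
        (((Ioc X (2 * X)).filter (fun n => ¬ RegB M K2 η n)).card : ℝ) := by exact_mod_cast h1
    have h3 := int_bad X h 0 hh0 hh0 h2X BadR
    have h4 : θ / 4 * ((X : ℝ) / Real.log X) ≤ θ / 4 * (X / 4) := mul_le_mul_of_nonneg_left hXL2 (by positivity)
    nlinarith
  · have hsub : (Ioc X (2 * X)).filter (fun p => p.Prime ∧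
        ¬ (RegA M K p ∧ RegB M K η p ∧ RegC M K η p ∧ Rich K c c' p)) ⊆
        ((Ioc X (2 * X)).filter (fun p => p.Prime ∧ idx h 0 p ∈ BadR) ∪
        (Ioc X (2 * X)).filter (fun p => p.Prime ∧ idx h 0 p ∈ BadL)) ∪
        (Ioc X (2 * X)).filter (fun n => ¬ RegB M K2 η n) := by
      intro n hn
      rw [mem_filter, mem_Ioc] at hn
      rw [mem_union, mem_union, mem_filter, mem_filter, mem_filter, mem_Ioc]
      by_contra hcon
      push Not at hcon
      obtain ⟨⟨q1, q2⟩, q3⟩ := hcon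
      obtain ⟨r1, r2, r3⟩ := hregular n hn.1.1 hn.1.2 (q1 hn.1 hn.2.1) (q3 hn.1)
      exact hn.2.2 ⟨r1, r2, r3, hrich n hn.1.1 hn.1.2 (q2 hn.1 hn.2.1)⟩
    have h1 := (card_le_card hsub).trans ((card_union_le _ _).trans (Nat.add_le_add_right (card_union_le _ _) _))
    have h2 : ((((Ioc X (2 * X)).filter (fun p => p.Prime ∧
        ¬ (RegA M K p ∧ RegB M K η p ∧ RegC M K η p ∧ Rich K c c' p))).card : ℕ) : ℝ) ≤
        (((Ioc X (2 * X)).filter (fun p => p.Prime ∧ idx h 0 p ∈ BadR)).card : ℝ) +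
        (((Ioc X (2 * X)).filter (fun p => p.Prime ∧ idx h 0 p ∈ BadL)).card : ℝ) +
        (((Ioc X (2 * X)).filter (fun n => ¬ RegB M K2 η n)).card : ℝ) := by exact_mod_cast h1
    have h3 := pr_bad X h 0 (by omega) hh0 hh0 h2X BadR
    have h4 := pr_bad X h 0 (by omega) hh0 hh0 h2X BadL
    have h5 : ∑ i ∈ BadR, fb X h 0 i ≤ θ / 4 * (X / h) := by
      have h6 : (∑ i ∈ BadR, fb X h 0 i) ^ 2 ≤ (θ / 4 * (X / h)) ^ 2 := by
        refine (sq_sum_le_card_mul_sum_sq).trans ?_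
        have h7 : (BadR.card : ℝ) ≤ η1 * X / h := by
          rw [le_div_iff₀ hhR]
          exact hBR1
        calc (BadR.card : ℝ) * ∑ i ∈ BadR, fb X h 0 i ^ 2 ≤ (η1 * X / h) * (C * (X / h)) :=
              mul_le_mul h7 hE (sum_nonneg fun i _ => sq_nonneg _) (by positivity)
          _ = (η1 * C) * ((X / h) ^ 2) := by ring
          _ ≤ (θ / 4) ^ 2 * ((X / h) ^ 2) := mul_le_mul_of_nonneg_right hη1b (by positivity)
          _ = (θ / 4 * (X / h)) ^ 2 := by ring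
      exact (abs_le_of_sq_le_sq' h6 (by positivity)).2
    have h8 : (h : ℝ) / Real.log X * ∑ i ∈ BadR, fb X h 0 i ≤ θ / 4 * (X / Real.log X) := by
      calc (h : ℝ) / Real.log X * ∑ i ∈ BadR, fb X h 0 i ≤ h / Real.log X * (θ / 4 * (X / h)) :=
            mul_le_mul_of_nonneg_left h5 (by positivity)
        _ = θ / 4 * (X / Real.log X) := by field_simp
    have h9 : (h : ℝ) / Real.log X * ∑ i ∈ BadL, fb X h 0 i ≤ (c + c' + θ / 4) * (X / Real.log X) := by
      calc (h : ℝ) / Real.log X * ∑ i ∈ BadL, fb X h 0 i ≤ h / Real.log X * ((c + c' + θ / 4) * (X / h)) :=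
            mul_le_mul_of_nonneg_left hBL1 (by positivity)
        _ = (c + c' + θ / 4) * (X / Real.log X) := by field_simp
    have h10 : 0 ≤ (X : ℝ) / Real.log X := by positivity
    nlinarith

open Classical in
/-- part (iii), rich integers at large scales -/
private theorem fin3 (c c' η θ : ℝ) (hc : 0 ≤ c) (hc' : 0 ≤ c') (hcc : c + c' < 1) (hη : 0 < η)
    (hθ : 0 ≤ θ) (hθ1 : θ < 1 / 2) : ∃ K : ℝ, 0 < K ∧ ∃ X0 : ℕ, ∀ X : ℕ, X0 ≤ X →
    ((1 + θ) * (1 - c - c') ^ 2 / 4 - η) * X ≤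
      (((Ioc X (2 * X)).filter (fun n : ℕ => RichH (max ((Real.log n) ^ K) ((n : ℝ) ^ θ)) c c' n)).card : ℝ) := by
  obtain ⟨σ, hσ⟩ : ∃ σ : ℝ, σ = 1 - c - c' := ⟨_, rfl⟩
  have hσ0 : 0 < σ := by rw [hσ]; linarith
  have hσ1 : σ ≤ 1 := by rw [hσ]; linarith
  obtain ⟨δ, hδ⟩ : ∃ δ : ℝ, δ = min (min (σ / 2) (η / 5)) (1 / 2) := ⟨_, rfl⟩
  have hδ0 : 0 < δ := by rw [hδ]; exact lt_min (lt_min (by positivity) (by positivity)) (by norm_num)
  have hδ1 : δ ≤ 1 / 2 := by rw [hδ]; exact min_le_right _ _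
  have hδσ : δ ≤ σ / 2 := by rw [hδ]; exact (min_le_left _ _).trans (min_le_left _ _)
  have hδη : δ ≤ η / 5 := by rw [hδ]; exact (min_le_left _ _).trans (min_le_right _ _)
  have hq0 : 0 < (1 + θ) * (1 - δ) := mul_pos (by linarith) (by linarith)
  obtain ⟨A, hA, X1, hX1⟩ := vb δ θ hδ0 hδ1 hθ (by linarith)
  obtain ⟨K1, hK1, X2, hX2⟩ := rich_count c c' δ ((4 + 20 * δ) / ((1 + θ) * (1 - δ))) hc hc'
    (by linarith) (by linarith) hδ0 (by linarith) (by positivity)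
  obtain ⟨X3, hX3⟩ := ev_small A (by linarith)
  have hlogtend : Filter.Tendsto (fun n : ℕ => Real.log (n : ℝ)) Filter.atTop Filter.atTop :=
    Real.tendsto_log_atTop.comp tendsto_natCast_atTop_atTop
  obtain ⟨X4, hX4⟩ := Filter.eventually_atTop.mp (hlogtend.eventually_ge_atTop
    (2 * K1 * (2 : ℝ) ^ A + 2 + |Real.log (2 * K1)| / δ))
  have hpow : ∀ᶠ X : ℕ in Filter.atTop, 1 / K1 ≤ ((X : ℝ)) ^ (1 / 2 - θ) :=
    ((tendsto_rpow_atTop (by linarith : (0 : ℝ) < 1 / 2 - θ)).comp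
      (tendsto_natCast_atTop_atTop (R := ℝ))).eventually_ge_atTop _
  obtain ⟨X5, hX5⟩ := Filter.eventually_atTop.mp hpow
  refine ⟨A + 1, by linarith, max (max X1 X2) (max (max X3 X4) (max X5 16)), ?_⟩
  intro X hX
  have g1 : X1 ≤ X := le_trans (le_trans (le_max_left _ _) (le_max_left _ _)) hX
  have g2 : X2 ≤ X := le_trans (le_trans (le_max_right _ _) (le_max_left _ _)) hX
  have g3 : X3 ≤ X := le_trans (le_trans (le_trans (le_max_left _ _) (le_max_left _ _)) (le_max_right _ _)) hX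
  have g4 : X4 ≤ X := le_trans (le_trans (le_trans (le_max_right _ _) (le_max_left _ _)) (le_max_right _ _)) hX
  have g5 : X5 ≤ X := le_trans (le_trans (le_trans (le_max_left _ _) (le_max_right _ _)) (le_max_right _ _)) hX
  have g7 : 16 ≤ X := le_trans (le_trans (le_trans (le_max_right _ _) (le_max_right _ _)) (le_max_right _ _)) hX
  have hXR : (16 : ℝ) ≤ X := by exact_mod_cast g7
  have hX0 : (0 : ℝ) < X := by linarith
  have hL := hX4 X g4
  have h2A : 0 < (2 : ℝ) ^ A := Real.rpow_pos_of_pos (by norm_num) _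
  have hKA : 0 < 2 * K1 * (2 : ℝ) ^ A := by positivity
  have hKl : 0 ≤ |Real.log (2 * K1)| / δ := by positivity
  have hL2 : 2 ≤ Real.log X := by linarith
  have hL3 : Real.log (2 * K1) ≤ δ * Real.log X := by
    have h1 : |Real.log (2 * K1)| / δ ≤ Real.log X := by linarith
    rw [div_le_iff₀ hδ0] at h1
    have := le_abs_self (Real.log (2 * K1))
    linarith
  obtain ⟨LL, hLL⟩ : ∃ LL : ℝ, LL = Real.log ((2 * X : ℕ) : ℝ) := ⟨_, rfl⟩
  have hLL1 : Real.log X ≤ LL := by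
    rw [hLL]
    apply Real.log_le_log hX0
    push_cast
    linarith
  have hLL2 : LL ≤ 2 * Real.log X := by
    rw [hLL]
    have : Real.log ((2 * X : ℕ) : ℝ) = Real.log 2 + Real.log X := by
      push_cast
      exact Real.log_mul (by norm_num) hX0.ne'
    rw [this]
    have := Real.log_two_lt_d9
    linarith
  have hLLA : 0 ≤ LL ^ A := Real.rpow_nonneg (by linarith) _
  obtain ⟨h1, hh1⟩ : ∃ h1 : ℕ, h1 = ⌈LL ^ A⌉₊ := ⟨_, rfl⟩
  obtain ⟨h2, hh2⟩ : ∃ h2 : ℕ, h2 = ⌊(X : ℝ) ^ θ / K1⌋₊ := ⟨_, rfl⟩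
  obtain ⟨h, hh⟩ : ∃ h : ℕ, h = max h1 h2 := ⟨_, rfl⟩
  have hXθ : 0 < (X : ℝ) ^ θ := Real.rpow_pos_of_pos hX0 _
  have a1 : LL ^ A ≤ h1 := by rw [hh1]; exact Nat.le_ceil _
  have a2 : (h1 : ℝ) ≤ LL ^ A + 1 := by rw [hh1]; exact (Nat.ceil_lt_add_one hLLA).le
  have b1 : (h2 : ℝ) ≤ (X : ℝ) ^ θ / K1 := by rw [hh2]; exact Nat.floor_le (by positivity)
  have b2 : (X : ℝ) ^ θ / K1 < h2 + 1 := by rw [hh2]; exact Nat.lt_floor_add_one _
  have hhR : (h : ℝ) = max (h1 : ℝ) (h2 : ℝ) := by rw [hh]; push_cast; rfl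
  have c1 : (h1 : ℝ) ≤ h := by rw [hhR]; exact le_max_left _ _
  have c2 : (h2 : ℝ) ≤ h := by rw [hhR]; exact le_max_right _ _
  have hsq : (h : ℝ) ≤ √X := by
    rw [hhR]
    apply max_le
    · have := hX3 X g3
      rw [← hLL] at this
      linarith
    · refine b1.trans ?_
      have h3 := hX5 X g5
      rw [Real.sqrt_eq_rpow]
      calc (X : ℝ) ^ θ / K1 = (X : ℝ) ^ θ * (1 / K1) := by ring
        _ ≤ (X : ℝ) ^ θ * (X : ℝ) ^ (1 / 2 - θ) := mul_le_mul_of_nonneg_left h3 hXθ.le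
        _ = (X : ℝ) ^ (1 / 2 : ℝ) := by
            rw [← Real.rpow_add hX0]
            congr 1
            ring
  have hLA2 : LL ^ (2 : ℝ) ≤ LL ^ A := Real.rpow_le_rpow_of_exponent_le (by linarith) hA
  rw [Real.rpow_two] at hLA2
  have hh4 : 2 * Real.log X ≤ h := by nlinarith
  have hh0 : (1 : ℝ) ≤ h := by linarith
  have hlow : (X : ℝ) ^ θ / (2 * K1) ≤ h := by
    have e : (X : ℝ) ^ θ / (2 * K1) = ((X : ℝ) ^ θ / K1) / 2 := by
      field_simp
    rw [e]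
    by_cases h5 : (X : ℝ) ^ θ / K1 < 2
    · linarith
    · push Not at h5
      linarith
  have hXh : (1 + θ) * (1 - δ) * Real.log X ≤ Real.log (X * h) := by
    have h5 : Real.log (X * ((X : ℝ) ^ θ / (2 * K1))) ≤ Real.log (X * h) :=
      Real.log_le_log (by positivity) (mul_le_mul_of_nonneg_left hlow hX0.le)
    rw [Real.log_mul hX0.ne' (by positivity), Real.log_div hXθ.ne' (by positivity), Real.log_rpow hX0] at h5
    nlinarith [mul_nonneg hθ (mul_nonneg hδ0.le (by linarith : (0 : ℝ) ≤ Real.log X))]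
  have hV := hX1 X g1 h (by rw [← hLL]; linarith) hsq hXh
  have hR := hX2 X g2 h hh4 hsq hV
  have hsub : (Ioc X (2 * X)).filter (fun n => RichH (K1 * h) c c' n) ⊆
      (Ioc X (2 * X)).filter (fun n : ℕ => RichH (max ((Real.log n) ^ (A + 1)) ((n : ℝ) ^ θ)) c c' n) := by
    intro n hn
    rw [mem_filter, mem_Ioc] at hn ⊢
    refine ⟨hn.1, RichH_mono ?_ hn.2⟩
    have hnX : (X : ℝ) < n := by exact_mod_cast hn.1.1
    have hlogn : Real.log X ≤ Real.log n := Real.log_le_log hX0 hnX.le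
    have h6 : 1 ≤ LL ^ A := Real.one_le_rpow (by linarith) (by linarith)
    rw [hhR, mul_max_of_nonneg _ _ hK1.le]
    apply max_le_max
    · calc K1 * (h1 : ℝ) ≤ K1 * (2 * LL ^ A) := mul_le_mul_of_nonneg_left (by linarith) hK1.le
        _ ≤ K1 * (2 * (2 * Real.log X) ^ A) := by
            apply mul_le_mul_of_nonneg_left _ hK1.le
            apply mul_le_mul_of_nonneg_left _ (by norm_num)
            exact Real.rpow_le_rpow (by linarith) hLL2 (by linarith)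
        _ = (2 * K1 * (2 : ℝ) ^ A) * (Real.log X) ^ A := by
            rw [Real.mul_rpow (by norm_num) (by linarith)]
            ring
        _ ≤ Real.log X * (Real.log X) ^ A :=
            mul_le_mul_of_nonneg_right (by linarith) (Real.rpow_nonneg (by linarith) _)
        _ = (Real.log X) ^ (A + 1) := by
            rw [Real.rpow_add (by linarith), Real.rpow_one]
            ring
        _ ≤ (Real.log n) ^ (A + 1) := Real.rpow_le_rpow (by linarith) hlogn (by linarith)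
    · calc K1 * (h2 : ℝ) ≤ K1 * ((X : ℝ) ^ θ / K1) := mul_le_mul_of_nonneg_left b1 hK1.le
        _ = (X : ℝ) ^ θ := by field_simp
        _ ≤ (n : ℝ) ^ θ := Real.rpow_le_rpow hX0.le hnX.le hθ
  have hcard : (((Ioc X (2 * X)).filter (fun n => RichH (K1 * h) c c' n)).card : ℝ) ≤
      (((Ioc X (2 * X)).filter
        (fun n : ℕ => RichH (max ((Real.log n) ^ (A + 1)) ((n : ℝ) ^ θ)) c c' n)).card : ℝ) := by
    exact_mod_cast card_le_card hsub
  refine le_trans ?_ (hR.trans hcard)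
  apply mul_le_mul_of_nonneg_right _ hX0.le
  rw [← hσ, le_div_iff₀ (by positivity), mul_div_assoc', div_le_iff₀ hq0]
  obtain ⟨t, ht⟩ : ∃ t : ℝ, t = 1 + θ := ⟨_, rfl⟩
  have ht1 : 1 ≤ t := by rw [ht]; linarith
  have ht2 : t ≤ 2 := by rw [ht]; linarith
  rw [← ht]
  have e1 : (σ - 2 * δ) ^ 2 * (t * (1 - δ)) = t * (σ ^ 2 - 4 * σ * δ - σ ^ 2 * δ) +
      t * (4 * σ * δ ^ 2 + 4 * δ ^ 2 * (1 - δ)) := by ring
  have e2 : (t * σ ^ 2 / 4 - η) * (4 + 20 * δ) = t * σ ^ 2 + 5 * (t * σ ^ 2 * δ) - 4 * η - 20 * η * δ := by ring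
  rw [e1, e2]
  have k1 : 0 ≤ t * (4 * σ * δ ^ 2 + 4 * δ ^ 2 * (1 - δ)) := by
    have : 0 ≤ 1 - δ := by linarith
    positivity
  have k2 : σ * δ ≤ δ := by nlinarith
  have k3 : σ ^ 2 * δ ≤ δ := by nlinarith [mul_nonneg hσ0.le hδ0.le]
  have k4 : t * (4 * σ * δ + 6 * (σ ^ 2 * δ)) ≤ 2 * (10 * δ) := by
    have h7 : 4 * σ * δ + 6 * (σ ^ 2 * δ) ≤ 10 * δ := by nlinarith
    have h8 : 0 ≤ 4 * σ * δ + 6 * (σ ^ 2 * δ) := by positivity
    nlinarith
  nlinarith [mul_nonneg hη.le hδ0.le]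

open Classical in
theorem fin (M c c' η θ : ℝ) (hM : 1 ≤ M) (hc : 0 ≤ c) (hc' : 0 ≤ c')
    (hcc : c + c' < 1) (hη : 0 < η) (hθ : 0 ≤ θ) (hθ1 : θ < 1 / 2) : ∃ K : ℝ, 0 < K ∧ ∃ X0 : ℕ, ∀ X : ℕ, X0 ≤ X →
    ((((Ioc X (2 * X)).filter (fun n => ¬ (RegA M K n ∧ RegB M K η n ∧ RegC M K η n))).card : ℝ) ≤ η * X) ∧
    ((((Ioc X (2 * X)).filter (fun p => p.Prime ∧
      ¬ (RegA M K p ∧ RegB M K η p ∧ RegC M K η p ∧ Rich K c c' p))).card : ℝ) ≤
        (c + c' + η) * (X / Real.log X)) ∧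
    (((1 + θ) * (1 - c - c') ^ 2 / 4 - η) * X ≤ (((Ioc X (2 * X)).filter (fun n => RegA M K n ∧
      RegB M K η n ∧ RegC M K η n ∧ RichH (max ((Real.log n) ^ K) ((n : ℝ) ^ θ)) c c' n)).card : ℝ)) := by
  obtain ⟨K1, hK1, X1, hX1⟩ := fin12 M c c' η (η / 2) hM hc hc' hcc hη (by positivity)
  obtain ⟨K2, hK2, X2, hX2⟩ := fin3 c c' (η / 2) θ hc hc' hcc (by positivity) hθ hθ1
  obtain ⟨K, hK⟩ : ∃ K : ℝ, K = K1 + K2 := ⟨_, rfl⟩
  refine ⟨K, by linarith, max (max X1 X2) 3, ?_⟩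
  intro X hX
  have g1 : X1 ≤ X := le_trans (le_trans (le_max_left _ _) (le_max_left _ _)) hX
  have g2 : X2 ≤ X := le_trans (le_trans (le_max_right _ _) (le_max_left _ _)) hX
  have g3 : 3 ≤ X := le_trans (le_max_right _ _) hX
  have hXR : (3 : ℝ) ≤ X := by exact_mod_cast g3
  have hX0 : (0 : ℝ) < X := by linarith
  have hlog1 : 1 ≤ Real.log X := by
    rw [Real.le_log_iff_exp_le (by linarith)]
    have := Real.exp_one_lt_d9
    linarith
  obtain ⟨r1, r2⟩ := hX1 X g1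
  have r3 := hX2 X g2
  have hlogn : ∀ n : ℕ, X < n → 1 ≤ Real.log n := fun n hn =>
    hlog1.trans (Real.log_le_log hX0 (by exact_mod_cast hn.le))
  have hreg : ∀ n : ℕ, X < n → (RegA M K1 n ∧ RegB M K1 η n ∧ RegC M K1 η n) →
      (RegA M K n ∧ RegB M K η n ∧ RegC M K η n) := by
    intro n hn h
    have h1 := hlogn n hn
    exact ⟨RegA_mono hK1 (by linarith) (by linarith) h.1, RegB_mono hK1 (by linarith) h1 h.2.1,
      RegC_mono hK1 (by linarith) le_rfl (by linarith) h.2.2⟩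
  have hi : (((Ioc X (2 * X)).filter (fun n => ¬ (RegA M K n ∧ RegB M K η n ∧ RegC M K η n))).card : ℝ) ≤
      η / 2 * X := by
    refine le_trans ?_ r1
    have : (Ioc X (2 * X)).filter (fun n => ¬ (RegA M K n ∧ RegB M K η n ∧ RegC M K η n)) ⊆
        (Ioc X (2 * X)).filter (fun n => ¬ (RegA M K1 n ∧ RegB M K1 η n ∧ RegC M K1 η n)) := by
      intro n hn
      rw [mem_filter, mem_Ioc] at hn ⊢
      exact ⟨hn.1, fun h => hn.2 (hreg n hn.1.1 h)⟩
    exact_mod_cast card_le_card this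
  refine ⟨hi.trans (by nlinarith), ?_, ?_⟩
  · have h0 : 0 ≤ (X : ℝ) / Real.log X := by positivity
    refine le_trans ?_ (r2.trans (mul_le_mul_of_nonneg_right (by linarith) h0))
    have : (Ioc X (2 * X)).filter (fun p => p.Prime ∧
        ¬ (RegA M K p ∧ RegB M K η p ∧ RegC M K η p ∧ Rich K c c' p)) ⊆
        (Ioc X (2 * X)).filter (fun p => p.Prime ∧
        ¬ (RegA M K1 p ∧ RegB M K1 η p ∧ RegC M K1 η p ∧ Rich K1 c c' p)) := by
      intro n hn
      rw [mem_filter, mem_Ioc] at hn ⊢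
      refine ⟨hn.1, hn.2.1, fun h => hn.2.2 ?_⟩
      obtain ⟨s1, s2, s3⟩ := hreg n hn.1.1 ⟨h.1, h.2.1, h.2.2.1⟩
      refine ⟨s1, s2, s3, RichH_mono ?_ h.2.2.2⟩
      exact mul_le_mul_of_nonneg_right (by linarith) (by linarith [hlogn n hn.1.1])
    exact_mod_cast card_le_card this
  · have hsub : (Ioc X (2 * X)).filter (fun n : ℕ => RichH (max ((Real.log n) ^ K2) ((n : ℝ) ^ θ)) c c' n) ⊆
        (Ioc X (2 * X)).filter
          (fun n => RegA M K n ∧ RegB M K η n ∧ RegC M K η n ∧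
            RichH (max ((Real.log n) ^ K) ((n : ℝ) ^ θ)) c c' n) ∪
        (Ioc X (2 * X)).filter (fun n => ¬ (RegA M K n ∧ RegB M K η n ∧ RegC M K η n)) := by
      intro n hn
      rw [mem_filter, mem_Ioc] at hn
      rw [mem_union, mem_filter, mem_filter, mem_Ioc]
      by_cases h : RegA M K n ∧ RegB M K η n ∧ RegC M K η n
      · left
        refine ⟨hn.1, h.1, h.2.1, h.2.2, RichH_mono ?_ hn.2⟩
        exact max_le_max (Real.rpow_le_rpow_of_exponent_le (hlogn n hn.1.1) (by linarith)) le_rfl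
      · right
        exact ⟨hn.1, h⟩
    have h1 := (card_le_card hsub).trans (card_union_le _ _)
    have h2 : (((Ioc X (2 * X)).filter (fun n : ℕ => RichH (max ((Real.log n) ^ K2) ((n : ℝ) ^ θ)) c c' n)).card : ℝ) ≤
        (((Ioc X (2 * X)).filter
          (fun n => RegA M K n ∧ RegB M K η n ∧ RegC M K η n ∧
            RichH (max ((Real.log n) ^ K) ((n : ℝ) ^ θ)) c c' n)).card : ℝ) +
        (((Ioc X (2 * X)).filter (fun n => ¬ (RegA M K n ∧ RegB M K η n ∧ RegC M K η n))).card : ℝ) := by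
      exact_mod_cast h1
    nlinarith

end Pool.Agent.H67.RG
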