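import Pool.Agent.H67.RG.Mart

/-!
# Module Fine: averages of a difference finer than the interval

PROOF. Let `G v = ∑_{y ∈ Ico 0 v} g y` for `v ≥ 0`; simpler: for every `v : ℤ` let `v0 = 2^(j+1) (v / 2^(j+1)) ≤ v` and
`r v = ∑_{y ∈ Ico v0 v} g y`. For `u ≤ w`: `∑_{y ∈ Ico u w} g y = r w - r u`: the sum over `Ico u0 w0` vanishes, as it is a union of intervals of
level `j+1` (sum zero on each), and `Ico u w = (Ico u0 w0 ∪ Ico w0 w) \ Ico u0 u`.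
Cauchy-Schwarz: `(r v)² ≤ 2^(j+1) ∑_{y ∈ Iv (j+1) v} (g y)²` (`Ico v0 v ⊆ Iv (j+1) v`, at most `2^(j+1)` terms).
So, with `w - u ≥ 2^k`: `(Av g u w)² ≤ 2^(-2k) · 2 ((r w)² + (r u)²)`.
SUM. For `v i` with `|v i - i| ≤ D 2^k`: `∑_{i ∈ Rt m} (r (v i))² ≤ 2^(j+1) ∑_{i ∈ Rt m} ∑_{y ∈ Iv (j+1) (v i)} (g y)²`; all `y` in `Iv (j+1) (v i)` have
`|y - v i| < 2^(j+1) ≤ 2^k`, so `|y - i| ≤ (D+1) 2^k`; `g y = 0` for `y ∉ Rt m`; every `y` is counted for at most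
`2 (D+1) 2^k + 1 ≤ (2D+3) 2^k` values of `i`: the sum is `≤ 2^(j+1) (2D+3) 2^k ∑_{y ∈ Rt m} (g y)²`.
Total: `2^(-2k) · 2 · 2 · 2^(j+1) (2D+3) 2^k ∑ g² = 8 (2D+3) (2^j/2^k) ∑ g²`.
-/

set_option autoImplicit false

namespace Pool.Agent.H67.RG

open Finset

private theorem fine_split (g : ℤ → ℝ) {a b c : ℤ} (h1 : a ≤ b) (h2 : b ≤ c) :
    ∑ y ∈ Ico a c, g y = ∑ y ∈ Ico a b, g y + ∑ y ∈ Ico b c, g y := by
  rw [← Ico_union_Ico_eq_Ico h1 h2, sum_union (Ico_disjoint_Ico_consecutive a b c)]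

private theorem fine_zero (g : ℤ → ℝ) (j : ℕ) (hmean : ∀ i : ℤ, ∑ y ∈ Iv (j + 1) i, g y = 0) (a : ℤ) (n : ℕ) :
    ∑ y ∈ Ico (2 ^ (j + 1) * a) (2 ^ (j + 1) * (a + n)), g y = 0 := by
  have hp : (0 : ℤ) < 2 ^ (j + 1) := by positivity
  induction n with
  | zero => simp
  | succ n ih =>
    have h1 : (2 : ℤ) ^ (j + 1) * a ≤ 2 ^ (j + 1) * (a + n) :=
      mul_le_mul_of_nonneg_left (by omega) hp.le
    have h2 : (2 : ℤ) ^ (j + 1) * (a + n) ≤ 2 ^ (j + 1) * (a + (n + 1 : ℕ)) :=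
      mul_le_mul_of_nonneg_left (by push_cast; omega) hp.le
    rw [fine_split g h1 h2, ih, zero_add]
    have h3 := hmean (2 ^ (j + 1) * (a + n))
    unfold Iv at h3
    rw [Int.mul_ediv_cancel_left _ hp.ne'] at h3
    have h4 : (2 : ℤ) ^ (j + 1) * (a + (n + 1 : ℕ)) = 2 ^ (j + 1) * (a + n) + 2 ^ (j + 1) := by
      push_cast
      ring
    rw [h4]
    exact h3

/-- the remainder -/
private noncomputable def rm (g : ℤ → ℝ) (j : ℕ) (v : ℤ) : ℝ := ∑ y ∈ Ico (2 ^ (j + 1) * (v / 2 ^ (j + 1))) v, g y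

private theorem fine_bd (j : ℕ) (v : ℤ) : 2 ^ (j + 1) * (v / 2 ^ (j + 1)) ≤ v ∧
    v < 2 ^ (j + 1) * (v / 2 ^ (j + 1)) + 2 ^ (j + 1) := by
  have hp : (0 : ℤ) < 2 ^ (j + 1) := by positivity
  have h1 := Int.mul_ediv_add_emod v (2 ^ (j + 1))
  have h2 := Int.emod_nonneg v hp.ne'
  have h3 := Int.emod_lt_of_pos v hp
  constructor <;> linarith

private theorem fine_rm (g : ℤ → ℝ) (j : ℕ) (hmean : ∀ i : ℤ, ∑ y ∈ Iv (j + 1) i, g y = 0) {u w : ℤ}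
    (huw : u ≤ w) : ∑ y ∈ Ico u w, g y = rm g j w - rm g j u := by
  have hp : (0 : ℤ) < 2 ^ (j + 1) := by positivity
  have h1 := (fine_bd j u).1
  have h2 := (fine_bd j w).1
  have h3 : u / 2 ^ (j + 1) ≤ w / 2 ^ (j + 1) := Int.ediv_le_ediv hp huw
  obtain ⟨n, hn⟩ := Int.le.dest h3
  have h4 := fine_zero g j hmean (u / 2 ^ (j + 1)) n
  rw [hn] at h4
  have h5 : (2 : ℤ) ^ (j + 1) * (u / 2 ^ (j + 1)) ≤ 2 ^ (j + 1) * (w / 2 ^ (j + 1)) :=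
    mul_le_mul_of_nonneg_left h3 hp.le
  have h6 := fine_split g h1 huw
  have h7 := fine_split g h5 h2
  rw [h4, zero_add] at h7
  unfold rm
  linarith

private theorem fine_cs (g : ℤ → ℝ) (j : ℕ) (v : ℤ) :
    (rm g j v) ^ 2 ≤ 2 ^ (j + 1) * ∑ y ∈ Iv (j + 1) v, (g y) ^ 2 := by
  have hb := fine_bd j v
  have h1 : (rm g j v) ^ 2 ≤ ((Ico (2 ^ (j + 1) * (v / 2 ^ (j + 1))) v).card : ℝ) *
      ∑ y ∈ Ico (2 ^ (j + 1) * (v / 2 ^ (j + 1))) v, (g y) ^ 2 := sq_sum_le_card_mul_sum_sq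
  refine h1.trans ?_
  have h2 : ((Ico (2 ^ (j + 1) * (v / 2 ^ (j + 1))) v).card : ℝ) ≤ 2 ^ (j + 1) := by
    rw [Int.card_Ico]
    have h3 : (v - 2 ^ (j + 1) * (v / 2 ^ (j + 1))).toNat ≤ 2 ^ (j + 1) := by
      rw [Int.toNat_le]
      push_cast
      linarith
    exact_mod_cast h3
  have h4 : ∑ y ∈ Ico (2 ^ (j + 1) * (v / 2 ^ (j + 1))) v, (g y) ^ 2 ≤ ∑ y ∈ Iv (j + 1) v, (g y) ^ 2 := by
    apply sum_le_sum_of_subset_of_nonneg
    · unfold Iv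
      exact Ico_subset_Ico_right hb.2.le
    · exact fun _ _ _ => sq_nonneg _
  exact mul_le_mul h2 h4 (sum_nonneg fun _ _ => sq_nonneg _) (by positivity)

private theorem fine_sum (g : ℤ → ℝ) (m j k D : ℕ) (hjk : j < k) (hg : Supp g m) (v : ℤ → ℤ)
    (hv : ∀ i ∈ Rt m, |v i - i| ≤ D * 2 ^ k) :
    ∑ i ∈ Rt m, (rm g j (v i)) ^ 2 ≤ 2 ^ (j + 1) * ((2 * (D : ℝ) + 3) * 2 ^ k) * ∑ y ∈ Rt m, (g y) ^ 2 := by
  have hp : (0 : ℤ) < 2 ^ (j + 1) := by positivity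
  have hpk : (2 : ℤ) ^ (j + 1) ≤ 2 ^ k := pow_le_pow_right₀ (by norm_num) hjk
  have hk1 : (1 : ℤ) ≤ 2 ^ k := one_le_pow₀ (by norm_num)
  have h1 : ∀ i ∈ Rt m, (rm g j (v i)) ^ 2 ≤
      2 ^ (j + 1) * ∑ y ∈ Rt m, if |y - i| ≤ (D + 1) * 2 ^ k then (g y) ^ 2 else 0 := by
    intro i hi
    refine (fine_cs g j (v i)).trans ?_
    refine mul_le_mul_of_nonneg_left ?_ (by positivity)
    rw [← sum_filter]
    have h2 : ∑ y ∈ Iv (j + 1) (v i), (g y) ^ 2 = ∑ y ∈ (Iv (j + 1) (v i)).filter (fun y => y ∈ Rt m), (g y) ^ 2 := by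
      rw [sum_filter]
      refine sum_congr rfl fun y _ => ?_
      split_ifs with h
      · rfl
      · rw [hg y h]
        norm_num
    rw [h2]
    apply sum_le_sum_of_subset_of_nonneg
    · intro y hy
      rw [mem_filter] at hy ⊢
      refine ⟨hy.2, ?_⟩
      have h3 := hy.1
      unfold Iv at h3
      rw [mem_Ico] at h3
      have h4 := fine_bd j (v i)
      have h5 := abs_le.1 (hv i hi)
      rw [abs_le]
      constructor <;> nlinarith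
    · exact fun _ _ _ => sq_nonneg _
  refine (sum_le_sum h1).trans ?_
  rw [← mul_sum, sum_comm, mul_assoc]
  refine mul_le_mul_of_nonneg_left ?_ (by positivity)
  rw [mul_sum]
  refine sum_le_sum fun y _ => ?_
  rw [← sum_filter, sum_const, nsmul_eq_mul]
  refine mul_le_mul_of_nonneg_right ?_ (sq_nonneg _)
  have h6 : (Rt m).filter (fun i => |y - i| ≤ (D + 1) * 2 ^ k) ⊆ Icc (y - (D + 1) * 2 ^ k) (y + (D + 1) * 2 ^ k) := by
    intro i hi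
    rw [mem_filter] at hi
    have h7 := abs_le.1 hi.2
    rw [mem_Icc]
    constructor <;> linarith
  have h8 := card_le_card h6
  rw [Int.card_Icc] at h8
  have h9 : (y + (D + 1) * 2 ^ k + 1 - (y - (D + 1) * 2 ^ k)).toNat ≤ (2 * D + 3) * 2 ^ k := by
    rw [Int.toNat_le]
    push_cast
    nlinarith
  exact_mod_cast h8.trans h9

theorem fine (g : ℤ → ℝ) (m j k D : ℕ) (hjk : j < k) (hg : Supp g m)
    (hmean : ∀ i : ℤ, ∑ y ∈ Iv (j + 1) i, g y = 0) (u w : ℤ → ℤ) (h : ∀ i ∈ Rt m, Nr D k i (u i) (w i)) :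
    ∑ i ∈ Rt m, (Av g (u i) (w i)) ^ 2 ≤
      8 * (2 * (D : ℝ) + 3) * (2 ^ j / 2 ^ k) * ∑ i ∈ Rt m, (g i) ^ 2 := by
  have h1 : ∀ i ∈ Rt m, (Av g (u i) (w i)) ^ 2 ≤
      2 / (2 ^ k) ^ 2 * ((rm g j (w i)) ^ 2 + (rm g j (u i)) ^ 2) := by
    intro i hi
    obtain ⟨h2, -, -⟩ := h i hi
    have hk0 : (0 : ℝ) < 2 ^ k := by positivity
    have h3 : (2 : ℝ) ^ k ≤ (w i : ℝ) - u i := by exact_mod_cast h2
    have h4 : u i ≤ w i := by
      have : (0 : ℤ) < 2 ^ k := by positivity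
      linarith
    unfold Av
    rw [fine_rm g j hmean h4, div_pow, div_mul_eq_mul_div]
    have h5 : (rm g j (w i) - rm g j (u i)) ^ 2 ≤ 2 * ((rm g j (w i)) ^ 2 + (rm g j (u i)) ^ 2) := by
      nlinarith [sq_nonneg (rm g j (w i) + rm g j (u i))]
    exact div_le_div₀ (by positivity) h5 (by positivity) (pow_le_pow_left₀ hk0.le h3 2)
  refine (sum_le_sum h1).trans ?_
  rw [← mul_sum, sum_add_distrib]
  have h2 := fine_sum g m j k D hjk hg w (fun i hi => (h i hi).2.2)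
  have h3 := fine_sum g m j k D hjk hg u (fun i hi => (h i hi).2.1)
  have h4 := mul_le_mul_of_nonneg_left (add_le_add h2 h3) (show (0 : ℝ) ≤ 2 / (2 ^ k) ^ 2 by positivity)
  refine h4.trans (le_of_eq ?_)
  field_simp
  ring

end Pool.Agent.H67.RG
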