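import Pool.Agent.H67.RG.Def

/-!
# Module Mart: dyadic averages

PROOFS. `mem_Iv`: `2^k q ≤ y < 2^k q + 2^k` iff `y / 2^k = q` (`Int.ediv` is the floor; `Int.emod_add_ediv` or `Int.ediv_emod_unique`).
`Ek_zero`: `Iv 0 i = {i}`. `Ek_const`: `Iv k i` depends on `i / 2^k` only.
`Ek_out`: if `i` is not in `[0, 2^m)` then no `y` of `Iv k i` is: `y / 2^k = i / 2^k` and, as `2^k` divides `2^m`, `0 ≤ y < 2^m` iff
`0 ≤ y / 2^k < 2^(m-k)`.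
`orth`: group `Rt m` into the level `k` intervals: `∑_{i ∈ Rt m} F i = ∑_{q ∈ Ico 0 (2^(m-k))} ∑_{i ∈ Ico (2^k q) (2^k q + 2^k)} F i`
(`blocks` below). On one interval `Q`, with `a = (∑_Q f)/2^k` and the constant `v` of `v` on `Q`:
`∑_Q (f - v)² = ∑_Q (f - a)² + 2^k (a - v)²` (as `∑_Q (f - a) = 0`), and `Ek f k i = a` for `i ∈ Q`.
-/

set_option autoImplicit false

namespace Pool.Agent.H67.RG

open Finset

private theorem mart_blk (k : ℕ) (q y : ℤ) : y ∈ Ico (2 ^ k * q) (2 ^ k * q + 2 ^ k) ↔ y / 2 ^ k = q := by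
  have hp : (0 : ℤ) < 2 ^ k := by positivity
  rw [mem_Ico]
  constructor
  · rintro ⟨h1, h2⟩
    apply le_antisymm
    · have h3 : y / 2 ^ k < q + 1 := by
        rw [Int.ediv_lt_iff_lt_mul hp]
        linarith
      omega
    · rw [Int.le_ediv_iff_mul_le hp]
      linarith
  · intro h
    have h1 := Int.mul_ediv_add_emod y (2 ^ k)
    have h2 := Int.emod_nonneg y hp.ne'
    have h3 := Int.emod_lt_of_pos y hp
    rw [h] at h1
    constructor <;> linarith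

theorem mem_Iv (k : ℕ) (i y : ℤ) : y ∈ Iv k i ↔ y / 2 ^ k = i / 2 ^ k := by
  unfold Iv
  exact mart_blk k _ y

theorem Ek_zero (f : ℤ → ℝ) (i : ℤ) : Ek f 0 i = f i := by
  have h : Iv 0 i = {i} := by
    ext y
    rw [mem_Iv, mem_singleton]
    simp
  unfold Ek
  rw [h, sum_singleton, pow_zero, div_one]

theorem Ek_const (f : ℤ → ℝ) (k : ℕ) (i i' : ℤ) (h : i / 2 ^ k = i' / 2 ^ k) : Ek f k i = Ek f k i' := by
  unfold Ek Iv
  rw [h]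

private theorem mart_root (m k : ℕ) (hk : k ≤ m) (i : ℤ) :
    i ∈ Rt m ↔ i / 2 ^ k ∈ Ico (0 : ℤ) (2 ^ (m - k)) := by
  have hp : (0 : ℤ) < 2 ^ k := by positivity
  have h2 : (2 : ℤ) ^ (m - k) * 2 ^ k = 2 ^ m := by
    rw [← pow_add, Nat.sub_add_cancel hk]
  unfold Rt
  rw [mem_Ico, mem_Ico, Int.le_ediv_iff_mul_le hp, Int.ediv_lt_iff_lt_mul hp, h2, zero_mul]

theorem blocks (F : ℤ → ℝ) (m k : ℕ) (hk : k ≤ m) :
    ∑ i ∈ Rt m, F i = ∑ q ∈ Ico (0 : ℤ) (2 ^ (m - k)), ∑ i ∈ Ico (2 ^ k * q) (2 ^ k * q + 2 ^ k), F i := by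
  rw [← Finset.sum_fiberwise_of_maps_to (s := Rt m) (t := Ico (0 : ℤ) (2 ^ (m - k)))
    (g := fun i => i / 2 ^ k) (fun i hi => (mart_root m k hk i).1 hi)]
  refine Finset.sum_congr rfl fun q hq => ?_
  congr 1
  ext i
  rw [mem_filter, mart_blk, mart_root m k hk]
  constructor
  · exact fun h => h.2
  · intro h
    exact ⟨h ▸ hq, h⟩

theorem Ek_out (f : ℤ → ℝ) (m k : ℕ) (hf : Supp f m) (hk : k ≤ m) (i : ℤ) (hi : i ∉ Rt m) :
    Ek f k i = 0 := by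
  unfold Ek
  rw [Finset.sum_eq_zero, zero_div]
  intro y hy
  apply hf
  rw [mem_Iv] at hy
  intro hc
  apply hi
  rw [mart_root m k hk] at hc ⊢
  rwa [← hy]

theorem orth (f v : ℤ → ℝ) (m k : ℕ) (hk : k ≤ m) (hv : ∀ i i' : ℤ, i / 2 ^ k = i' / 2 ^ k → v i = v i') :
    ∑ i ∈ Rt m, (f i - v i) ^ 2 =
      ∑ i ∈ Rt m, (f i - Ek f k i) ^ 2 + ∑ i ∈ Rt m, (Ek f k i - v i) ^ 2 := by
  rw [blocks _ m k hk, blocks _ m k hk, blocks _ m k hk, ← Finset.sum_add_distrib]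
  refine Finset.sum_congr rfl fun q _ => ?_
  obtain ⟨Q, hQ⟩ : ∃ Q, Q = Ico (2 ^ k * q) (2 ^ k * q + 2 ^ k) := ⟨_, rfl⟩
  have hmem : ∀ i, i ∈ Q ↔ i / 2 ^ k = q := fun i => by
    rw [hQ]
    exact mart_blk k q i
  rw [← hQ]
  obtain ⟨i0, hi0⟩ : ∃ i0 : ℤ, i0 = 2 ^ k * q := ⟨_, rfl⟩
  have hp : (0 : ℤ) < 2 ^ k := by positivity
  have hi0q : i0 / 2 ^ k = q := by
    rw [hi0]
    exact Int.mul_ediv_cancel_left q hp.ne'
  have h1 : ∀ i ∈ Q, Ek f k i = Ek f k i0 := fun i hi => Ek_const f k i i0 (by rw [(hmem i).1 hi, hi0q])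
  have h2 : ∀ i ∈ Q, v i = v i0 := fun i hi => hv i i0 (by rw [(hmem i).1 hi, hi0q])
  have h3 : ∑ i ∈ Q, f i = 2 ^ k * Ek f k i0 := by
    unfold Ek Iv
    rw [hi0q, ← hQ]
    field_simp
  have hcard : (Q.card : ℝ) = 2 ^ k := by
    rw [hQ, Int.card_Ico]
    have : (2 ^ k * q + 2 ^ k - 2 ^ k * q : ℤ) = ((2 ^ k : ℕ) : ℤ) := by
      push_cast
      ring
    rw [this, Int.toNat_natCast]
    push_cast
    ring
  have h4 : ∑ i ∈ Q, (Ek f k i0 - v i0) ^ 2 = 2 ^ k * (Ek f k i0 - v i0) ^ 2 := by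
    rw [Finset.sum_const, nsmul_eq_mul, hcard]
  have h5 : ∑ i ∈ Q, (f i - v i) ^ 2 = ∑ i ∈ Q, (f i - Ek f k i0 + (Ek f k i0 - v i0)) ^ 2 :=
    Finset.sum_congr rfl fun i hi => by rw [h2 i hi]; ring
  have h6 : ∑ i ∈ Q, (f i - Ek f k i) ^ 2 = ∑ i ∈ Q, (f i - Ek f k i0) ^ 2 :=
    Finset.sum_congr rfl fun i hi => by rw [h1 i hi]
  have h7 : ∑ i ∈ Q, (Ek f k i - v i) ^ 2 = ∑ i ∈ Q, (Ek f k i0 - v i0) ^ 2 :=
    Finset.sum_congr rfl fun i hi => by rw [h1 i hi, h2 i hi]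
  have h8 : ∑ i ∈ Q, (f i - Ek f k i0) = 0 := by
    rw [Finset.sum_sub_distrib, h3, Finset.sum_const, nsmul_eq_mul, hcard, sub_self]
  have h9 : ∀ i ∈ Q, (f i - Ek f k i0 + (Ek f k i0 - v i0)) ^ 2 =
      (f i - Ek f k i0) ^ 2 + (Ek f k i0 - v i0) ^ 2 + 2 * (Ek f k i0 - v i0) * (f i - Ek f k i0) :=
    fun i _ => by ring
  rw [h5, h6, h7, Finset.sum_congr rfl h9, Finset.sum_add_distrib, Finset.sum_add_distrib,
    ← Finset.mul_sum, h8, mul_zero, add_zero]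

end Pool.Agent.H67.RG
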