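import Pool.Agent.H67.RG.SndG
import Pool.Agent.H93.RG.Com
import Pool.Agent.H93.RG.Tow
import Pool.Agent.H93.RG.World
import Pool.Agent.H93.FG.SubD

/-!
# The counting principle for blocks of size `r`: the end of the proof
-/

set_option autoImplicit false

namespace Pool.Agent.H67.RG

open Finset Pool.Agent.H93.RG
open Pool.Agent.H3.Frg hiding ind
open Pool.Agent.H3.Ac (ldep SubCl)
open Pool.Agent.H67.FG (ind Alg Fo tr orAll orF IsRef Few DegOK guess_exists self_mem_subs)

theorem isM_empty {r : ℕ} {V : Type} : IsM r (∅ : Finset (Finset V)) :=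
  ⟨fun e he => absurd he (by simp), fun e he => absurd he (by simp)⟩

theorem run_const {r : ℕ} {V : Type} [Fintype V] [DecidableEq V] (w n : ℕ) (f : Finset (Finset V) → Option Bool)
    (b : Bool) (hf : ∀ M, f M = some b) (M : Finset (Finset V)) : run r w f M n ∅ = some b := by
  have h : dec r w f ∅ = some b := by
    unfold dec
    cases b with
    | true =>
      rw [if_pos]
      intro t _ _ h
      rw [hf t] at h
      cases h
    | false =>
      rw [if_neg, if_pos]
      · intro t _ _ h
        rw [hf t] at h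
        cases h
      · intro h
        apply h ∅ (isM_empty) (by simp) (hf _)
        unfold Cmp
        simpa using (isM_empty : IsM r (∅ : Finset (Finset V)))
  cases n with
  | zero => exact h
  | succ n =>
    unfold run
    rw [if_pos (by rw [h]; rfl)]
    exact h

theorem tr_orAll {V : Type} (g : Fo V → Bool) (l : List (Fo V)) (B : Fo V) :
    tr g (orAll l B) = orF (l.map (tr g)) (tr g B) := by
  induction l with
  | nil => rfl
  | cons A l ih =>
    show Fm.imp (Fm.neg (tr g A)) (tr g (orAll l B)) = _
    rw [ih]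
    rfl

/-- the lower bound with parameters -/
theorem lower (p : ℕ) [Fact p.Prime] {r : ℕ} (hr : 2 ≤ r) (hpr : ¬ p ∣ r) {m T d k t w q N : ℕ} (hT : 1 ≤ T)
    (hd : 1 ≤ d) (hk : 1 ≤ k) (hw : 1 ≤ w) (hq : 1000 * r * (k + 3) * (T * (w + 1) ^ 2) ≤ q) (hq1 : q % r = 1)
    (hNL : lev r w (q * (q - 1) * (r - 1) + N % r) d ≤ N) (π : List (Fo (Finset (Fin N))))
    (hπ : IsRef m k (Count r N) π) (hline : ∀ A ∈ π, ∀ B ∈ A.subs, B.dep ≤ d ∧ B.outer.ncard ≤ t)
    (hdeg : ∀ A ∈ π, DegOK (ZMod p) m T A) : 2 ^ w < 2 ^ t * {B | ∃ A ∈ π, B ∈ A.subs}.ncard + 2 := by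
  by_contra hcon
  push Not at hcon
  obtain ⟨S, hS, hSt, hSc, hSd, hSl⟩ := H93.FG2.sub_list_card π t d hline
  -- numbers
  have hr1 : 1 ≤ r := by omega
  set X := T * (w + 1) ^ 2 with hXdef
  have hX : 1 ≤ X := Nat.one_le_iff_ne_zero.2 (by positivity)
  have hX1 : (w + 1) ^ 2 ≤ X := Nat.le_mul_of_pos_left _ hT
  have hq4 : 4000 * (r * X) ≤ q := by
    refine le_trans ?_ hq
    have : 4 * (r * X) ≤ (k + 3) * (r * X) := Nat.mul_le_mul_right _ (by omega)
    calc 4000 * (r * X) = 1000 * (4 * (r * X)) := by ring
      _ ≤ 1000 * ((k + 3) * (r * X)) := Nat.mul_le_mul_left _ this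
      _ = 1000 * r * (k + 3) * X := by ring
  have hrX : r ≤ r * X := Nat.le_mul_of_pos_right _ hX
  have hq3 : 4000 ≤ q := by omega
  set K := q ^ 2 / 10 with hKdef
  have hK10 : 10 * K ≤ q ^ 2 := Nat.mul_div_le _ _
  have hK11 : q ^ 2 < 10 * K + 10 := by
    have := Nat.lt_mul_div_succ (q ^ 2) (show 0 < 10 by norm_num)
    omega
  have hq2 : 4000 * q ≤ q ^ 2 := by nlinarith
  obtain ⟨𝓦, hc, hK⟩ := world_exists p r hr hpr q K (N % r) (by omega) hq1 (by omega) (by omega)
  have hcard := card_Pt r q (N % r)
  have hdvd : r ∣ q - 1 := by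
    have h1 := Nat.div_add_mod q r
    rw [hq1] at h1
    exact ⟨q / r, by omega⟩
  have hmod : N % r = Fintype.card (Pt r q (N % r)) % r := by
    rw [hcard]
    obtain ⟨z, hz⟩ := hdvd
    rw [hz, show q * (r * z) * (r - 1) = r * (q * z * (r - 1)) by ring, Nat.mul_add_mod, Nat.mod_mod]
  have hcard2 : 100 * r ^ 2 * (w + 1) ^ 2 ≤ Fintype.card (Pt r q (N % r)) := by
    rw [hcard]
    have h1 : r * (w + 1) ^ 2 ≤ r * X := Nat.mul_le_mul_left _ hX1
    have h2 : 100 * r ^ 2 * (w + 1) ^ 2 ≤ q * r := by
      calc 100 * r ^ 2 * (w + 1) ^ 2 = 100 * (r * (w + 1) ^ 2) * r := by ring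
        _ ≤ q * r := Nat.mul_le_mul_right _ (by omega)
    have h3 : q * r ≤ q * (q - 1) * (r - 1) := by
      have h4 : r ≤ q - 1 := by omega
      calc q * r ≤ q * (q - 1) := Nat.mul_le_mul_left _ h4
        _ ≤ q * (q - 1) * (r - 1) := Nat.le_mul_of_pos_right _ (by omega)
    omega
  obtain ⟨val, hval, hcoh, hv1, hv2, hv3⟩ := tower hr hd hw hcard2 hmod (by rw [hcard]; exact hNL) S hS hSd
    (hSl.trans hcon)
  set rr : (Ed q → ZMod r) → Fm (Finset (Fin N) ⊕ Bool) → Option Bool :=
    fun y C => run r w (val C) (𝓦.M y) (w + 1) ∅ with hrr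
  have hrc : ∀ y b, rr y (.var (Sum.inr b)) = some b := fun y b => run_const w _ _ b (hv1 b) _
  have hg := fun y => guess_exists m (rr y) (hrc y)
  choose g hg1 hg2 using hg
  set D0 := (w + 1) * (r * w) * 𝓦.c with hD0
  set D1 := T * D0 with hD1
  have hD0le : D0 ≤ r * (w + 1) ^ 2 * q := by
    rw [hD0, hc]
    calc (w + 1) * (r * w) * (q - 1) ≤ (w + 1) * (r * (w + 1)) * q := by
          apply Nat.mul_le_mul
          · apply Nat.mul_le_mul_left
            exact Nat.mul_le_mul_left _ (by omega)
          · omega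
      _ = r * (w + 1) ^ 2 * q := by ring
  have hD1le : D1 ≤ r * X * q := by
    calc D1 = T * D0 := hD1
      _ ≤ T * (r * (w + 1) ^ 2 * q) := Nat.mul_le_mul_left _ hD0le
      _ = r * X * q := by rw [hXdef]; ring
  have hKD : (k + 6) * D1 ≤ K := by
    have h1 : (k + 6) * D1 ≤ (2 * (k + 3)) * (r * X * q) :=
      Nat.mul_le_mul (by omega) hD1le
    have h3 : 500 * ((2 * (k + 3)) * (r * X * q)) ≤ q ^ 2 := by
      calc 500 * ((2 * (k + 3)) * (r * X * q))
          = (1000 * r * (k + 3) * X) * q := by ring
        _ ≤ q * q := Nat.mul_le_mul_right _ hq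
        _ = q ^ 2 := by ring
    omega
  have hKD' : (k + 6) * D1 ≤ 𝓦.K := by rw [hK]; exact hKD
  have hD01 : D0 ≤ D1 := Nat.le_mul_of_pos_left _ hT
  have hcK : 𝓦.c ≤ D0 := by
    rw [hD0]
    exact Nat.le_mul_of_pos_left _ (by positivity)
  have hstkK : 3 * ((w + 1) * (r * w) * 𝓦.c) + 𝓦.c ≤ 𝓦.K := by
    rw [← hD0]
    have : 6 * D1 ≤ (k + 6) * D1 := Nat.mul_le_mul_right _ (by omega)
    omega
  have hdl : ∀ A ∈ π, ∀ B ∈ A.subs,
      ind (fun y => g y B = true) ∈ 𝓦.Deg D1 ∧ ind (fun y => rr y (tr (g y) B) = none) ∈ 𝓦.Deg D1 ∧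
      ind (fun y => rr y (tr (g y) B) = none) ∈ 𝓦.Z := by
    intro A hA
    refine hdeg A hA _ 𝓦.toAlg rr g hg1 hg2 D0 ?_ ?_ ?_
    · intro G B hB b
      exact run_deg hr1 𝓦 w _ (w + 1) ∅ b
    · intro G B hB
      exact run_stk hr1 𝓦 (hval _ (hSt A hA B hB G)) hw hstkK
    · have : 6 * D1 ≤ (k + 6) * D1 := Nat.mul_le_mul_right _ (by omega)
      omega
  have hsome : ∀ y X, rr y (tr (g y) X) ≠ none → rr y (tr (g y) X) = some (g y X) := by
    intro y X h
    obtain ⟨b, hb⟩ := Option.ne_none_iff_exists'.1 h
    rw [hb, hg2 y X, hb]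
    rfl
  have hneg : ∀ A ∈ π, ∀ B, Fo.neg B ∈ A.subs → ∀ y a b, rr y (tr (g y) B) = some a →
      rr y (tr (g y) (.neg B)) = some b → b = !a := by
    intro A hA B hB y a b h1 h3
    have hm := hSt A hA _ hB (g y)
    have hm' : Fm.neg (tr (g y) B) ∈ S := hm
    have hm2 := hS.1 _ hm'
    obtain ⟨M, hM, hv⟩ := common hr1 (S := {A | A ∈ S}) hval hcard2 [tr (g y) B, Fm.neg (tr (g y) B)] (by simp)
      (by
        intro C hC
        simp only [List.mem_cons, List.not_mem_nil, or_false] at hC
        rcases hC with rfl | rfl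
        · exact hm2
        · exact hm') (𝓦.isM y) (fun C => (rr y C).getD false)
      (by
        intro C hC
        simp only [List.mem_cons, List.not_mem_nil, or_false] at hC
        rcases hC with rfl | rfl
        · show rr y _ = some ((rr y _).getD false)
          rw [h1]; rfl
        · show rr y _ = some ((rr y _).getD false)
          have h3' : rr y (Fm.neg (tr (g y) B)) = some b := h3
          rw [h3']; rfl)
    have v1 := hv (tr (g y) B) (by simp)
    have v2 := hv (Fm.neg (tr (g y) B)) (by simp)
    have h3' : rr y (Fm.neg (tr (g y) B)) = some b := h3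
    rw [h1] at v1
    rw [h3'] at v2
    exact hcoh.neg _ hm' M hM a b v1 v2
  have himp : ∀ A ∈ π, ∀ B C, Fo.imp B C ∈ A.subs → ∀ y a b c, rr y (tr (g y) B) = some a →
      rr y (tr (g y) C) = some b → rr y (tr (g y) (.imp B C)) = some c → c = (!a || b) := by
    intro A hA B C hB y a b c h1 h3 h4
    have hm := hSt A hA _ hB (g y)
    have hm' : Fm.imp (tr (g y) B) (tr (g y) C) ∈ S := hm
    have hm2 := hS.2 _ _ hm'
    have h4' : rr y (Fm.imp (tr (g y) B) (tr (g y) C)) = some c := h4
    obtain ⟨M, hM, hv⟩ := common hr1 (S := {A | A ∈ S}) hval hcard2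
      [tr (g y) B, tr (g y) C, Fm.imp (tr (g y) B) (tr (g y) C)] (by simp)
      (by
        intro X hX
        simp only [List.mem_cons, List.not_mem_nil, or_false] at hX
        rcases hX with rfl | rfl | rfl
        · exact hm2.1
        · exact hm2.2
        · exact hm') (𝓦.isM y) (fun X => (rr y X).getD false)
      (by
        intro X hX
        simp only [List.mem_cons, List.not_mem_nil, or_false] at hX
        rcases hX with rfl | rfl | rfl
        · show rr y _ = some ((rr y _).getD false)
          rw [h1]; rfl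
        · show rr y _ = some ((rr y _).getD false)
          rw [h3]; rfl
        · show rr y _ = some ((rr y _).getD false)
          rw [h4']; rfl)
    have v1 := hv (tr (g y) B) (by simp)
    have v2 := hv (tr (g y) C) (by simp)
    have v3 := hv (Fm.imp (tr (g y) B) (tr (g y) C)) (by simp)
    rw [h1] at v1
    rw [h3] at v2
    rw [h4'] at v3
    exact hcoh.imp _ _ hm' M hM a b c v1 v2 v3
  have hE : Ev m k 𝓦.toAlg D1 rr g (Count r N) {A | A ∈ π} := by
    refine ⟨?_, hg2, fun A hA B hB => (hdl A hA B hB).1, fun A hA B hB => (hdl A hA B hB).2.1,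
      fun A hA B hB => (hdl A hA B hB).2.2, hneg, himp, ?_, hKD'⟩
    · intro y a n f
      rw [hg1 y a n f]
      simp
    · rintro A hA (⟨a, B, C, haB, haC, hBC, rfl⟩ | ⟨a, l, B, rfl, hall⟩)
      · refine ⟨[.imp (.var B) (.neg (.var C)), .var B, .neg (.var C), .var C], ?_, by simp, fun y hy => ?_⟩
        · intro X hX
          simp only [Fo.subs, List.mem_cons, List.not_mem_nil, or_false, List.mem_append] at hX ⊢
          tauto
        · have e1 := hsome _ _ (hy (.imp (.var B) (.neg (.var C))) (by simp))
          have e2 := hsome _ _ (hy (.var B) (by simp))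
          have e3 := hsome _ _ (hy (.neg (.var C)) (by simp))
          have e4 := hsome _ _ (hy (.var C) (by simp))
          have hself : Fo.imp (.var B) (.neg (.var C)) ∈ (Fo.imp (.var B) (.neg (.var C)) : Fo (Finset (Fin N))).subs :=
            self_mem_subs _
          have f1 := himp _ hA _ _ hself y _ _ _ e2 e3 e1
          have f2 := hneg _ hA (.var C) (by simp [Fo.subs]) y _ _ e4 e3
          rw [f1, f2]
          by_contra hcon
          have hb : g y (.var B) = true ∧ g y (.var C) = true := by
            revert hcon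
            cases g y (.var B) <;> cases g y (.var C) <;> simp
          rw [hb.1] at e2
          rw [hb.2] at e4
          have hm := hSt _ hA _ (self_mem_subs _) (g y)
          have hm' : Fm.imp (.var (Sum.inl B)) (Fm.neg (.var (Sum.inl C))) ∈ S := hm
          have m1 := hS.2 _ _ hm'
          have m2 := hS.1 _ m1.2
          obtain ⟨M, hM, hv⟩ := common hr1 (S := {A | A ∈ S}) hval hcard2
            [.var (Sum.inl B), .var (Sum.inl C)] (by simp)
            (by
              intro X hX
              simp only [List.mem_cons, List.not_mem_nil, or_false] at hX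
              rcases hX with rfl | rfl
              · exact m1.1
              · exact m2) (𝓦.isM y) (fun X => true)
            (by
              intro X hX
              simp only [List.mem_cons, List.not_mem_nil, or_false] at hX
              rcases hX with rfl | rfl
              · exact e2
              · exact e4)
          exact hv2 a B C haB haC hBC M hM ⟨hv _ (by simp), hv _ (by simp)⟩
      · refine ⟨[orAll l B], ?_, by simp, fun y hy => ?_⟩
        · intro X hX
          rw [List.mem_singleton] at hX
          rw [hX]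
          exact self_mem_subs _
        · have e1 := hsome _ _ (hy (orAll l B) (by simp))
          by_contra hcon
          rw [Bool.not_eq_true] at hcon
          rw [hcon] at e1
          have hm := hSt _ hA _ (self_mem_subs _) (g y)
          obtain ⟨M, hM, hv⟩ := common hr1 (S := {A | A ∈ S}) hval hcard2
            [tr (g y) (orAll l B)] (by simp)
            (by
              intro X hX
              rw [List.mem_singleton] at hX
              rw [hX]
              exact hm) (𝓦.isM y) (fun X => false)
            (by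
              intro X hX
              rw [List.mem_singleton] at hX
              rw [hX]
              exact e1)
          have v1 := hv _ (List.mem_singleton.2 rfl)
          rw [tr_orAll] at v1 hm
          refine hv3 a _ _ hm ?_ M hM v1
          intro e he hae
          have := hall e he hae
          rcases List.mem_cons.1 this with h | h
          · rw [← h]
            exact List.mem_cons_self
          · exact List.mem_cons_of_mem _ (List.mem_map.2 ⟨_, h, rfl⟩)
  exact hE.no_ref π hπ fun A hA => hA

end Pool.Agent.H67.RG
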