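import Pool.Agent.H67.RG.Diff
import Pool.Agent.H67.RG.Fine
import Pool.Agent.H67.RG.Coarse

/-!
# Module Sqf: the square function

PROOF. Fix `k ≤ m`. `f = ∑_{j ≤ m} Dj f m j` (`Ek_sum` with `k = 0`, `Ek_zero`) and `Ek f k = ∑_{k ≤ j ≤ m} Dj f m j`, `Av` is linear, so for `i ∈ Rt m`
`Av f J - Ek f k i = ∑_{j ≤ m} x_j`, `x_j = Av (Dj f m j) J` for `j < k`, `x_j = Av (Dj f m j) J - Dj f m j i` for `j ≥ k`. Cauchy-Schwarz with weights
`ρ^|j-k|`, `ρ = 3/4`: `(∑ x_j)² ≤ (∑_j ρ^|j-k|) ∑_j ρ^(-|j-k|) x_j² ≤ 7 ∑_j (4/3)^|j-k| x_j²` (`∑_{d ≥ 0} (3/4)^d = 4`, so the sum over both sides is `≤ 7`).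
`Fine` (`j < k`, `Dj_mean`; `j < k ≤ m`) and `Coarse` (`j ≥ k`, `Dj_const`, `j ≤ m`), both `≤ C1 2^(-|j-k|) ∑ (Dj f m j i)²` with
`C1 = 8 (D+1) (2D+3)`. So the left side is `≤ 7 C1 ∑_{j ≤ m} ∑_{k ≤ m} (2/3)^|j-k| ∑_i (Dj f m j i)² ≤ 7 · 5 · C1 ∑_j ∑_i (Dj)² = 35 C1 ∑ f²`
(`∑_{d ≥ 0} (2/3)^d = 3`, both sides `≤ 5`; `Dj_norm`). For the exponents use `((j - k) + (k - j) : ℕ)` (truncated subtraction) instead of `|j - k|`.
-/

set_option autoImplicit false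

namespace Pool.Agent.H67.RG

open Finset

private theorem sqf_geom {r : ℝ} (h0 : 0 ≤ r) (h1 : r < 1) (n : ℕ) : ∑ j ∈ range n, r ^ j ≤ 1 / (1 - r) := by
  have h2 := mul_neg_geom_sum r n
  have h3 : 0 < 1 - r := by linarith
  rw [le_div_iff₀ h3, mul_comm, h2]
  have : 0 ≤ r ^ n := pow_nonneg h0 n
  linarith

private theorem sqf_two {r : ℝ} (h0 : 0 ≤ r) (h1 : r < 1) (n k : ℕ) :
    ∑ j ∈ range n, r ^ ((j - k) + (k - j)) ≤ (1 + r) / (1 - r) := by
  have h3 : 0 < 1 - r := by linarith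
  have h2 : ∑ j ∈ range n, r ^ ((j - k) + (k - j)) ≤ ∑ j ∈ range (k + n), r ^ ((j - k) + (k - j)) :=
    sum_le_sum_of_subset_of_nonneg (range_subset_range.2 (by omega)) (fun j _ _ => pow_nonneg h0 _)
  refine h2.trans ?_
  rw [sum_range_add]
  have h4 : ∑ j ∈ range k, r ^ ((j - k) + (k - j)) = ∑ j ∈ range k, r ^ (j + 1) := by
    rw [← sum_range_reflect (fun j => r ^ (j + 1)) k]
    refine sum_congr rfl fun j hj => ?_
    rw [mem_range] at hj
    congr 1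
    omega
  have h5 : ∑ j ∈ range n, r ^ ((k + j - k) + (k - (k + j))) = ∑ j ∈ range n, r ^ j := by
    refine sum_congr rfl fun j hj => ?_
    congr 1
    omega
  have h6 : ∑ j ∈ range k, r ^ (j + 1) = r * ∑ j ∈ range k, r ^ j := by
    rw [mul_sum]
    exact sum_congr rfl fun j _ => pow_succ' r j
  rw [h4, h5, h6]
  have h7 := sqf_geom h0 h1 k
  have h8 := sqf_geom h0 h1 n
  have h9 : (1 + r) / (1 - r) = r * (1 / (1 - r)) + 1 / (1 - r) := by
    field_simp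
    ring
  rw [h9]
  exact add_le_add (mul_le_mul_of_nonneg_left h7 h0) h8

private theorem sqf_lin (f : ℤ → ℝ) (m : ℕ) (u w : ℤ) :
    Av f u w = ∑ j ∈ range (m + 1), Av (Dj f m j) u w := by
  have h1 : ∀ y, f y = ∑ j ∈ range (m + 1), Dj f m j y := by
    intro y
    have h2 := Ek_sum f m 0 (Nat.zero_le _) y
    rw [Ek_zero] at h2
    rw [h2]
    have h3 : Icc 0 m = range (m + 1) := by
      ext j
      rw [mem_Icc, mem_range]
      omega
    rw [h3]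
  unfold Av
  rw [← sum_div]
  congr 1
  rw [sum_comm]
  exact sum_congr rfl fun y _ => h1 y

private theorem sqf_diff (f : ℤ → ℝ) (m k : ℕ) (hk : k ≤ m) (i u w : ℤ) :
    Av f u w - Ek f k i = ∑ j ∈ range (m + 1), (Av (Dj f m j) u w - if k ≤ j then Dj f m j i else 0) := by
  rw [sum_sub_distrib, ← sqf_lin, Ek_sum f m k hk i, ← sum_filter]
  congr 2
  ext j
  rw [mem_Icc, mem_filter, mem_range]
  omega

private theorem sqf_half (a b : ℕ) (h : a ≤ b) : (2 : ℝ) ^ a / 2 ^ b = (1 / 2) ^ (b - a) := by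
  obtain ⟨c, rfl⟩ : ∃ c, b = a + c := ⟨b - a, by omega⟩
  rw [Nat.add_sub_cancel_left, pow_add, one_div, inv_pow]
  field_simp

private theorem sqf_one (f : ℤ → ℝ) (m D : ℕ) (hf : Supp f m) (k : ℕ) (hk : k ≤ m) (u w : ℤ → ℤ)
    (h : ∀ i ∈ Rt m, Nr D k i (u i) (w i)) (j : ℕ) (hj : j ≤ m) :
    ∑ i ∈ Rt m, (Av (Dj f m j) (u i) (w i) - if k ≤ j then Dj f m j i else 0) ^ 2 ≤
      8 * ((D : ℝ) + 1) * (2 * D + 3) * (1 / 2) ^ ((j - k) + (k - j)) * ∑ i ∈ Rt m, (Dj f m j i) ^ 2 := by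
  have hS : 0 ≤ ∑ i ∈ Rt m, (Dj f m j i) ^ 2 := sum_nonneg fun _ _ => sq_nonneg _
  have hD : (0 : ℝ) ≤ D := Nat.cast_nonneg _
  by_cases hkj : k ≤ j
  · simp only [if_pos hkj]
    refine (coarse (Dj f m j) m j k D hj (Dj_supp f m j hf hj) (fun i i' hi => Dj_const f m j i i' hi) u w h).trans ?_
    rw [sqf_half k j hkj]
    have h1 : (j - k) + (k - j) = j - k := by omega
    rw [h1]
    refine mul_le_mul_of_nonneg_right ?_ hS
    refine mul_le_mul_of_nonneg_right ?_ (by positivity)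
    nlinarith
  · simp only [if_neg hkj, sub_zero]
    have hjk : j < k := not_le.1 hkj
    refine (fine (Dj f m j) m j k D hjk (Dj_supp f m j hf hj) (fun i => Dj_mean f m j (by omega) i) u w h).trans ?_
    rw [sqf_half j k hjk.le]
    have h1 : (j - k) + (k - j) = k - j := by omega
    rw [h1]
    refine mul_le_mul_of_nonneg_right ?_ hS
    refine mul_le_mul_of_nonneg_right ?_ (by positivity)
    nlinarith

theorem sqf (f : ℤ → ℝ) (m D : ℕ) (hf : Supp f m) (u w : ℕ → ℤ → ℤ)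
    (h : ∀ k ≤ m, ∀ i ∈ Rt m, Nr D k i (u k i) (w k i)) :
    ∑ k ∈ range (m + 1), ∑ i ∈ Rt m, (Av f (u k i) (w k i) - Ek f k i) ^ 2 ≤
      280 * ((D : ℝ) + 1) * (2 * D + 3) * ∑ i ∈ Rt m, (f i) ^ 2 := by
  have hD : (0 : ℝ) ≤ D := Nat.cast_nonneg _
  obtain ⟨C, hC⟩ : ∃ C : ℝ, C = 8 * ((D : ℝ) + 1) * (2 * D + 3) := ⟨_, rfl⟩
  have hC0 : 0 ≤ C := by
    rw [hC]
    positivity
  have h1 : ∀ k ∈ range (m + 1), ∑ i ∈ Rt m, (Av f (u k i) (w k i) - Ek f k i) ^ 2 ≤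
      ∑ j ∈ range (m + 1), 7 * C * ((2 / 3) ^ ((j - k) + (k - j)) * ∑ i ∈ Rt m, (Dj f m j i) ^ 2) := by
    intro k hk
    have hk' : k ≤ m := by
      rw [mem_range] at hk
      omega
    have h2 : ∀ i ∈ Rt m, (Av f (u k i) (w k i) - Ek f k i) ^ 2 ≤
        7 * ∑ j ∈ range (m + 1), (4 / 3) ^ ((j - k) + (k - j)) *
          (Av (Dj f m j) (u k i) (w k i) - if k ≤ j then Dj f m j i else 0) ^ 2 := by
      intro i hi
      rw [sqf_diff f m k hk' i]
      have h3 := sum_sq_le_sum_mul_sum_of_sq_le_mul (range (m + 1))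
        (r := fun j => Av (Dj f m j) (u k i) (w k i) - if k ≤ j then Dj f m j i else 0)
        (f := fun j => (3 / 4 : ℝ) ^ ((j - k) + (k - j)))
        (g := fun j => (4 / 3 : ℝ) ^ ((j - k) + (k - j)) *
          (Av (Dj f m j) (u k i) (w k i) - if k ≤ j then Dj f m j i else 0) ^ 2)
        (fun j _ => by positivity) (fun j _ => by positivity) (fun j _ => by
          rw [← mul_assoc, ← mul_pow]
          exact le_of_eq (by norm_num))
      refine h3.trans ?_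
      refine mul_le_mul_of_nonneg_right ?_ (sum_nonneg fun j _ => by positivity)
      have h4 := sqf_two (r := 3 / 4) (by norm_num) (by norm_num) (m + 1) k
      norm_num at h4 ⊢
      linarith
    refine (sum_le_sum h2).trans ?_
    rw [← mul_sum, sum_comm, mul_sum]
    refine sum_le_sum fun j hj => ?_
    have hj' : j ≤ m := by
      rw [mem_range] at hj
      omega
    rw [← mul_sum]
    have h5 := sqf_one f m D hf k hk' (u k) (w k) (h k hk') j hj'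
    rw [← hC] at h5
    have h6 : (0 : ℝ) ≤ (4 / 3) ^ ((j - k) + (k - j)) := by positivity
    have h7 := mul_le_mul_of_nonneg_left h5 h6
    have h8 : (4 / 3 : ℝ) ^ ((j - k) + (k - j)) * (C * (1 / 2) ^ ((j - k) + (k - j)) *
        ∑ i ∈ Rt m, (Dj f m j i) ^ 2) = C * ((2 / 3) ^ ((j - k) + (k - j)) * ∑ i ∈ Rt m, (Dj f m j i) ^ 2) := by
      have h9 : (2 / 3 : ℝ) ^ ((j - k) + (k - j)) = (4 / 3) ^ ((j - k) + (k - j)) * (1 / 2) ^ ((j - k) + (k - j)) := by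
        rw [← mul_pow]
        norm_num
      rw [h9]
      ring
    rw [h8] at h7
    linarith
  refine (sum_le_sum h1).trans ?_
  rw [sum_comm, ← Dj_norm f m, mul_sum]
  refine sum_le_sum fun j _ => ?_
  rw [← mul_sum, ← sum_mul]
  have hS : 0 ≤ ∑ i ∈ Rt m, (Dj f m j i) ^ 2 := sum_nonneg fun _ _ => sq_nonneg _
  have h2 : ∑ k ∈ range (m + 1), (2 / 3 : ℝ) ^ ((j - k) + (k - j)) ≤ 5 := by
    have h4 := sqf_two (r := 2 / 3) (by norm_num) (by norm_num) (m + 1) j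
    have h5 : ∑ k ∈ range (m + 1), (2 / 3 : ℝ) ^ ((j - k) + (k - j)) =
        ∑ k ∈ range (m + 1), (2 / 3 : ℝ) ^ ((k - j) + (j - k)) :=
      sum_congr rfl fun k _ => by rw [add_comm]
    rw [h5]
    norm_num at h4 ⊢
    linarith
  have h3 := mul_le_mul_of_nonneg_right h2 hS
  have h4 := mul_le_mul_of_nonneg_left h3 (show (0 : ℝ) ≤ 7 * C by positivity)
  refine h4.trans (le_of_eq ?_)
  rw [hC]
  ring

end Pool.Agent.H67.RG
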